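import Pool.Agent.Lib.MP_e7d961_lc.Stm

/-! The copies of the universal graph without the root are exact absent vertices. -/

namespace SDich

open Finset

variable {V : Type} {k : ℕ}

/-- number of darts from `x` to `y` as a number of darts -/
private theorem A_symm [DecidableEq V] (H : PN V k) (x y : V) : H.A x y = H.A y x := by
  unfold PN.A
  have key : ∀ x y : V, ∀ i, H.hd x i = y → H.rev (y, (H.rev (x, i)).2) = (x, i) := by
    intro x y i hi
    have h : (y, (H.rev (x, i)).2) = H.rev (x, i) := Prod.ext hi.symm rfl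
    rw [h, H.inv]
  refine Finset.card_bij' (fun i _ => (H.rev (x, i)).2) (fun i _ => (H.rev (y, i)).2) ?_ ?_ ?_ ?_
  · intro i hi
    have hi' := (Finset.mem_filter.1 hi).2
    refine Finset.mem_filter.2 ⟨mem_univ _, ?_⟩
    show (H.rev (y, (H.rev (x, i)).2)).1 = x
    rw [key x y i hi']
  · intro i hi
    have hi' := (Finset.mem_filter.1 hi).2
    refine Finset.mem_filter.2 ⟨mem_univ _, ?_⟩
    show (H.rev (x, (H.rev (y, i)).2)).1 = y
    rw [key y x i hi']
  · intro i hi
    have hi' := (Finset.mem_filter.1 hi).2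
    show (H.rev (y, (H.rev (x, i)).2)).2 = i
    rw [key x y i hi']
  · intro i hi
    have hi' := (Finset.mem_filter.1 hi).2
    show (H.rev (x, (H.rev (y, i)).2)).2 = i
    rw [key y x i hi']

/-- the covering of the universal graph on the level of vertices -/
private theorem F_hd {H : PN V k} (U : UK H) (p : Fr V k) (i : Fin k) (κ : Fin U.N) :
    (U.F p (U.nb i κ)).1 = H.hd (U.F p κ).1 ((U.F p κ).2 i) := by
  rw [U.F_nb]; rfl

private theorem F_cnt [DecidableEq V] {H : PN V k} (U : UK H) (p : Fr V k) (κ : Fin U.N) (y : V) :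
    (univ.filter fun i => (U.F p (U.nb i κ)).1 = y).card = H.A (U.F p κ).1 y := by
  unfold PN.A
  refine Finset.card_bij' (fun i _ => (U.F p κ).2 i) (fun i _ => (U.F p κ).2.symm i) ?_ ?_ ?_ ?_
  · intro i hi
    simp only [mem_filter, mem_univ, true_and, F_hd] at hi ⊢
    exact hi
  · intro i hi
    simp only [mem_filter, mem_univ, true_and, F_hd] at hi ⊢
    rw [Equiv.apply_symm_apply]; exact hi
  · intro i _; simp
  · intro i _; simp

/-- the double counting identity -/
private theorem green [DecidableEq V] {H : PN V k} (U : UK H) {Ω : Type} (M : Port Ω k → Port Ω k)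
    (hM : ∀ p, M (M p) = p) (f : Ω × Fin U.N → V) (hf : (U.PG M hM).Col H f) (ω : Ω)
    (p : Fr V k) :
    (univ.filter fun i => f (ω, U.nb i U.u) = p.1).card =
      (univ.filter fun i => f (U.pv (M (ω, false, i))) = H.hd p.1 (p.2 i)).card := by
  -- `c κ`
  set c : Fin U.N → V := fun κ => (U.F p κ).1 with hc
  have hcu : c U.u = p.1 := by simp [hc, U.F_u]
  have hcn : ∀ i, c (U.nb i U.u) = H.hd p.1 (p.2 i) := by
    intro i; simp [hc, F_hd, U.F_u]
  -- first count
  have h1 : ∀ κ, (univ.filter fun i => c (U.nb i κ) = f (ω, κ)).card = H.A (c κ) (f (ω, κ)) :=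
    fun κ => F_cnt U p κ _
  -- second count
  have h2 : ∀ κ, (univ.filter fun i => f ((U.PG M hM).hd (ω, κ) i) = c κ).card =
      H.A (f (ω, κ)) (c κ) := fun κ => hf (ω, κ) (c κ)
  have h3 : ∑ κ ∈ univ.erase U.u, ∑ i, (if c (U.nb i κ) = f (ω, κ) then 1 else 0) =
      ∑ κ ∈ univ.erase U.u, ∑ i, (if f ((U.PG M hM).hd (ω, κ) i) = c κ then 1 else 0) := by
    refine Finset.sum_congr rfl fun κ _ => ?_
    rw [← Finset.card_filter, ← Finset.card_filter, h1, h2, A_symm]
  rw [Finset.sum_comm, Finset.sum_comm (s := univ.erase U.u)] at h3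
  -- split each sum at the neighbour of the root
  have h4 : ∀ i : Fin k, ∀ g : Fin U.N → ℕ, ∑ κ ∈ univ.erase U.u, g κ =
      g (U.nb i U.u) + ∑ κ ∈ (univ.erase U.u).erase (U.nb i U.u), g κ := by
    intro i g
    rw [Finset.add_sum_erase]
    exact Finset.mem_erase.2 ⟨U.nb_ne i U.u, mem_univ _⟩
  rw [Finset.sum_congr rfl fun i _ => h4 i (fun κ => if c (U.nb i κ) = f (ω, κ) then 1 else 0),
    Finset.sum_congr rfl fun i _ => h4 i (fun κ => if f ((U.PG M hM).hd (ω, κ) i) = c κ
      then 1 else 0)] at h3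
  rw [Finset.sum_add_distrib, Finset.sum_add_distrib] at h3
  have h5 : ∀ i : Fin k, ∑ κ ∈ (univ.erase U.u).erase (U.nb i U.u),
      (if c (U.nb i κ) = f (ω, κ) then 1 else 0) =
      ∑ κ ∈ (univ.erase U.u).erase (U.nb i U.u),
      (if f ((U.PG M hM).hd (ω, κ) i) = c κ then 1 else 0) := by
    intro i
    refine Finset.sum_bij' (fun κ _ => U.nb i κ) (fun κ _ => U.nb i κ) ?_ ?_ ?_ ?_ ?_
    · intro κ hκ
      simp only [mem_erase, mem_univ, and_true, ne_eq] at hκ ⊢
      refine ⟨fun h => hκ.2 ?_, fun h => hκ.1 ?_⟩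
      · rw [← U.nb_nb i κ, h, U.nb_nb]
      · rw [← h, U.nb_nb]
    · intro κ hκ
      simp only [mem_erase, mem_univ, and_true, ne_eq] at hκ ⊢
      refine ⟨fun h => hκ.2 ?_, fun h => hκ.1 ?_⟩
      · rw [← U.nb_nb i κ, h, U.nb_nb]
      · rw [← h, U.nb_nb]
    · intro κ _; exact U.nb_nb i κ
    · intro κ _; exact U.nb_nb i κ
    · intro κ hκ
      simp only [mem_erase, mem_univ, and_true, ne_eq] at hκ
      have h6 : (U.PG M hM).hd (ω, U.nb i κ) i = (ω, κ) := by
        have h7 : U.nb i κ ≠ U.u := by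
          intro h; exact hκ.1 (by rw [← h, U.nb_nb])
        have h8 : U.nb i κ ≠ U.nb i U.u := by
          intro h; exact hκ.2 (by rw [← U.nb_nb i κ, h, U.nb_nb])
        simp [PN.hd, UK.PG, UK.grev, h7, h8, U.nb_nb]
      rw [h6]
      simp only [eq_comm]
  rw [Finset.sum_congr rfl fun i _ => h5 i] at h3
  have h9 := Nat.add_right_cancel h3
  rw [Finset.card_filter, Finset.card_filter]
  rw [← hcu]
  have h10 : ∀ i : Fin k, (if c (U.nb i (U.nb i U.u)) = f (ω, U.nb i U.u) then 1 else 0) =
      (if f (ω, U.nb i U.u) = c U.u then (1 : ℕ) else 0) := by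
    intro i; rw [U.nb_nb]; simp only [eq_comm]
  have h11 : ∀ i : Fin k, (U.PG M hM).hd (ω, U.nb i U.u) i = U.pv (M (ω, false, i)) := by
    intro i
    simp [PN.hd, UK.PG, UK.grev, U.nb_ne, UK.pd]
  simp_rw [h10, h11, hcn] at h9
  rw [h9, hcu]

/-- [anti] -/
theorem p_anti : S_anti := by
  intro V _ _ k H U Ω M hM f hnc hf ω
  have G := fun p => green U M hM f hf ω p
  -- all outer colours agree
  have key : ∀ i j, f (U.pv (M (ω, false, i))) = f (U.pv (M (ω, false, j))) := by
    intro i j
    by_contra hij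
    set Y : Fin k → V := fun i => f (U.pv (M (ω, false, i))) with hY
    -- a neighbour `x` of `Y i`
    have hd' : ∃ x a, H.hd x a = Y i := by
      refine ⟨(H.rev (Y i, i)).1, (H.rev (Y i, i)).2, ?_⟩
      show (H.rev ((H.rev (Y i, i)).1, (H.rev (Y i, i)).2)).1 = _
      rw [Prod.mk.eta, H.inv]
    obtain ⟨x, a, ha⟩ := hd'
    obtain ⟨b, hb⟩ : ∃ b, H.hd x b ≠ Y i := by
      obtain ⟨b, b', hbb⟩ := hnc x
      by_cases h : H.hd x b = Y i
      · exact ⟨b', fun h' => hbb (h.trans h'.symm)⟩
      · exact ⟨b, h⟩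
    have hab : a ≠ b := fun h => hb (h ▸ ha)
    have hne : i ≠ j := fun h => hij (by rw [h])
    -- a permutation with `i ↦ a`, `j ↦ b`
    obtain ⟨π, hπi, hπj⟩ : ∃ π : Equiv.Perm (Fin k), π i = a ∧ π j = b := by
      have h1 : ∃ π : Equiv.Perm (Fin k), π i = a := ⟨Equiv.swap i a, by simp⟩
      obtain ⟨π, hπ⟩ := h1
      refine ⟨Equiv.swap (π j) b * π, ?_, by simp⟩
      rw [Equiv.Perm.mul_apply, hπ]
      refine Equiv.swap_apply_of_ne_of_ne ?_ hab
      rw [← hπ]
      exact fun h => hne (π.injective h)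
    have e1 := G (x, π)
    have e2 := G (x, π * Equiv.swap i j)
    rw [e1] at e2
    let a' : Fin k → ℕ := fun l => if Y l = H.hd x (π l) then 1 else 0
    let b' : Fin k → ℕ := fun l => if Y l = H.hd x (π (Equiv.swap i j l)) then 1 else 0
    have e3 : ∑ l, a' l = ∑ l, b' l := by
      have h1 : ∑ l, a' l = (univ.filter fun l => f (U.pv (M (ω, false, l))) =
          H.hd (x, π).1 ((x, π).2 l)).card := by
        rw [Finset.card_filter]
      have h2 : ∑ l, b' l = (univ.filter fun l => f (U.pv (M (ω, false, l))) =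
          H.hd (x, π * Equiv.swap i j).1 ((x, π * Equiv.swap i j).2 l)).card := by
        rw [Finset.card_filter]
        rfl
      rw [h1, h2, e2]
    -- compare the two sums
    have hi : ∀ F : Fin k → ℕ, ∑ l, F l = F i + (F j + ∑ l ∈ (univ.erase i).erase j, F l) := by
      intro F
      rw [Finset.add_sum_erase _ _ (Finset.mem_erase.2 ⟨hne.symm, mem_univ _⟩),
        Finset.add_sum_erase _ _ (mem_univ _)]
    rw [hi a', hi b'] at e3
    have hrest : ∑ l ∈ (univ.erase i).erase j, a' l = ∑ l ∈ (univ.erase i).erase j, b' l := by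
      refine Finset.sum_congr rfl fun l hl => ?_
      simp only [mem_erase, mem_univ, and_true] at hl
      simp only [a', b', Equiv.swap_apply_of_ne_of_ne hl.2 hl.1]
    rw [hrest] at e3
    have hij' : Y j ≠ Y i := fun h => hij h.symm
    have t1 : a' i = 1 := by
      simp only [a', hπi, ha, if_true]
    have t2 : b' i = 0 := by
      simp only [b', Equiv.swap_apply_left, hπj]
      exact if_neg fun h => hb h.symm
    have t3 : b' j = 0 := by
      simp only [b', Equiv.swap_apply_right, hπi, ha]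
      exact if_neg hij'
    omega
  rcases Nat.eq_zero_or_pos k with rfl | hk
  · -- no ports: `NC` fails at any vertex
    obtain ⟨i, _⟩ := hnc (f (ω, U.u))
    exact i.elim0
  · let i0 : Fin k := ⟨0, hk⟩
    refine ⟨f (U.pv (M (ω, false, i0))), fun i => key i i0, fun y => ?_⟩
    have e := G (y, 1)
    simp only at e
    rw [e, A_symm]
    unfold PN.A
    refine congrArg Finset.card (Finset.filter_congr fun i _ => ?_)
    rw [key i i0]
    exact eq_comm

end SDich
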