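import Pool.Agent.Lib.MP_e7d961_lc.Stm

/-!
The incidence matrix code of a simple graph (piece `code`).
-/

namespace SDich

open Finset

/-- the list of edges -/
private def cdL (N : ℕ) (adj : ℕ → ℕ → Bool) : List (ℕ × ℕ) :=
  (List.product (List.range N) (List.range N)).filter fun p => decide (p.1 < p.2) && adj p.1 p.2

private theorem cd_mem {N : ℕ} {adj : ℕ → ℕ → Bool} {p : ℕ × ℕ} :
    p ∈ cdL N adj ↔ p.1 < N ∧ p.2 < N ∧ p.1 < p.2 ∧ adj p.1 p.2 = true := by
  rcases p with ⟨a, b⟩
  simp [cdL, List.mem_filter, List.mem_product, and_assoc]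

private theorem cd_nodup (N : ℕ) (adj : ℕ → ℕ → Bool) : (cdL N adj).Nodup :=
  List.Nodup.filter _ (List.Nodup.product List.nodup_range List.nodup_range)

private theorem cd_flat {α β : Type} (l : List α) (p : α → Bool) (g : α → List β) :
    (l.flatMap fun a => if p a then g a else []) = (l.filter p).flatMap g := by
  induction l with
  | nil => rfl
  | cons x l ih =>
    rw [List.flatMap_cons, ih, List.filter_cons]
    by_cases h : p x
    · simp [h]
    · simp [h]

private theorem cd_body (N : ℕ) (adj : ℕ → ℕ → Bool) :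
    codeG N adj = List.replicate N true ++ false ::
      ((cdL N adj).flatMap fun p => rowC N p.1 p.2) := by
  have h := cd_flat (List.product (List.range N) (List.range N))
    (fun p => decide (p.1 < p.2) && adj p.1 p.2) (fun p => rowC N p.1 p.2)
  unfold codeG cdL
  rw [← h]
  congr 2
  simp only [List.product, List.flatMap_assoc, List.flatMap_map]

private theorem cd_getD {α β : Type} (f : α → List β) (c : ℕ) (d : β) (d' : α)
    (hf : ∀ a, (f a).length = c) :
    ∀ (l : List α) (j r : ℕ), j < l.length → r < c →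
      (l.flatMap f).getD (j * c + r) d = (f (l.getD j d')).getD r d := by
  intro l
  induction l with
  | nil => intro j r hj; simp at hj
  | cons x l ih =>
    intro j r hj hr
    rw [List.flatMap_cons]
    cases j with
    | zero =>
      rw [Nat.zero_mul, Nat.zero_add, List.getD_append _ _ _ _ (by rw [hf]; exact hr)]
      simp
    | succ j =>
      rw [List.getD_append_right _ _ _ _ (by rw [hf]; nlinarith)]
      have e : (j + 1) * c + r - (f x).length = j * c + r := by
        rw [hf]
        have : (j + 1) * c = j * c + c := by ring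
        omega
      rw [e, ih j r (by simpa using hj) hr]
      simp

private theorem cd_len {α β : Type} (f : α → List β) (c : ℕ) (hf : ∀ a, (f a).length = c)
    (l : List α) : (l.flatMap f).length = l.length * c := by
  induction l with
  | nil => simp
  | cons x l ih =>
    rw [List.flatMap_cons, List.length_append, ih, hf, List.length_cons]
    ring

private theorem cd_row_len (N a b : ℕ) : (rowC N a b).length = 2 * N := by
  have h := cd_len (fun c => [decide (c = a ∨ c = b), false]) 2 (fun _ => rfl) (List.range N)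
  rw [List.length_range, mul_comm] at h
  exact h

private theorem cd_row_get (N a b c t : ℕ) (hc : c < N) (ht : t < 2) :
    (rowC N a b).getD (2 * c + t) false = [decide (c = a ∨ c = b), false].getD t false := by
  have h := cd_getD (fun c => [decide (c = a ∨ c = b), false]) 2 false 0 (fun _ => rfl)
    (List.range N) c t (by rw [List.length_range]; exact hc) ht
  have e : (List.range N).getD c 0 = c := by
    rw [List.getD_eq_getElem _ _ (by rw [List.length_range]; exact hc), List.getElem_range]
  rw [e, mul_comm c 2] at h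
  exact h

private theorem cd_numV (N : ℕ) (adj : ℕ → ℕ → Bool) : numV (codeG N adj) = N := by
  rw [cd_body]
  unfold numV
  have h : ∀ (n : ℕ) (l : List Bool),
      ((List.replicate n true ++ false :: l).takeWhile id).length = n := by
    intro n l
    induction n with
    | zero => simp
    | succ n ih =>
      rw [List.replicate_succ, List.cons_append, List.takeWhile_cons]
      simp only [id, if_true, List.length_cons]
      exact congrArg (· + 1) ih
  exact h _ _

private theorem cd_length (N : ℕ) (adj : ℕ → ℕ → Bool) :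
    (codeG N adj).length = N + 1 + (cdL N adj).length * (2 * N) := by
  rw [cd_body, List.length_append, List.length_cons, List.length_replicate,
    cd_len (fun p : ℕ × ℕ => rowC N p.1 p.2) (2 * N) (fun p => cd_row_len N p.1 p.2)]
  ring

private theorem cd_numE (N : ℕ) (adj : ℕ → ℕ → Bool) (hN : 0 < N) :
    numE (codeG N adj) = (cdL N adj).length := by
  unfold numE
  rw [cd_numV, cd_length]
  have e : N + 1 + (cdL N adj).length * (2 * N) - N - 1 = (cdL N adj).length * (2 * N) := by
    omega
  rw [e]
  exact Nat.mul_div_cancel _ (by omega)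

private theorem cd_bit (N : ℕ) (adj : ℕ → ℕ → Bool) (j c t : ℕ)
    (hj : j < (cdL N adj).length) (hc : c < N) (ht : t < 2) :
    bit (codeG N adj) j c t = [decide (c = ((cdL N adj).getD j (0, 0)).1 ∨
      c = ((cdL N adj).getD j (0, 0)).2), false].getD t false := by
  unfold bit
  rw [cd_numV, cd_body, List.getD_append_right _ _ _ _
    (by rw [List.length_replicate]; omega), List.length_replicate]
  have e : N + 1 + j * (2 * N) + 2 * c + t - N = (j * (2 * N) + (2 * c + t)) + 1 := by omega
  rw [e, List.getD_cons_succ, cd_getD (fun p : ℕ × ℕ => rowC N p.1 p.2) (2 * N) false (0, 0)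
    (fun p => cd_row_len N p.1 p.2) _ j (2 * c + t) hj (by omega), cd_row_get _ _ _ _ _ hc ht]

private theorem cd_entry (N : ℕ) (adj : ℕ → ℕ → Bool) (j c : ℕ)
    (hj : j < (cdL N adj).length) (hc : c < N) :
    entry (codeG N adj) j c = if (c = ((cdL N adj).getD j (0, 0)).1 ∨
      c = ((cdL N adj).getD j (0, 0)).2) then 1 else 0 := by
  unfold entry
  rw [cd_bit N adj j c 0 hj hc (by norm_num), cd_bit N adj j c 1 hj hc (by norm_num)]
  by_cases h : (c = ((cdL N adj).getD j (0, 0)).1 ∨ c = ((cdL N adj).getD j (0, 0)).2)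
  · rw [if_pos h]
    simp only [h, decide_true]
    rfl
  · rw [if_neg h]
    simp only [h, decide_false]
    rfl

private theorem cd_getD_mem (N : ℕ) (adj : ℕ → ℕ → Bool) (j : ℕ)
    (hj : j < (cdL N adj).length) : (cdL N adj).getD j (0, 0) ∈ cdL N adj := by
  rw [List.getD_eq_getElem _ _ hj]
  exact List.getElem_mem hj

private theorem cd_ends (N : ℕ) (adj : ℕ → ℕ → Bool) (j : ℕ)
    (hj : j < (cdL N adj).length) :
    ∃ x y : Fin (numV (codeG N adj)), ((x : ℕ), (y : ℕ)) = (cdL N adj).getD j (0, 0) ∧
      (x : ℕ) < y ∧ adj x y = true ∧ endsOf (codeG N adj) j = {x, y} := by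
  obtain ⟨h1, h2, h3, h4⟩ := cd_mem.mp (cd_getD_mem N adj j hj)
  have hV := cd_numV N adj
  refine ⟨⟨((cdL N adj).getD j (0, 0)).1, by omega⟩, ⟨((cdL N adj).getD j (0, 0)).2, by omega⟩,
    rfl, h3, h4, ?_⟩
  ext c
  have hc : (c : ℕ) < N := by have := c.2; omega
  unfold endsOf
  rw [Multiset.count_sum']
  simp only [Multiset.count_replicate]
  have e : ∑ a : Fin (numV (codeG N adj)), (if a = c then entry (codeG N adj) j a else 0) =
      entry (codeG N adj) j c := by
    rw [Finset.sum_ite_eq' univ c (fun a => entry (codeG N adj) j a)]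
    simp
  rw [e, cd_entry N adj j c hj hc, Multiset.insert_eq_cons, Multiset.count_cons,
    Multiset.count_singleton]
  have hne : ((cdL N adj).getD j (0, 0)).1 ≠ ((cdL N adj).getD j (0, 0)).2 := ne_of_lt h3
  simp only [Fin.ext_iff]
  by_cases ha : (c : ℕ) = ((cdL N adj).getD j (0, 0)).1
  · have hb : (c : ℕ) ≠ ((cdL N adj).getD j (0, 0)).2 := by rw [ha]; exact hne
    rw [if_pos (Or.inl ha), if_neg hb, if_pos ha]
  · by_cases hb : (c : ℕ) = ((cdL N adj).getD j (0, 0)).2
    · rw [if_pos (Or.inr hb), if_pos hb, if_neg ha]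
    · rw [if_neg (by tauto), if_neg hb, if_neg ha]

private theorem cd_pair {n : ℕ} {x y a b : Fin n} (h : ({x, y} : Multiset (Fin n)) = {a, b}) :
    (x = a ∧ y = b) ∨ (x = b ∧ y = a) := by
  rw [Multiset.insert_eq_cons, Multiset.insert_eq_cons, Multiset.cons_eq_cons] at h
  rcases h with ⟨h1, h2⟩ | ⟨_, cs, h1, h2⟩
  · exact Or.inl ⟨h1, Multiset.singleton_inj.mp h2⟩
  · have e1 : cs = 0 := by
      have h3 := congrArg Multiset.card h1
      simp only [Multiset.card_singleton, Multiset.card_cons] at h3
      exact Multiset.card_eq_zero.mp (by omega)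
    subst e1
    have e2 : y = a := by
      have h3 : y ∈ ({y} : Multiset (Fin n)) := Multiset.mem_singleton_self y
      rw [h1] at h3
      simpa using h3
    have e3 : b = x := by
      have h3 : b ∈ ({b} : Multiset (Fin n)) := Multiset.mem_singleton_self b
      rw [h2] at h3
      simpa using h3
    exact Or.inr ⟨e3.symm, e2⟩

private theorem cd_isCode (N : ℕ) (adj : ℕ → ℕ → Bool) (hN : 0 < N) : IsCode (codeG N adj) := by
  refine ⟨by rw [cd_numV]; exact hN, ?_, ?_⟩
  · rw [cd_length, cd_numE N adj hN, cd_numV]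
  · intro j hj
    rw [cd_numE N adj hN] at hj
    obtain ⟨x, y, _, _, _, h⟩ := cd_ends N adj j hj
    right
    rw [h]
    simp

theorem p_code : S_code := by
  intro N adj hN
  refine ⟨cd_isCode N adj hN, cd_numV N adj, ?_⟩
  intro h
  have hE := cd_numE N adj hN
  refine ⟨⟨?_, ?_⟩, ?_⟩
  · change ∀ e : Fin (numE (codeG N adj)), (endsOf (codeG N adj) (e : ℕ)).card = 2 ∧
      (endsOf (codeG N adj) (e : ℕ)).Nodup
    intro e
    obtain ⟨x, y, _, hxy, _, h1⟩ := cd_ends N adj (e : ℕ) (by have := e.2; omega)
    rw [h1]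
    refine ⟨by simp, ?_⟩
    rw [Multiset.insert_eq_cons, Multiset.nodup_cons]
    refine ⟨?_, Multiset.nodup_singleton _⟩
    rw [Multiset.mem_singleton]
    intro h2
    rw [h2] at hxy
    exact lt_irrefl _ hxy
  · change Function.Injective (fun e : Fin (numE (codeG N adj)) => endsOf (codeG N adj) (e : ℕ))
    intro e e' hee
    have l1 : (e : ℕ) < (cdL N adj).length := by have := e.2; omega
    have l2 : (e' : ℕ) < (cdL N adj).length := by have := e'.2; omega
    obtain ⟨x, y, g1, hxy, _, h1⟩ := cd_ends N adj e l1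
    obtain ⟨x', y', g2, hxy', _, h2⟩ := cd_ends N adj e' l2
    change endsOf (codeG N adj) (e : ℕ) = endsOf (codeG N adj) (e' : ℕ) at hee
    rw [h1, h2] at hee
    have key : (cdL N adj).getD e (0, 0) = (cdL N adj).getD e' (0, 0) := by
      rcases cd_pair hee with ⟨ha, hb⟩ | ⟨ha, hb⟩
      · rw [← g1, ← g2, ha, hb]
      · exfalso
        rw [ha, hb] at hxy
        exact lt_asymm hxy hxy'
    rw [List.getD_eq_getElem _ _ l1, List.getD_eq_getElem _ _ l2] at key
    have := (List.Nodup.getElem_inj_iff (cd_nodup N adj)).mp key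
    exact Fin.ext this
  · change ∀ a b : Fin (numV (codeG N adj)),
      (∃ e : Fin (numE (codeG N adj)), endsOf (codeG N adj) (e : ℕ) = {a, b}) ↔ _
    intro a b
    constructor
    · rintro ⟨e, he⟩
      have l1 : (e : ℕ) < (cdL N adj).length := by have := e.2; omega
      obtain ⟨x, y, _, hxy, hadj, h1⟩ := cd_ends N adj e l1
      rw [h1] at he
      rcases cd_pair he with ⟨ha, hb⟩ | ⟨ha, hb⟩
      · subst ha; subst hb
        exact Or.inl ⟨hxy, hadj⟩
      · subst ha; subst hb
        exact Or.inr ⟨hxy, hadj⟩
    · have key : ∀ a b : Fin (numV (codeG N adj)), (a : ℕ) < b → adj a b = true →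
          ∃ e : Fin (numE (codeG N adj)), endsOf (codeG N adj) (e : ℕ) = {a, b} := by
        intro a b hab hadj
        have ha : (a : ℕ) < N := by have := a.2; have := cd_numV N adj; omega
        have hb : (b : ℕ) < N := by have := b.2; have := cd_numV N adj; omega
        have hm : ((a : ℕ), (b : ℕ)) ∈ cdL N adj := cd_mem.mpr ⟨ha, hb, hab, hadj⟩
        obtain ⟨j, hj, hj2⟩ := List.getElem_of_mem hm
        refine ⟨⟨j, by rw [hE]; exact hj⟩, ?_⟩
        obtain ⟨x, y, g1, _, _, h1⟩ := cd_ends N adj j hj
        rw [List.getD_eq_getElem _ _ hj, hj2] at g1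
        have e1 : x = a := Fin.ext (congrArg Prod.fst g1)
        have e2 : y = b := Fin.ext (congrArg Prod.snd g1)
        change endsOf (codeG N adj) j = {a, b}
        rw [h1, e1, e2]
      rintro (⟨h1, h2⟩ | ⟨h1, h2⟩)
      · exact key a b h1 h2
      · obtain ⟨e, he⟩ := key b a h1 h2
        exact ⟨e, he.trans (Multiset.pair_comm b a)⟩

end SDich
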