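import Pool.Agent.Lib.MP_e7d961_lc.Stm

/-!
Piece `codeb`: correctness of the Boolean forms of `IsCode`, of the condition that all edges are
ordinary, and of the condition that no two edges have the same ends.
-/

set_option autoImplicit false

namespace SDich

open Finset

private theorem codeb_sumB (N : ℕ) (f : ℕ → ℕ) :
    sumB N (fun _ => true) f = ∑ a : Fin N, f a := by
  unfold sumB
  rw [Fin.sum_univ_eq_sum_range f N, List.length_flatMap]
  induction N with
  | zero => rfl
  | succ N ih =>
    rw [List.range_succ, List.map_append, List.sum_append, ih, Finset.sum_range_succ]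
    congr 1
    rw [List.map_cons, List.map_nil, List.sum_cons, List.sum_nil, add_zero, if_pos rfl,
      List.length_replicate]

private theorem codeb_card (s : List Bool) (j : ℕ) :
    (endsOf s j).card = ∑ a : Fin (numV s), entry s j a := by
  unfold endsOf
  rw [Multiset.card_sum]
  refine Finset.sum_congr rfl fun a _ => ?_
  rw [Multiset.card_replicate]

private theorem codeb_count (s : List Bool) (j : ℕ) (a : Fin (numV s)) :
    (endsOf s j).count a = entry s j a := by
  unfold endsOf
  rw [Multiset.count_sum', Finset.sum_eq_single a]
  · rw [Multiset.count_replicate_self]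
  · intro b _ hb
    rw [Multiset.count_replicate, if_neg hb]
  · intro h
    exact absurd (Finset.mem_univ a) h

private theorem codeb_code (s : List Bool) : codeB s = true ↔ IsCode s := by
  unfold codeB IsCode
  rw [Bool.and_eq_true, Bool.and_eq_true, decide_eq_true_eq, decide_eq_true_eq, and_assoc,
    List.all_eq_true]
  refine and_congr Iff.rfl (and_congr Iff.rfl ?_)
  constructor
  · intro h j hj
    have h1 := h j (List.mem_range.2 hj)
    rw [Bool.or_eq_true, decide_eq_true_eq, decide_eq_true_eq, codeb_sumB] at h1
    rw [codeb_card]
    exact h1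
  · intro h j hj
    have h1 := h j (List.mem_range.1 hj)
    rw [codeb_card] at h1
    rw [Bool.or_eq_true, decide_eq_true_eq, decide_eq_true_eq, codeb_sumB]
    exact h1

private theorem codeb_ord (s : List Bool) (h : IsCode s) :
    ordB s = true ↔ ∀ e, ((graphOf s h).ends e).card = 2 ∧ ((graphOf s h).ends e).Nodup := by
  unfold ordB
  rw [List.all_eq_true]
  constructor
  · intro h1 (e : Fin (numE s))
    have h2 := h1 e.val (List.mem_range.2 e.isLt)
    rw [Bool.and_eq_true, decide_eq_true_eq, List.all_eq_true, codeb_sumB] at h2
    constructor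
    · exact (codeb_card s _).trans h2.1
    · refine Multiset.nodup_iff_count_le_one.2 fun (a : Fin (numV s)) => ?_
      have h3 := h2.2 a (List.mem_range.2 a.isLt)
      rw [decide_eq_true_eq] at h3
      exact (codeb_count s _ a).le.trans h3
  · intro h1 j hj
    have h2 := h1 (⟨j, List.mem_range.1 hj⟩ : Fin (numE s))
    rw [Bool.and_eq_true, decide_eq_true_eq, List.all_eq_true, codeb_sumB]
    constructor
    · exact (codeb_card s _).symm.trans h2.1
    · intro a ha
      rw [decide_eq_true_eq]
      exact (codeb_count s j ⟨a, List.mem_range.1 ha⟩).symm.le.trans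
        (Multiset.nodup_iff_count_le_one.1 h2.2 (⟨a, List.mem_range.1 ha⟩ : Fin (numV s)))

private theorem codeb_inj (s : List Bool) (h : IsCode s) :
    injB s = true ↔ Function.Injective (graphOf s h).ends := by
  unfold injB
  rw [List.all_eq_true]
  constructor
  · intro h1 (j : Fin (numE s)) (j' : Fin (numE s)) hjj
    have h2 := h1 j (List.mem_range.2 j.isLt)
    rw [List.all_eq_true] at h2
    have h3 := h2 j' (List.mem_range.2 j'.isLt)
    rw [Bool.or_eq_true, decide_eq_true_eq, List.any_eq_true] at h3
    rcases h3 with h3 | ⟨a, ha, h3⟩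
    · exact Fin.ext h3
    · rw [decide_eq_true_eq] at h3
      have hjj' : endsOf s j = endsOf s j' := hjj
      refine absurd ?_ h3
      have e1 := codeb_count s j ⟨a, List.mem_range.1 ha⟩
      have e2 := codeb_count s j' ⟨a, List.mem_range.1 ha⟩
      rw [hjj', e2] at e1
      exact e1.symm
  · intro h1 j hj
    rw [List.all_eq_true]
    intro j' hj'
    rw [Bool.or_eq_true, decide_eq_true_eq, List.any_eq_true]
    by_cases hjj : j = j'
    · exact Or.inl hjj
    · right
      by_contra hne
      refine hjj ?_
      have h2 : (graphOf s h).ends (⟨j, List.mem_range.1 hj⟩ : Fin (numE s)) =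
          (graphOf s h).ends (⟨j', List.mem_range.1 hj'⟩ : Fin (numE s)) := by
        change endsOf s j = endsOf s j'
        refine Multiset.ext.2 fun a => ?_
        rw [codeb_count, codeb_count]
        by_contra hc
        refine hne ⟨a, List.mem_range.2 a.isLt, ?_⟩
        rw [decide_eq_true_eq]
        exact hc
      have h3 := h1 h2
      exact congrArg Fin.val h3

theorem p_codeb : S_codeb := fun s =>
  ⟨codeb_code s, fun h => ⟨codeb_ord s h, codeb_inj s h⟩⟩

end SDich
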