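import Pool.Agent.Lib.MP_e7d961_lc.Stm

/-!
[col1]: a satisfying assignment gives a 3-colouring.
-/

namespace SDich

open Finset HerCo CookLevin

private lemma c1_len {α β : Type} (f : α → List β) (l : List α) {a : α} (h : a ∈ l) :
    (f a).length ≤ (l.flatMap f).length := by
  induction l with
  | nil => simp at h
  | cons b l ih =>
    rw [List.flatMap_cons, List.length_append]
    rcases List.mem_cons.1 h with rfl | h
    · omega
    · have := ih h
      omega

private lemma c1_cnv (φ : Cnf) {cl : List (ℕ × Bool)} (hcl : cl ∈ φ) {l : ℕ × Bool} (hl : l ∈ cl) :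
    l.1 < cnv φ := by
  have h1 := c1_len (fun cl : List (ℕ × Bool) =>
    cl.flatMap fun l => List.replicate l.1 ()) φ hcl
  have h2 := c1_len (fun l : ℕ × Bool => List.replicate l.1 ()) cl hl
  rw [List.length_replicate] at h2
  unfold cnv
  omega

private lemma c1_cwd (φ : Cnf) {cl : List (ℕ × Bool)} (hcl : cl ∈ φ) : cl.length < cwd φ := by
  have h1 := c1_len (fun cl : List (ℕ × Bool) => cl) φ hcl
  unfold cwd
  omega

/-- the value of the first `t` literals -/
private def outv (φ : Cnf) (τ : ℕ → Bool) (i t : ℕ) : Bool :=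
  ((φ.getD i []).take t).any fun l => decide (τ l.1 = l.2)

/-- the value of the literal number `t` -/
private def litv (φ : Cnf) (τ : ℕ → Bool) (i t : ℕ) : Bool :=
  decide (τ ((φ.getD i []).getD t (0, true)).1 = ((φ.getD i []).getD t (0, true)).2)

private def colb (b : Bool) : Fin 3 := if b then 1 else 2

/-- the colours of a gadget -/
private def gcol (a l : Bool) (r : ℕ) : Fin 3 :=
  if r = 0 then (if a && !l then 2 else 0)
  else if r = 1 then (if a && !l then 0 else if a || l then 2 else 1)
  else colb (a || l)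

/-- the colouring -/
private def thecol (φ : Cnf) (τ : ℕ → Bool) (v : ℕ) : Fin 3 :=
  if v = 0 then 0 else if v = 1 then 1 else if v = 2 then 2
  else if v < 3 + 2 * cnv φ then colb (decide (τ ((v - 3) / 2) = decide ((v - 3) % 2 = 0)))
  else gcol (outv φ τ ((v - (3 + 2 * cnv φ)) / 3 / cwd φ) ((v - (3 + 2 * cnv φ)) / 3 % cwd φ))
    (litv φ τ ((v - (3 + 2 * cnv φ)) / 3 / cwd φ) ((v - (3 + 2 * cnv φ)) / 3 % cwd φ))
    ((v - (3 + 2 * cnv φ)) % 3)

private lemma col_lv (φ : Cnf) (τ : ℕ → Bool) (x : ℕ) (b : Bool) (hx : x < cnv φ) :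
    thecol φ τ (lv (x, b)) = colb (decide (τ x = b)) := by
  unfold thecol lv
  cases b
  · simp only [Bool.false_eq_true, if_false]
    have h1 : 4 + 2 * x < 3 + 2 * cnv φ := by omega
    have h2 : (4 + 2 * x - 3) / 2 = x := by omega
    have h3 : (4 + 2 * x - 3) % 2 = 1 := by omega
    rw [if_neg (by omega), if_neg (by omega), if_neg (by omega), if_pos h1, h2, h3]
    rfl
  · simp only [if_true]
    have h1 : 3 + 2 * x < 3 + 2 * cnv φ := by omega
    have h2 : (3 + 2 * x - 3) / 2 = x := by omega
    have h3 : (3 + 2 * x - 3) % 2 = 0 := by omega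
    rw [if_neg (by omega), if_neg (by omega), if_neg (by omega), if_pos h1, h2, h3]
    rfl

private lemma col_gv (φ : Cnf) (τ : ℕ → Bool) (i t r : ℕ) (ht : t < cwd φ) (hr : r < 3) :
    thecol φ τ (gv φ i t r) = gcol (outv φ τ i t) (litv φ τ i t) r := by
  unfold thecol gv
  have h0 : 3 + 2 * cnv φ + 3 * (i * cwd φ + t) + r - (3 + 2 * cnv φ) =
      3 * (i * cwd φ + t) + r := by omega
  have h1 : (3 * (i * cwd φ + t) + r) / 3 = i * cwd φ + t := by omega
  have h2 : (3 * (i * cwd φ + t) + r) % 3 = r := by omega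
  have h3 : (i * cwd φ + t) / cwd φ = i := by
    rw [mul_comm, Nat.mul_add_div (by omega), Nat.div_eq_of_lt ht, add_zero]
  have h4 : (i * cwd φ + t) % cwd φ = t := by
    rw [mul_comm, Nat.mul_add_mod, Nat.mod_eq_of_lt ht]
  rw [if_neg (by omega), if_neg (by omega), if_neg (by omega), if_neg (by omega), h0, h1, h2, h3,
    h4]

private lemma outv_succ (φ : Cnf) (τ : ℕ → Bool) (i t : ℕ) (ht : t < (φ.getD i []).length) :
    outv φ τ i (t + 1) = (outv φ τ i t || litv φ τ i t) := by
  unfold outv litv
  rw [List.take_add_one, List.any_append]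
  congr 1
  have h1 : (φ.getD i []).getD t (0, true) = (φ.getD i [])[t] := by
    rw [List.getD_eq_getElem _ _ ht]
  rw [h1, List.getElem?_eq_getElem ht]
  simp

private lemma gcol_ok (a l : Bool) :
    colb a ≠ gcol a l 0 ∧ colb l ≠ gcol a l 1 ∧ gcol a l 0 ≠ gcol a l 1 ∧
      gcol a l 0 ≠ gcol a l 2 ∧ gcol a l 1 ≠ gcol a l 2 ∧ (0 : Fin 3) ≠ gcol a l 2 := by
  cases a <;> cases l <;> decide

private lemma col_ov (φ : Cnf) (τ : ℕ → Bool) (i t : ℕ) (hw : (φ.getD i []).length < cwd φ)
    (ht : t ≤ (φ.getD i []).length) : thecol φ τ (ov φ i t) = colb (outv φ τ i t) := by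
  unfold ov
  rcases t with _ | t
  · simp [thecol, colb, outv]
  · rw [if_neg (by omega), Nat.add_sub_cancel, col_gv φ τ i t 2 (by omega) (by omega),
      outv_succ φ τ i t (by omega)]
    rfl

theorem p_col1 : S_col1 := by
  rintro φ ⟨τ, hτ⟩
  refine ⟨thecol φ τ, ?_⟩
  have c0 : thecol φ τ 0 = 0 := by simp [thecol]
  have c1 : thecol φ τ 1 = 1 := by simp [thecol]
  have c2 : thecol φ τ 2 = 2 := by simp [thecol]
  intro e he
  unfold colE at he
  rw [List.mem_append, List.mem_append, List.mem_flatMap, List.mem_flatMap] at he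
  rcases he with (he | ⟨x, hx, he⟩) | ⟨i, hi, he⟩
  · simp only [List.mem_cons, List.not_mem_nil, or_false] at he
    rcases he with rfl | rfl | rfl
    · simp only [c0, c1]; decide
    · simp only [c0, c2]; decide
    · simp only [c1, c2]; decide
  · rw [List.mem_range] at hx
    simp only [List.mem_cons, List.not_mem_nil, or_false] at he
    rcases he with rfl | rfl | rfl
    · simp only [col_lv φ τ x _ hx]
      cases τ x <;> decide
    · simp only [col_lv φ τ x _ hx, c0]
      cases τ x <;> decide
    · simp only [col_lv φ τ x _ hx, c0]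
      cases τ x <;> decide
  · rw [List.mem_range] at hi
    have hcl : φ.getD i [] ∈ φ := by
      rw [List.getD_eq_getElem _ _ hi]
      exact List.getElem_mem hi
    have hw := c1_cwd φ hcl
    rw [List.mem_append, List.mem_flatMap] at he
    rcases he with ⟨t, ht, he⟩ | he
    · rw [List.mem_range] at ht
      have hl : (φ.getD i []).getD t (0, true) ∈ φ.getD i [] := by
        rw [List.getD_eq_getElem _ _ ht]
        exact List.getElem_mem ht
      have hx := c1_cnv φ hcl hl
      have hlv : thecol φ τ (lv ((φ.getD i []).getD t (0, true))) = colb (litv φ τ i t) := by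
        unfold litv
        rw [← col_lv φ τ _ _ hx]
      have hg := fun r (hr : r < 3) => col_gv φ τ i t r (by omega) hr
      have ho := col_ov φ τ i t hw ht.le
      obtain ⟨g1, g2, g3, g4, g5, g6⟩ := gcol_ok (outv φ τ i t) (litv φ τ i t)
      simp only [List.mem_cons, List.not_mem_nil, or_false] at he
      rcases he with rfl | rfl | rfl | rfl | rfl | rfl
      · simp only [ho, hg 0 (by omega)]; exact g1
      · simp only [hlv, hg 1 (by omega)]; exact g2
      · simp only [hg 0 (by omega), hg 1 (by omega)]; exact g3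
      · simp only [hg 0 (by omega), hg 2 (by omega)]; exact g4
      · simp only [hg 1 (by omega), hg 2 (by omega)]; exact g5
      · simp only [c0, hg 2 (by omega)]; exact g6
    · rw [List.mem_singleton] at he
      subst he
      simp only [c2, col_ov φ τ i _ hw le_rfl]
      have hs : outv φ τ i (φ.getD i []).length = true := by
        unfold outv
        rw [List.take_length, List.any_eq_true]
        obtain ⟨l, hl, hl2⟩ := hτ _ hcl
        exact ⟨l, hl, by simp [hl2]⟩
      rw [hs]
      decide

end SDich
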