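import Pool.Agent.Lib.MP_e7d961_lc.Stm

/-!
[col2]: a 3-colouring gives a satisfying assignment.
-/

namespace SDich

open Finset HerCo CookLevin

private lemma c2_len {α β : Type} (f : α → List β) (l : List α) {a : α} (h : a ∈ l) :
    (f a).length ≤ (l.flatMap f).length := by
  induction l with
  | nil => simp at h
  | cons b l ih =>
    rw [List.flatMap_cons, List.length_append]
    rcases List.mem_cons.1 h with rfl | h
    · omega
    · have := ih h
      omega

private lemma c2_cnv (φ : Cnf) {cl : List (ℕ × Bool)} (hcl : cl ∈ φ) {l : ℕ × Bool} (hl : l ∈ cl) :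
    l.1 < cnv φ := by
  have h1 := c2_len (fun cl : List (ℕ × Bool) =>
    cl.flatMap fun l => List.replicate l.1 ()) φ hcl
  have h2 := c2_len (fun l : ℕ × Bool => List.replicate l.1 ()) cl hl
  rw [List.length_replicate] at h2
  unfold cnv
  omega

private lemma third (a0 a1 a2 x : Fin 3) (h01 : a0 ≠ a1) (h02 : a0 ≠ a2) (h12 : a1 ≠ a2)
    (h0 : x ≠ a0) (h1 : x ≠ a1) : x = a2 := by
  omega

private lemma gadget (a0 a1 a2 g0 g1 g2 : Fin 3) (h01 : a0 ≠ a1) (h02 : a0 ≠ a2) (h12 : a1 ≠ a2)
    (h1 : a2 ≠ g0) (h2 : a2 ≠ g1) (h3 : g0 ≠ g1) (h4 : g0 ≠ g2) (h5 : g1 ≠ g2) :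
    g2 = a2 := by
  omega

theorem p_col2 : S_col2 := by
  rintro φ ⟨c, hc⟩
  have hA : ∀ e ∈ [(0, 1), (0, 2), (1, 2)], c e.1 ≠ c e.2 := by
    intro e he
    apply hc e
    unfold colE
    rw [List.mem_append, List.mem_append]
    exact Or.inl (Or.inl he)
  have h01 : c 0 ≠ c 1 := hA (0, 1) (by simp)
  have h02 : c 0 ≠ c 2 := hA (0, 2) (by simp)
  have h12 : c 1 ≠ c 2 := hA (1, 2) (by simp)
  have hB : ∀ x < cnv φ, c (lv (x, true)) ≠ c (lv (x, false)) ∧ c 0 ≠ c (lv (x, true)) ∧
      c 0 ≠ c (lv (x, false)) := by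
    intro x hx
    have h : ∀ e ∈ [(lv (x, true), lv (x, false)), (0, lv (x, true)), (0, lv (x, false))],
        c e.1 ≠ c e.2 := by
      intro e he
      apply hc e
      unfold colE
      rw [List.mem_append, List.mem_append, List.mem_flatMap]
      exact Or.inl (Or.inr ⟨x, List.mem_range.2 hx, he⟩)
    exact ⟨h (lv (x, true), lv (x, false)) (by simp), h (0, lv (x, true)) (by simp),
      h (0, lv (x, false)) (by simp)⟩
  have hC : ∀ i < φ.length, ∀ e ∈ (((List.range (φ.getD i []).length).flatMap fun t =>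
      [(ov φ i t, gv φ i t 0), (lv ((φ.getD i []).getD t (0, true)), gv φ i t 1),
       (gv φ i t 0, gv φ i t 1), (gv φ i t 0, gv φ i t 2), (gv φ i t 1, gv φ i t 2),
       (0, gv φ i t 2)]) ++ [(2, ov φ i (φ.getD i []).length)]), c e.1 ≠ c e.2 := by
    intro i hi e he
    apply hc e
    unfold colE
    rw [List.mem_append, List.mem_flatMap]
    exact Or.inr ⟨i, List.mem_range.2 hi, he⟩
  refine ⟨fun x => decide (c (lv (x, true)) = c 1), ?_⟩
  intro cl hcl
  by_contra hno
  obtain ⟨i, hi, hcli⟩ := List.mem_iff_getElem.1 hcl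
  have hgi : φ.getD i [] = cl := by rw [List.getD_eq_getElem _ _ hi, hcli]
  have hlit : ∀ l ∈ cl, c (lv l) = c 2 := by
    rintro ⟨x, b⟩ hl
    obtain ⟨b1, b2, b3⟩ := hB x (c2_cnv φ hcl hl)
    have h0 : c (lv (x, b)) ≠ c 0 := by
      cases b
      · exact b3.symm
      · exact b2.symm
    refine third (c 0) (c 1) (c 2) _ h01 h02 h12 h0 ?_
    intro h1
    apply hno
    refine ⟨(x, b), hl, ?_⟩
    cases b
    · simp only [decide_eq_false_iff_not]
      intro h2
      exact b1 (h2.trans h1.symm)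
    · simp only [decide_eq_true_eq]
      exact h1
  have hov : ∀ t ≤ cl.length, c (ov φ i t) = c 2 := by
    intro t
    induction t with
    | zero =>
      intro _
      simp [ov]
    | succ t ih =>
      intro ht
      have iht := ih (by omega)
      have ht' : t < (φ.getD i []).length := by rw [hgi]; omega
      have h : ∀ e ∈ [(ov φ i t, gv φ i t 0), (lv ((φ.getD i []).getD t (0, true)), gv φ i t 1),
          (gv φ i t 0, gv φ i t 1), (gv φ i t 0, gv φ i t 2), (gv φ i t 1, gv φ i t 2),
          (0, gv φ i t 2)], c e.1 ≠ c e.2 := by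
        intro e he
        apply hC i hi e
        rw [List.mem_append, List.mem_flatMap]
        exact Or.inl ⟨t, List.mem_range.2 ht', he⟩
      have e1 := h (ov φ i t, gv φ i t 0) (by simp)
      have e2 := h (lv ((φ.getD i []).getD t (0, true)), gv φ i t 1) (by simp)
      have e3 := h (gv φ i t 0, gv φ i t 1) (by simp)
      have e4 := h (gv φ i t 0, gv φ i t 2) (by simp)
      have e5 := h (gv φ i t 1, gv φ i t 2) (by simp)
      simp only at e1 e2 e3 e4 e5
      have hl : (φ.getD i []).getD t (0, true) ∈ cl := by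
        rw [List.getD_eq_getElem _ _ ht', ← hgi]
        exact List.getElem_mem ht'
      rw [iht] at e1
      rw [hlit _ hl] at e2
      have hov' : ov φ i (t + 1) = gv φ i t 2 := by
        unfold ov
        rw [if_neg (by omega), Nat.add_sub_cancel]
      rw [hov']
      exact gadget (c 0) (c 1) (c 2) _ _ _ h01 h02 h12 e1 e2 e3 e4 e5
  have hend : c 2 ≠ c (ov φ i (φ.getD i []).length) := by
    have := hC i hi (2, ov φ i (φ.getD i []).length) (by simp)
    exact this
  rw [hgi] at hend
  exact hend (hov _ le_rfl).symm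

end SDich
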