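import Pool.Agent.Lib.MP_e7d961_lc.Stm

/-!
Bounds of the vertex numbers in the colouring graph of a formula (`MP_e7d961_lc`, piece `colb`).
-/

namespace SDich

open CookLevin

private theorem colb_len_le {α β : Type} (L : List α) (f : α → List β) (a : α) (ha : a ∈ L) :
    (f a).length ≤ (L.flatMap f).length := by
  rw [List.length_flatMap]
  exact List.single_le_sum (by simp) _ (List.mem_map.2 ⟨a, ha, rfl⟩)

private theorem colb_cnv (φ : Cnf) (cl : List (ℕ × Bool)) (hcl : cl ∈ φ) (l : ℕ × Bool)
    (hl : l ∈ cl) : l.1 < cnv φ := by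
  have h1 := colb_len_le cl (fun l => List.replicate l.1 ()) l hl
  have h2 := colb_len_le φ (fun cl => cl.flatMap fun l => List.replicate l.1 ()) cl hcl
  rw [List.length_replicate] at h1
  have h3 : l.1 ≤ (φ.flatMap fun cl => cl.flatMap fun l => List.replicate l.1 ()).length :=
    h1.trans h2
  unfold cnv
  omega

private theorem colb_cwd (φ : Cnf) (cl : List (ℕ × Bool)) (hcl : cl ∈ φ) :
    cl.length + 1 ≤ cwd φ := by
  have h2 := colb_len_le φ (fun cl => cl) cl hcl
  unfold cwd
  exact Nat.succ_le_succ h2

private theorem colb_gv (φ : Cnf) (c t r : ℕ) (hc : c < φ.length) (ht : t < cwd φ) (hr : r ≤ 2) :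
    gv φ c t r < colN φ := by
  have h : (c + 1) * cwd φ ≤ φ.length * cwd φ := Nat.mul_le_mul_right _ hc
  have h' : (c + 1) * cwd φ = c * cwd φ + cwd φ := by ring
  unfold gv colN
  omega

private theorem colb_lv (φ : Cnf) (l : ℕ × Bool) (hl : l.1 < cnv φ) : lv l < colN φ := by
  unfold lv colN
  split_ifs <;> omega

theorem p_colb : S_colb := by
  intro φ e he
  have h3 : 3 < colN φ := by unfold colN; omega
  unfold colE at he
  rw [List.mem_append, List.mem_append] at he
  rcases he with (he | he) | he
  · simp only [List.mem_cons, List.not_mem_nil, or_false] at he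
    rcases he with rfl | rfl | rfl <;> constructor <;> simp only <;> omega
  · rw [List.mem_flatMap] at he
    obtain ⟨x, hx, he⟩ := he
    rw [List.mem_range] at hx
    have ht := colb_lv φ (x, true) hx
    have hf := colb_lv φ (x, false) hx
    simp only [List.mem_cons, List.not_mem_nil, or_false] at he
    rcases he with rfl | rfl | rfl
    · exact ⟨ht, hf⟩
    · exact ⟨by omega, ht⟩
    · exact ⟨by omega, hf⟩
  · rw [List.mem_flatMap] at he
    obtain ⟨c, hc, he⟩ := he
    rw [List.mem_range] at hc
    have hg : φ.getD c [] = φ[c] := by simp [List.getD, hc]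
    have hmem : φ.getD c [] ∈ φ := by rw [hg]; exact List.getElem_mem hc
    have hw := colb_cwd φ _ hmem
    have hov : ∀ t, t ≤ (φ.getD c []).length → ov φ c t < colN φ := by
      intro t ht
      unfold ov
      split_ifs with h0
      · omega
      · exact colb_gv φ c (t - 1) 2 hc (by omega) le_rfl
    rw [List.mem_append] at he
    rcases he with he | he
    · rw [List.mem_flatMap] at he
      obtain ⟨t, ht, he⟩ := he
      rw [List.mem_range] at ht
      have hl : ((φ.getD c []).getD t (0, true)).1 < cnv φ := by
        have hg2 : (φ.getD c []).getD t (0, true) = (φ.getD c [])[t] := by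
          rw [List.getD_eq_getElem?_getD, List.getElem?_eq_getElem ht, Option.getD_some]
        rw [hg2]
        exact colb_cnv φ _ hmem _ (List.getElem_mem ht)
      have hlv := colb_lv φ _ hl
      have ho := hov t (by omega)
      have g0 := colb_gv φ c t 0 hc (by omega) (by omega)
      have g1 := colb_gv φ c t 1 hc (by omega) (by omega)
      have g2 := colb_gv φ c t 2 hc (by omega) (by omega)
      simp only [List.mem_cons, List.not_mem_nil, or_false] at he
      rcases he with rfl | rfl | rfl | rfl | rfl | rfl
      · exact ⟨ho, g0⟩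
      · exact ⟨hlv, g1⟩
      · exact ⟨g0, g1⟩
      · exact ⟨g0, g2⟩
      · exact ⟨g1, g2⟩
      · exact ⟨by omega, g2⟩
    · simp only [List.mem_cons, List.not_mem_nil, or_false] at he
      subst he
      exact ⟨by omega, hov _ le_rfl⟩

end SDich
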