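import Pool.Agent.Lib.MP_e7d961_lc.Stm

set_option autoImplicit false

/-!
Piece colr: a covering projection of graphs gives a colouring of port graphs.
-/

namespace SDich

open Finset

/-- `y` is the other end of the edge `e` at `x`. -/
private def colrQ (H : Gr) (e : H.E) (x y : H.V) : Prop :=
  H.ends e = {x, y} ∨ (x = y ∧ H.ends e = {x})

private theorem colrQ_unique {H : Gr} {e : H.E} {x y y' : H.V} (h : colrQ H e x y)
    (h' : colrQ H e x y') : y = y' := by
  rcases h with h | ⟨h, h1⟩ <;> rcases h' with h' | ⟨h', h1'⟩
  · rw [h, Multiset.insert_eq_cons, Multiset.insert_eq_cons, Multiset.cons_inj_right,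
      Multiset.singleton_inj] at h'
    exact h'
  · rw [h] at h1'
    have := congrArg Multiset.card h1'
    simp at this
  · rw [h1] at h'
    have := congrArg Multiset.card h'
    simp at this
  · rw [← h, ← h']

/-- [colr] -/
theorem p_colr : S_colr := by
  classical
  intro H k n R G W P φ hsim hreal hcov
  obtain ⟨f0, g, hfg⟩ := hcov
  obtain ⟨hG, hadj⟩ := hreal
  refine ⟨fun w => R.φ (f0 (φ.symm w)), fun w y => ?_⟩
  -- the edge at the port `i`
  have hex : ∀ i, ∃ e, G.ends e = {φ.symm w, φ.symm (P.hd w i)} := by
    intro i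
    rw [hadj]
    exact ⟨i, by rw [Equiv.apply_symm_apply, Equiv.apply_symm_apply]⟩
  choose E hE using hex
  have hne : ∀ i, φ.symm w ≠ φ.symm (P.hd w i) := fun i h =>
    hsim.1 w i (φ.symm.injective h).symm
  have hEinj : Function.Injective E := by
    intro i j hij
    have h1 := hE i
    rw [hij, hE j, Multiset.insert_eq_cons, Multiset.insert_eq_cons, Multiset.cons_inj_right,
      Multiset.singleton_inj] at h1
    exact hsim.2 w i j (φ.symm.injective h1.symm)
  have hEsurj : ∀ e, φ.symm w ∈ G.ends e → ∃ i, E i = e := by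
    intro e he
    obtain ⟨t, ht⟩ := Multiset.exists_cons_of_mem he
    have hc := (hG.1 e).1
    rw [ht, Multiset.card_cons] at hc
    obtain ⟨b, hb⟩ := Multiset.card_eq_one.1 (show t.card = 1 by omega)
    have h1 : G.ends e = {φ.symm w, b} := by rw [ht, hb]; rfl
    obtain ⟨i, hi⟩ := (hadj (φ.symm w) b).1 ⟨e, h1⟩
    rw [Equiv.apply_symm_apply] at hi
    refine ⟨i, hG.2 ?_⟩
    rw [hE i, h1, hi, Equiv.symm_apply_apply]
  set x := f0 (φ.symm w) with hx
  -- the count of the ports over an edge of `H`
  have hcount : ∀ e, (univ.filter fun i => g (E i) = e).card = (H.ends e).count x := by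
    intro e
    rw [hx, ← hfg.loc (φ.symm w) e]
    have h1 : ∑ e' ∈ (univ.filter fun i => g (E i) = e).image E,
        (G.ends e').count (φ.symm w) =
        ∑ e' ∈ univ.filter (fun e' => g e' = e), (G.ends e').count (φ.symm w) := by
      refine Finset.sum_subset ?_ ?_
      · intro e' he'
        obtain ⟨i, hi, rfl⟩ := Finset.mem_image.1 he'
        rw [Finset.mem_filter] at hi ⊢
        exact ⟨Finset.mem_univ _, hi.2⟩
      · intro e' he' hni
        rw [Multiset.count_eq_zero]
        intro hmem
        obtain ⟨i, rfl⟩ := hEsurj e' hmem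
        apply hni
        rw [Finset.mem_image]
        refine ⟨i, ?_, rfl⟩
        rw [Finset.mem_filter] at he' ⊢
        exact ⟨Finset.mem_univ _, he'.2⟩
    rw [← h1, Finset.sum_image (fun a _ b _ hab => hEinj hab), Finset.card_eq_sum_ones]
    refine Finset.sum_congr rfl fun i _ => ?_
    rw [hE i, Multiset.insert_eq_cons, Multiset.count_cons_self, Multiset.count_singleton,
      if_neg (hne i)]
  -- the other ends
  have hQ1 : ∀ i, colrQ H (g (E i)) x (f0 (φ.symm (P.hd w i))) := by
    intro i
    have hm : (G.ends (E i)).map f0 = {x, f0 (φ.symm (P.hd w i))} := by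
      rw [hE i]
      simp [hx]
    rcases hfg.ends (E i) with h | ⟨h, h'⟩
    · left
      rw [← h, hm]
    · right
      obtain ⟨z, hz⟩ := Multiset.card_eq_one.1 h
      rw [hz, hm] at h'
      have e1 : x ∈ ({z} + {z} : Multiset H.V) := by
        rw [← h']; simp
      have e2 : f0 (φ.symm (P.hd w i)) ∈ ({z} + {z} : Multiset H.V) := by
        rw [← h']; simp
      simp at e1 e2
      exact ⟨e1.trans e2.symm, by rw [hz, e1]⟩
  have hQ2 : ∀ j, colrQ H (R.ed (R.φ x, j)) x (R.φ.symm (R.P.hd (R.φ x) j)) := by
    intro j
    have h := R.ends_ed (R.φ x, j)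
    by_cases hr : R.P.rev (R.φ x, j) = (R.φ x, j)
    · right
      rw [if_pos hr] at h
      refine ⟨?_, by rw [h]; simp⟩
      unfold PN.hd
      rw [hr]
      simp
    · left
      rw [if_neg hr] at h
      rw [h]
      simp [PN.hd]
  -- both sides
  have hL : (univ.filter fun i => R.φ (f0 (φ.symm (P.hd w i))) = y) =
      univ.filter fun i => colrQ H (g (E i)) x (R.φ.symm y) := by
    ext i
    simp only [Finset.mem_filter, Finset.mem_univ, true_and]
    constructor
    · intro h
      rw [← h, Equiv.symm_apply_apply]
      exact hQ1 i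
    · intro h
      rw [colrQ_unique (hQ1 i) h, Equiv.apply_symm_apply]
  have hR : (univ.filter fun j => R.P.hd (R.φ x) j = y) =
      univ.filter fun j => colrQ H (R.ed (R.φ x, j)) x (R.φ.symm y) := by
    ext j
    simp only [Finset.mem_filter, Finset.mem_univ, true_and]
    constructor
    · intro h
      rw [← h]
      exact hQ2 j
    · intro h
      have := colrQ_unique (hQ2 j) h
      exact R.φ.symm.injective this
  have key : ∀ (a : Fin k → H.E), (∀ e, (univ.filter fun i => a i = e).card = (H.ends e).count x) →
      (univ.filter fun i => colrQ H (a i) x (R.φ.symm y)).card =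
        ∑ e ∈ univ.filter (fun e => colrQ H e x (R.φ.symm y)), (H.ends e).count x := by
    intro a ha
    rw [Finset.card_eq_sum_card_fiberwise (f := a)
      (t := univ.filter fun e => colrQ H e x (R.φ.symm y))]
    · refine Finset.sum_congr rfl fun e he => ?_
      rw [← ha e]
      refine congrArg Finset.card ?_
      ext i
      simp only [Finset.mem_filter, Finset.mem_univ, true_and] at he ⊢
      constructor
      · exact fun h => h.2
      · intro h
        exact ⟨by rw [h]; exact he, h⟩
    · intro i hi
      simp only [Finset.coe_filter, Finset.mem_univ, true_and, Set.mem_ofPred_eq] at hi ⊢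
      exact hi
  show (univ.filter fun i => R.φ (f0 (φ.symm (P.hd w i))) = y).card =
    (univ.filter fun j => R.P.hd (R.φ x) j = y).card
  rw [hL, hR, key _ hcount, key _ (fun e => R.cnt x e)]

end SDich
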