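import Pool.Agent.Lib.MP_e7d961_lc.Stm

/-! Compatible frames give a covering of the port graph. -/

namespace SDich

open Finset

/-- [comp] -/
theorem p_comp : S_comp := by
  intro V k H U Ω _ M hM Φ hΦ
  let F : Ω × Fin U.N → Fr V k := fun w => U.F (Φ w.1) w.2
  -- the frame at the vertex of a port
  have hp : ∀ p : Port Ω k, PN.dart (F (U.pv p)) p.2.2 = pval H Φ p := by
    rintro ⟨ω, o, i⟩
    cases o
    · simp only [F, UK.pv, pval, Bool.false_eq_true, if_false, U.F_nb, U.F_u]
      simp [PN.dart, PN.theta]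
    · simp [F, UK.pv, pval, U.F_u]
  refine ⟨F, ?_, ?_⟩
  · intro x
    obtain ⟨ω⟩ := ‹Nonempty Ω›
    obtain ⟨κ, hκ⟩ := U.F_onto (Φ ω) x
    exact ⟨(ω, κ), hκ⟩
  · rintro ⟨ω, κ⟩ i
    by_cases h1 : κ = U.u
    · subst h1
      have h2 : (U.PG M hM).rev ((ω, U.u), i) = U.pd (M (ω, true, i)) := by
        simp [UK.PG, UK.grev]
      rw [h2]
      show PN.dart (F (U.pv (M (ω, true, i)))) (M (ω, true, i)).2.2 = _
      rw [hp, hΦ]
      congr 1
      rw [← hp]
      simp [UK.pv]
    · by_cases h3 : κ = U.nb i U.u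
      · subst h3
        have h2 : (U.PG M hM).rev ((ω, U.nb i U.u), i) = U.pd (M (ω, false, i)) := by
          simp [UK.PG, UK.grev, U.nb_ne]
        rw [h2]
        show PN.dart (F (U.pv (M (ω, false, i)))) (M (ω, false, i)).2.2 = _
        rw [hp, hΦ]
        congr 1
        rw [← hp]
        simp [UK.pv]
      · have h2 : (U.PG M hM).rev ((ω, κ), i) = ((ω, U.nb i κ), i) := by
          simp [UK.PG, UK.grev, h1, h3]
        rw [h2]
        simp only [F, U.F_nb]
        simp [PN.dart, PN.theta]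

end SDich
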