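import Pool.Agent.Lib.MP_e7d961_lc.Stm

/-!
# [SD conn]: connected graphs with a vertex that has only one neighbour
-/

namespace SDich

open Finset

private theorem conn_ends (H : Gr) (e : H.E) (x : H.V) (hx : x ∈ H.ends e) :
    (∃ z, H.ends e = {x, z}) ∨ H.ends e = {x} := by
  rcases H.card_ends e with h | h
  · right
    obtain ⟨a, ha⟩ := Multiset.card_eq_one.1 h
    rw [ha, Multiset.mem_singleton] at hx
    rw [ha, hx]
  · left
    obtain ⟨a, b, hab⟩ := Multiset.card_eq_two.1 h
    rw [hab] at hx
    have h1 : x = a ∨ x = b := by simpa using hx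
    rcases h1 with rfl | rfl
    · exact ⟨b, hab⟩
    · exact ⟨a, by rw [hab, Multiset.pair_comm]⟩

theorem p_conn : S_conn := by
  intro H k hk hreg hconn hcard hdip x
  by_contra hcon
  have huniq : ∀ y z, H.Nbr x y → H.Nbr x z → y = z := by
    intro y z hy hz
    by_contra hne
    exact hcon ⟨y, z, hne, hy, hz⟩
  -- there is a neighbour
  obtain ⟨y, hy⟩ : ∃ y, H.Nbr x y := by
    have h1 : 0 < ∑ e, (H.ends e).count x := by
      have := hreg x
      rw [Gr.deg] at this
      omega
    obtain ⟨e, _, he⟩ := Finset.exists_ne_zero_of_sum_ne_zero h1.ne'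
    have hx : x ∈ H.ends e := Multiset.count_pos.1 (Nat.pos_of_ne_zero he)
    rcases conn_ends H e x hx with ⟨z, hz⟩ | hz
    · exact ⟨z, e, Or.inl hz⟩
    · exact ⟨x, e, Or.inr ⟨rfl, hz⟩⟩
  by_cases hyx : y = x
  · -- the component of `x` is `{x}`
    subst hyx
    have h2 : ∀ z, z = y := by
      intro z
      have h3 := hconn.2 y z
      induction h3 with
      | refl => rfl
      | tail _ hbc ih =>
        rw [ih] at hbc
        exact huniq _ _ hbc hy
    have h4 : Fintype.card H.V ≤ 1 := Fintype.card_le_one_iff.2 fun a b => by rw [h2 a, h2 b]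
    omega
  · have hedge : ∀ e, x ∈ H.ends e → H.ends e = {x, y} := by
      intro e he
      rcases conn_ends H e x he with ⟨z, hz⟩ | hz
      · rw [hz, huniq z y ⟨e, Or.inl hz⟩ hy]
      · exact absurd (huniq y x hy ⟨e, Or.inr ⟨rfl, hz⟩⟩) hyx
    have hle : ∀ e ∈ (Finset.univ : Finset H.E), (H.ends e).count x ≤ (H.ends e).count y := by
      intro e _
      by_cases he : x ∈ H.ends e
      · rw [hedge e he]
        have hxy : ¬ x = y := fun h => hyx h.symm
        simp [hyx, hxy]
      · rw [Multiset.count_eq_zero_of_notMem he]
        exact Nat.zero_le _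
    have hsum : ∑ e, (H.ends e).count x = ∑ e, (H.ends e).count y := by
      have h5 := hreg x
      have h6 := hreg y
      rw [Gr.deg] at h5 h6
      rw [h5, h6]
    have heq := (Finset.sum_eq_sum_iff_of_le hle).1 hsum
    have hmem : ∀ e, y ∈ H.ends e → x ∈ H.ends e := by
      intro e he
      have h7 := heq e (Finset.mem_univ e)
      have h8 := Multiset.count_pos.2 he
      exact Multiset.count_pos.1 (by omega)
    have hV : ∀ z, z = x ∨ z = y := by
      intro z
      have h3 := hconn.2 x z
      induction h3 with
      | refl => exact Or.inl rfl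
      | tail _ hbc ih =>
        rcases ih with h | h
        · rw [h] at hbc
          exact Or.inr (huniq _ _ hbc hy)
        · rw [h] at hbc
          obtain ⟨e, he | ⟨_, he⟩⟩ := hbc
          · have h9 : y ∈ H.ends e := by rw [he]; simp
            have h10 := hedge e (hmem e h9)
            rw [he, Multiset.pair_comm x y] at h10
            have h11 := (Multiset.cons_inj_right y).1 h10
            exact Or.inl (Multiset.singleton_inj.1 h11)
          · have h9 : y ∈ H.ends e := by rw [he]; simp
            have h10 := hedge e (hmem e h9)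
            rw [he] at h10
            have h11 := congrArg Multiset.card h10
            simp at h11
    apply hdip
    refine ⟨?_, ?_⟩
    · have h12 : Finset.univ = ({x, y} : Finset H.V) := by
        ext z
        simpa using hV z
      rw [← Finset.card_univ, h12, Finset.card_pair (fun h => hyx h.symm)]
    · intro e
      have h13 : x ∈ H.ends e := by
        have h14 : 0 < (H.ends e).card := by rcases H.card_ends e with h | h <;> omega
        obtain ⟨z, hz⟩ := Multiset.card_pos_iff_exists_mem.1 h14
        rcases hV z with rfl | rfl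
        · exact hz
        · exact hmem e hz
      rw [hedge e h13]
      have hxy : ¬ x = y := fun h => hyx h.symm
      simp [hxy]

end SDich
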