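import Pool.Agent.Lib.MP_e7d961_lc.Stm

/-!
# [SD cov] a covering of port graphs gives a covering projection of graphs (helper98)
-/

set_option autoImplicit false

namespace SDich

open Finset

private theorem cov_pair {α : Type} {a b c d : α} (h : ({a, b} : Multiset α) = {c, d}) :
    (a = c ∧ b = d) ∨ (a = d ∧ b = c) := by
  by_cases hac : a = c
  · subst hac
    left
    refine ⟨rfl, ?_⟩
    have h1 : a ::ₘ ({b} : Multiset α) = a ::ₘ {d} := h
    rw [Multiset.cons_inj_right] at h1
    exact Multiset.singleton_inj.mp h1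
  · right
    have h1 : a ∈ ({c, d} : Multiset α) := by rw [← h]; simp
    have h2 : c ∈ ({a, b} : Multiset α) := by rw [h]; simp
    simp only [Multiset.insert_eq_cons, Multiset.mem_cons, Multiset.mem_singleton] at h1 h2
    rcases h1 with h1 | h1
    · exact absurd h1 hac
    · rcases h2 with h2 | h2
      · exact absurd h2.symm hac
      · exact ⟨h1, h2.symm⟩

theorem p_cov : S_cov := by
  classical
  intro H k n R G W P φ hP hR hC
  obtain ⟨F, hFon, hFc⟩ := hC
  obtain ⟨hG, hRe⟩ := hR
  have hE : ∀ (v : G.V) (i : Fin k), ∃ e, G.ends e = {v, φ.symm (P.hd (φ v) i)} :=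
    fun v i => (hRe v _).mpr ⟨i, by simp⟩
  choose eg heg using hE
  have hX : ∀ e : G.E, ∃ p : G.V × Fin k, e = eg p.1 p.2 := by
    intro e
    obtain ⟨a, b, hab⟩ := Multiset.card_eq_two.mp (hG.1 e).1
    obtain ⟨i, hi⟩ := (hRe a b).mp ⟨e, hab⟩
    refine ⟨(a, i), hG.2 ?_⟩
    simp only
    rw [hab, heg, hi, Equiv.symm_apply_apply]
  choose q hq using hX
  -- the edge map
  let g : G.E → H.E := fun e => R.ed (PN.dart (F (φ (q e).1)) (q e).2)
  let f : G.V → H.V := fun v => R.φ.symm (F (φ v)).1
  have key : ∀ v i, g (eg v i) = R.ed (PN.dart (F (φ v)) i) := by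
    intro v i
    have h1 := hq (eg v i)
    change R.ed (PN.dart (F (φ (q (eg v i)).1)) (q (eg v i)).2) = _
    generalize q (eg v i) = p at h1 ⊢
    obtain ⟨v', i'⟩ := p
    simp only at h1 ⊢
    have h2 : ({v, φ.symm (P.hd (φ v) i)} : Multiset G.V) = {v', φ.symm (P.hd (φ v') i')} := by
      rw [← heg v i, ← heg v' i', h1]
    rcases cov_pair h2 with ⟨h3, h4⟩ | ⟨h3, h4⟩
    · subst h3
      have h5 := hP.2 _ _ _ (φ.symm.injective h4)
      rw [h5]
    · have h5 : P.hd (φ v') i' = φ v := by rw [h3, Equiv.apply_symm_apply]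
      have h6 : P.hd (φ v) i = φ v' := by rw [← h4, Equiv.apply_symm_apply]
      have h7 : P.rev (φ v, i) = (φ v', (P.rev (φ v, i)).2) := by
        rw [← h6]
        rfl
      have h8 : P.hd (φ v') (P.rev (φ v, i)).2 = φ v := by
        unfold PN.hd
        rw [← h7, P.inv]
      have h9 : (P.rev (φ v, i)).2 = i' := hP.2 _ _ _ (h8.trans h5.symm)
      have h10 := hFc (φ v) i
      have h11 : (P.rev (φ v, i)).1 = φ v' := h6
      rw [h11, h9] at h10
      rw [h10, R.ed_rev]
  refine ⟨f, g, ?_, ?_, ?_, ?_⟩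
  · -- onto, vertices
    intro x
    obtain ⟨w, hw⟩ := hFon (R.φ x)
    refine ⟨φ.symm w, ?_⟩
    simp only [f, Equiv.apply_symm_apply, hw, Equiv.symm_apply_apply]
  · -- onto, edges
    intro e
    have hne : ∃ x, x ∈ H.ends e := by
      have h1 : H.ends e ≠ 0 := by
        intro h0
        rcases H.card_ends e with h | h <;> rw [h0] at h <;> simp at h
      exact Multiset.exists_mem_of_ne_zero h1
    obtain ⟨x, hx⟩ := hne
    have h1 : 0 < (univ.filter fun i => R.ed (R.φ x, i) = e).card := by
      rw [R.cnt x e]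
      exact Multiset.count_pos.mpr hx
    obtain ⟨i, hi⟩ := Finset.card_pos.mp h1
    rw [Finset.mem_filter] at hi
    obtain ⟨w, hw⟩ := hFon (R.φ x)
    refine ⟨eg (φ.symm w) ((F w).2.symm i), ?_⟩
    rw [key, Equiv.apply_symm_apply]
    unfold PN.dart
    rw [Equiv.apply_symm_apply, hw]
    exact hi.2
  · -- ends
    intro e
    obtain ⟨⟨v, i⟩, hvi⟩ : ∃ p : G.V × Fin k, e = eg p.1 p.2 := ⟨q e, hq e⟩
    simp only at hvi
    subst hvi
    have hmap : (G.ends (eg v i)).map f =
        {R.φ.symm (PN.dart (F (φ v)) i).1, R.φ.symm (R.P.rev (PN.dart (F (φ v)) i)).1} := by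
      rw [heg, ← hFc (φ v) i]
      simp only [Multiset.insert_eq_cons, Multiset.map_cons, Multiset.map_singleton]
      simp only [f, PN.dart, PN.hd, Equiv.apply_symm_apply]
    rw [key, hmap, R.ends_ed]
    by_cases hrev : R.P.rev (PN.dart (F (φ v)) i) = PN.dart (F (φ v)) i
    · right
      rw [if_pos hrev, hrev]
      exact ⟨by simp, rfl⟩
    · left
      rw [if_neg hrev]
  · -- local condition
    intro v e
    have hcnt : (H.ends e).count (f v) = (univ.filter fun i => R.ed (PN.dart (F (φ v)) i) = e).card := by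
      rw [← R.cnt (f v) e]
      symm
      refine Finset.card_bij (fun i _ => (F (φ v)).2 i) ?_ ?_ ?_
      · intro i hi
        rw [Finset.mem_filter] at hi ⊢
        refine ⟨Finset.mem_univ _, ?_⟩
        simpa only [f, Equiv.apply_symm_apply, PN.dart] using hi.2
      · intro i _ j _ hij
        exact (F (φ v)).2.injective hij
      · intro j hj
        rw [Finset.mem_filter] at hj
        refine ⟨(F (φ v)).2.symm j, ?_, by simp⟩
        rw [Finset.mem_filter]
        refine ⟨Finset.mem_univ _, ?_⟩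
        simpa only [f, Equiv.apply_symm_apply, PN.dart] using hj.2
    rw [hcnt]
    have hcv : ∀ e', (G.ends e').count v = if v ∈ G.ends e' then 1 else 0 := by
      intro e'
      split_ifs with h
      · exact Multiset.count_eq_one_of_mem (hG.1 e').2 h
      · exact Multiset.count_eq_zero.mpr h
    simp only [hcv]
    rw [← Finset.sum_filter, Finset.sum_const, smul_eq_mul, mul_one]
    rw [Finset.filter_filter]
    symm
    refine Finset.card_bij (fun i _ => eg v i) ?_ ?_ ?_
    · intro i hi
      rw [Finset.mem_filter] at hi ⊢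
      refine ⟨Finset.mem_univ _, ?_, ?_⟩
      · rw [key]
        exact hi.2
      · rw [heg]
        simp
    · intro i _ j _ hij
      have h1 : ({v, φ.symm (P.hd (φ v) i)} : Multiset G.V) = {v, φ.symm (P.hd (φ v) j)} := by
        rw [← heg v i, ← heg v j, hij]
      rcases cov_pair h1 with ⟨_, h2⟩ | ⟨h2, h3⟩
      · exact hP.2 _ _ _ (φ.symm.injective h2)
      · exact hP.2 _ _ _ (φ.symm.injective (h3.trans h2))
    · intro e' he'
      rw [Finset.mem_filter] at he'
      obtain ⟨_, h1, h2⟩ := he'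
      obtain ⟨b, hb⟩ : ∃ b, G.ends e' = {v, b} := by
        obtain ⟨a, b, hab⟩ := Multiset.card_eq_two.mp (hG.1 e').1
        rw [hab] at h2
        simp only [Multiset.insert_eq_cons, Multiset.mem_cons, Multiset.mem_singleton] at h2
        rcases h2 with rfl | rfl
        · exact ⟨b, hab⟩
        · exact ⟨a, by rw [hab]; exact Multiset.pair_comm _ _⟩
      obtain ⟨i, hi⟩ := (hRe v b).mp ⟨e', hb⟩
      have h3 : eg v i = e' := hG.2 (by rw [heg, hb, hi, Equiv.symm_apply_apply])
      refine ⟨i, ?_, h3⟩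
      rw [Finset.mem_filter]
      refine ⟨Finset.mem_univ _, ?_⟩
      rw [← key, h3]
      exact h1

end SDich
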