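import Pool.Agent.Lib.MP_e7d961_lc.Stm

/-!
Correctness of `covB` (`MP_e7d961_lc`, piece covb).
-/

namespace SDich

open Finset HerCo CookLevin

private theorem sumB_eq (N : ℕ) (p : ℕ → Bool) (f : ℕ → ℕ) :
    sumB N p f = ∑ a : Fin N, if p a = true then f a else 0 := by
  unfold sumB
  induction N with
  | zero => simp
  | succ N ih =>
    rw [List.range_succ, List.flatMap_append, List.length_append, ih, Fin.sum_univ_castSucc]
    congr 1
    simp only [List.flatMap_cons, List.flatMap_nil, List.append_nil, Fin.val_last]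
    split_ifs <;> simp

private theorem count_ends (s : List Bool) (j : ℕ) (a : Fin (numV s)) :
    (endsOf s j).count a = entry s j a := by
  unfold endsOf
  rw [Multiset.count_sum']
  simp only [Multiset.count_replicate]
  simp

private theorem count_map_ends {V : Type} [DecidableEq V] (s : List Bool) (j : ℕ)
    (f : Fin (numV s) → V) (y : V) :
    ((endsOf s j).map f).count y = ∑ a : Fin (numV s), if f a = y then entry s j a else 0 := by
  have h : (endsOf s j).map f = ∑ a : Fin (numV s), Multiset.replicate (entry s j a) (f a) := by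
    show Multiset.mapAddMonoidHom f (∑ a : Fin (numV s), Multiset.replicate (entry s j a) a) = _
    rw [map_sum]
    refine Finset.sum_congr rfl fun a _ => ?_
    exact Multiset.map_replicate f (entry s j a) a
  rw [h, Multiset.count_sum']
  simp only [Multiset.count_replicate]

private theorem tH_tabH (H : Gr) {nH eH : ℕ} (φ : H.V ≃ Fin nH) (ψ : H.E ≃ Fin eH)
    (e : Fin eH) (x : Fin nH) :
    tH (tabH H φ ψ) e x = (H.ends (ψ.symm e)).count (φ.symm x) := by
  unfold tH tabH
  simp [List.getD_eq_getElem?_getD]

private theorem core (H : Gr) (nH eH : ℕ) (φ : H.V ≃ Fin nH) (ψ : H.E ≃ Fin eH) (s : List Bool)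
    (h : IsCode s) (f : Fin (numV s) → H.V) (g : Fin (numE s) → H.E) (w : List Bool)
    (hf : ∀ (a : Fin (numV s)) (x : Fin nH), fB nH w a x = true ↔ φ (f a) = x)
    (hg : ∀ (j : Fin (numE s)) (e : Fin eH), gB nH eH s w j e = true ↔ ψ (g j) = e) :
    covB nH eH (tabH H φ ψ) s w = true ↔ Gr.IsCover (graphOf s h) H f g := by
  have e1 : ∀ a : Fin (numV s), sumB nH (fun x => fB nH w a x) (fun _ => 1) = 1 := by
    intro a
    rw [sumB_eq]
    simp only [hf]
    simp
  have e2 : ∀ j : Fin (numE s), sumB eH (fun e => gB nH eH s w j e) (fun _ => 1) = 1 := by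
    intro j
    rw [sumB_eq]
    simp only [hg]
    simp
  have e3 : ∀ (j : Fin (numE s)) (x : Fin nH),
      sumB (numV s) (fun a => fB nH w a x) (entry s j) =
        (((graphOf s h).ends j).map f).count (φ.symm x) := by
    intro j x
    rw [sumB_eq]
    simp only [hf]
    show _ = ((endsOf s j).map f).count (φ.symm x)
    rw [count_map_ends]
    refine Finset.sum_congr rfl fun a _ => ?_
    simp only [Equiv.eq_symm_apply]
  have e4 : ∀ (a : Fin (numV s)) (e : Fin eH),
      sumB (numE s) (fun j => gB nH eH s w j e) (fun j => entry s j a) =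
        ∑ e' ∈ univ.filter (fun e' => g e' = ψ.symm e), ((graphOf s h).ends e').count a := by
    intro a e
    rw [sumB_eq, Finset.sum_filter]
    simp only [hg]
    refine Finset.sum_congr rfl fun j _ => ?_
    simp only [Equiv.eq_symm_apply]
    show _ = if _ then (endsOf s j).count a else 0
    rw [count_ends]
  have e5 : ∀ (e : Fin eH), sumB nH (fun _ => true) (tH (tabH H φ ψ) e) =
      (H.ends (ψ.symm e)).card := by
    intro e
    rw [sumB_eq]
    simp only [if_true, tH_tabH]
    rw [← Multiset.sum_count_eq_card (s := Finset.univ) (m := H.ends (ψ.symm e)) (by simp)]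
    exact (Equiv.sum_comp φ.symm (fun y => (H.ends (ψ.symm e)).count y))
  have e6 : ∀ (m m' : Multiset H.V), (∀ x : Fin nH, m.count (φ.symm x) = m'.count (φ.symm x)) ↔
      m = m' := by
    intro m m'
    constructor
    · intro hh
      ext y
      have := hh (φ y)
      simpa using this
    · intro hh x
      rw [hh]
  -- the Boolean as a statement about `Fin`
  have key : covB nH eH (tabH H φ ψ) s w = true ↔
      (∀ x : Fin nH, ∃ a : Fin (numV s), φ (f a) = x) ∧
      (∀ e : Fin eH, ∃ j : Fin (numE s), ψ (g j) = e) ∧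
      (∀ (j : Fin (numE s)) (e : Fin eH), ψ (g j) = e →
        ((∀ x : Fin nH, (((graphOf s h).ends j).map f).count (φ.symm x) =
          (H.ends (ψ.symm e)).count (φ.symm x)) ∨
        ((H.ends (ψ.symm e)).card = 1 ∧
          ∀ x : Fin nH, (((graphOf s h).ends j).map f).count (φ.symm x) =
            2 * (H.ends (ψ.symm e)).count (φ.symm x)))) ∧
      (∀ (a : Fin (numV s)) (e : Fin eH) (x : Fin nH), φ (f a) = x →
        ∑ e' ∈ univ.filter (fun e' => g e' = ψ.symm e), ((graphOf s h).ends e').count a =
          (H.ends (ψ.symm e)).count (φ.symm x)) := by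
    unfold covB
    simp only [Bool.and_eq_true, Bool.or_eq_true, Bool.not_eq_true', List.all_eq_true,
      List.any_eq_true, List.mem_range, decide_eq_true_eq]
    constructor
    · rintro ⟨⟨⟨⟨⟨_, _⟩, h3⟩, h4⟩, h5⟩, h6⟩
      refine ⟨fun x => ?_, fun e => ?_, fun j e hje => ?_, fun a e x hax => ?_⟩
      · obtain ⟨a, ha, hx⟩ := h3 x x.2
        exact ⟨⟨a, ha⟩, (hf ⟨a, ha⟩ x).1 hx⟩
      · obtain ⟨j, hj, he⟩ := h4 e e.2
        exact ⟨⟨j, hj⟩, (hg ⟨j, hj⟩ e).1 he⟩
      · rcases h5 j j.2 e e.2 with hh | hh
        · rw [(hg j e).2 hje] at hh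
          exact absurd hh (by simp)
        · rcases hh with hh | ⟨hh1, hh2⟩
          · left
            intro x
            rw [← e3, ← tH_tabH]
            exact hh x x.2
          · right
            refine ⟨by rw [← e5]; exact hh1, fun x => ?_⟩
            rw [← e3, ← tH_tabH]
            exact hh2 x x.2
      · rcases h6 a a.2 e e.2 x x.2 with hh | hh
        · rw [(hf a x).2 hax] at hh
          exact absurd hh (by simp)
        · rw [← e4, ← tH_tabH]
          exact hh
    · rintro ⟨h3, h4, h5, h6⟩
      refine ⟨⟨⟨⟨⟨fun a ha => e1 ⟨a, ha⟩, fun j hj => e2 ⟨j, hj⟩⟩, fun x hx => ?_⟩, fun e he => ?_⟩,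
        fun j hj e he => ?_⟩, fun a ha e he x hx => ?_⟩
      · obtain ⟨a, hax⟩ := h3 ⟨x, hx⟩
        exact ⟨a, a.2, (hf a ⟨x, hx⟩).2 hax⟩
      · obtain ⟨j, hje⟩ := h4 ⟨e, he⟩
        exact ⟨j, j.2, (hg j ⟨e, he⟩).2 hje⟩
      · by_cases hje : ψ (g ⟨j, hj⟩) = ⟨e, he⟩
        · right
          rcases h5 ⟨j, hj⟩ ⟨e, he⟩ hje with hh | ⟨hh1, hh2⟩
          · left
            intro x hx
            have := hh ⟨x, hx⟩
            rw [← e3, ← tH_tabH] at this
            exact this
          · right
            refine ⟨by rw [← e5] at hh1; exact hh1, fun x hx => ?_⟩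
            have := hh2 ⟨x, hx⟩
            rw [← e3, ← tH_tabH] at this
            exact this
        · left
          have := (hg ⟨j, hj⟩ ⟨e, he⟩).not.2 hje
          simpa using this
      · by_cases hax : φ (f ⟨a, ha⟩) = ⟨x, hx⟩
        · right
          have := h6 ⟨a, ha⟩ ⟨e, he⟩ ⟨x, hx⟩ hax
          rw [← e4, ← tH_tabH] at this
          exact this
        · left
          have := (hf ⟨a, ha⟩ ⟨x, hx⟩).not.2 hax
          simpa using this
  rw [key]
  constructor
  · rintro ⟨h3, h4, h5, h6⟩
    refine ⟨fun y => ?_, fun y => ?_, fun j => ?_, fun v e => ?_⟩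
    · obtain ⟨a, ha⟩ := h3 (φ y)
      exact ⟨a, φ.injective ha⟩
    · obtain ⟨a, ha⟩ := h4 (ψ y)
      exact ⟨a, ψ.injective ha⟩
    · have h7 := h5 j (ψ (g j)) rfl
      rw [Equiv.symm_apply_apply] at h7
      rcases h7 with hh | ⟨hh1, hh2⟩
      · left
        exact (e6 _ _).1 hh
      · right
        refine ⟨hh1, (e6 _ _).1 fun x => (hh2 x).trans ?_⟩
        rw [Multiset.count_add]
        ring
    · have h7 := h6 v (ψ e) (φ (f v)) rfl
      rw [Equiv.symm_apply_apply, Equiv.symm_apply_apply] at h7
      exact h7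
  · intro hc
    refine ⟨fun x => ?_, fun e => ?_, fun j e hje => ?_, fun a e x hax => ?_⟩
    · obtain ⟨a, ha⟩ := hc.surjV (φ.symm x)
      exact ⟨a, by rw [ha, Equiv.apply_symm_apply]⟩
    · obtain ⟨a, ha⟩ := hc.surjE (ψ.symm e)
      exact ⟨a, by rw [ha, Equiv.apply_symm_apply]⟩
    · subst hje
      rw [Equiv.symm_apply_apply]
      rcases hc.ends j with hh | ⟨hh1, hh2⟩
      · left
        exact (e6 _ _).2 hh
      · right
        refine ⟨hh1, fun x => (congrArg (Multiset.count (φ.symm x)) hh2).trans ?_⟩
        rw [Multiset.count_add]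
        ring
    · subst hax
      rw [Equiv.symm_apply_apply]
      exact hc.loc a (ψ.symm e)

theorem p_covb : S_covb := by
  intro H nH eH φ ψ s h
  classical
  constructor
  · rintro ⟨f, g, hc⟩
    let f' : Fin (numV s) → H.V := f
    let g' : Fin (numE s) → H.E := g
    let L := numV s * nH + numE s * eH
    let bt : ℕ → Bool := fun t =>
      if t < numV s * nH then
        decide (∃ hh : t / nH < numV s, ((φ (f' ⟨t / nH, hh⟩)) : ℕ) = t % nH)
      else decide (∃ hh : (t - numV s * nH) / eH < numE s,
        ((ψ (g' ⟨(t - numV s * nH) / eH, hh⟩)) : ℕ) = (t - numV s * nH) % eH)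
    refine ⟨(List.range L).map bt, ?_, ?_⟩
    · rw [List.length_map, List.length_range]
      have h1 := h.2.1
      have h0 := h.1
      have h2 : numV s ≤ s.length := by rw [h1]; omega
      have h3 : numE s ≤ s.length := by
        have : numE s * 1 ≤ numE s * (2 * numV s) := Nat.mul_le_mul_left _ (by omega)
        rw [h1]; omega
      calc L ≤ s.length * nH + s.length * eH :=
            Nat.add_le_add (Nat.mul_le_mul_right _ h2) (Nat.mul_le_mul_right _ h3)
        _ = s.length * (nH + eH) := by ring
    · have hget : ∀ t < L, ((List.range L).map bt).getD t false = bt t := by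
        intro t ht
        rw [List.getD_eq_getElem?_getD]
        simp [ht]
      rw [core H nH eH φ ψ s h f' g']
      · exact hc
      · intro a x
        have hx := x.2
        have hnH : 0 < nH := by omega
        have hlt : (a : ℕ) * nH + x < numV s * nH := by
          calc (a : ℕ) * nH + x < a * nH + nH := by omega
            _ = (a + 1) * nH := by ring
            _ ≤ numV s * nH := Nat.mul_le_mul_right _ (by omega)
        unfold fB
        rw [hget _ (by omega)]
        simp only [bt, if_pos hlt, decide_eq_true_eq]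
        have hd : ((a : ℕ) * nH + x) / nH = a := by
          rw [mul_comm, Nat.mul_add_div hnH, Nat.div_eq_of_lt hx, add_zero]
        have hm : ((a : ℕ) * nH + x) % nH = x := by
          rw [mul_comm, Nat.mul_add_mod, Nat.mod_eq_of_lt hx]
        constructor
        · rintro ⟨hh, h2⟩
          have h3 : (⟨((a : ℕ) * nH + x) / nH, hh⟩ : Fin (numV s)) = a := Fin.ext hd
          rw [h3, hm] at h2
          exact Fin.ext h2
        · intro h2
          refine ⟨by rw [hd]; exact a.2, ?_⟩
          have h3 : ∀ hh, (⟨((a : ℕ) * nH + x) / nH, hh⟩ : Fin (numV s)) = a := fun _ => Fin.ext hd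
          rw [h3, hm, h2]
      · intro j e
        have hx := e.2
        have heH : 0 < eH := by omega
        have hlt : (j : ℕ) * eH + e < numE s * eH := by
          calc (j : ℕ) * eH + e < j * eH + eH := by omega
            _ = (j + 1) * eH := by ring
            _ ≤ numE s * eH := Nat.mul_le_mul_right _ (by omega)
        unfold gB
        rw [hget _ (by omega)]
        have hnlt : ¬ (numV s * nH + ((j : ℕ) * eH + e) < numV s * nH) := by omega
        have hsub : numV s * nH + ((j : ℕ) * eH + e) - numV s * nH = (j : ℕ) * eH + e := by omega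
        simp only [bt, if_neg hnlt, decide_eq_true_eq, hsub]
        have hd : ((j : ℕ) * eH + e) / eH = j := by
          rw [mul_comm, Nat.mul_add_div heH, Nat.div_eq_of_lt hx, add_zero]
        have hm : ((j : ℕ) * eH + e) % eH = e := by
          rw [mul_comm, Nat.mul_add_mod, Nat.mod_eq_of_lt hx]
        constructor
        · rintro ⟨hh, h2⟩
          have h3 : (⟨((j : ℕ) * eH + e) / eH, hh⟩ : Fin (numE s)) = j := Fin.ext hd
          rw [h3, hm] at h2
          exact Fin.ext h2
        · intro h2
          refine ⟨by rw [hd]; exact j.2, ?_⟩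
          have h3 : ∀ hh, (⟨((j : ℕ) * eH + e) / eH, hh⟩ : Fin (numE s)) = j := fun _ => Fin.ext hd
          rw [h3, hm, h2]
  · rintro ⟨w, _, hw⟩
    have hw' := hw
    unfold covB at hw'
    simp only [Bool.and_eq_true, List.all_eq_true, List.mem_range, decide_eq_true_eq] at hw'
    have h1 := hw'.1.1.1.1.1
    have h2 := hw'.1.1.1.1.2
    have hone : ∀ (N : ℕ) (p : ℕ → Bool), sumB N p (fun _ => 1) = 1 →
        ∃ x : Fin N, ∀ y : Fin N, p y = true ↔ x = y := by
      intro N p hp
      rw [sumB_eq, ← Finset.sum_filter, Finset.sum_const, smul_eq_mul, mul_one,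
        Finset.card_eq_one] at hp
      obtain ⟨x, hx⟩ := hp
      refine ⟨x, fun y => ?_⟩
      have : y ∈ Finset.univ.filter (fun a : Fin N => p a = true) ↔ y ∈ ({x} : Finset (Fin N)) := by
        rw [hx]
      rw [Finset.mem_filter, Finset.mem_singleton] at this
      constructor
      · intro hy
        exact (this.1 ⟨Finset.mem_univ _, hy⟩).symm
      · intro hy
        exact (this.2 hy.symm).2
    choose f hf using fun a : Fin (numV s) => hone nH _ (h1 a a.2)
    choose g hg using fun j : Fin (numE s) => hone eH _ (h2 j j.2)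
    refine ⟨fun a => φ.symm (f a), fun j => ψ.symm (g j), ?_⟩
    refine (core H nH eH φ ψ s h (fun a => φ.symm (f a)) (fun j => ψ.symm (g j)) w ?_ ?_).1 hw
    · intro a x
      rw [Equiv.apply_symm_apply]
      exact hf a x
    · intro j e
      rw [Equiv.apply_symm_apply]
      exact hg j e

end SDich
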