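import Pool.Agent.Lib.MP_e7d961_lc.Stm

/-!
Correctness of the bipartiteness test.
-/

namespace SDich

open Finset

/-! ### lists of pairs -/

private theorem dalg_get (f g : ℕ → Bool) (n : ℕ) :
    ((List.range n).flatMap fun b => [f b, g b]).length = 2 * n ∧ ∀ (b : ℕ) (p : Bool),
      ((List.range n).flatMap fun b => [f b, g b]).getD (2 * b + p.toNat) false =
        (decide (b < n) && (if p then g b else f b)) := by
  induction n with
  | zero => simp
  | succ n ih =>
    obtain ⟨ih1, ih2⟩ := ih
    rw [List.range_succ, List.flatMap_append, List.flatMap_singleton]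
    refine ⟨by rw [List.length_append, ih1]; simp; ring, fun b p => ?_⟩
    have hp : p.toNat ≤ 1 := by cases p <;> simp
    rcases lt_trichotomy b n with h | h | h
    · rw [List.getD_append _ _ _ _ (by rw [ih1]; omega), ih2]
      have h' : b < n + 1 := by omega
      simp [h, h']
    · subst h
      rw [List.getD_append_right _ _ _ _ (by rw [ih1]; omega), ih1]
      have h' : 2 * b + p.toNat - 2 * b = p.toNat := by omega
      rw [h']
      cases p <;> simp
    · rw [List.getD_append_right _ _ _ _ (by rw [ih1]; omega), ih1]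
      have h' : ¬ b < n + 1 := by omega
      rw [List.getD_eq_default]
      · simp [h']
      · simp only [List.length_cons, List.length_nil]
        omega

private theorem dalg_init (s : List Bool) (a b : ℕ) (p : Bool) :
    (initB s a).getD (2 * b + p.toNat) false = true ↔ b < numV s ∧ b = a ∧ p = false := by
  rw [initB, (dalg_get (fun b => decide (b = a)) (fun _ => false) (numV s)).2 b p]
  cases p <;> simp

private theorem dalg_step (s st : List Bool) (b : ℕ) (p : Bool) :
    (stepB s st).getD (2 * b + p.toNat) false = true ↔ b < numV s ∧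
      (st.getD (2 * b + p.toNat) false = true ∨ ∃ j < numE s, entry s j b = 1 ∧
        ∃ c < numV s, c ≠ b ∧ entry s j c = 1 ∧ st.getD (2 * c + (!p).toNat) false = true) := by
  rw [stepB, (dalg_get _ _ (numV s)).2 b p]
  cases p
  · simp [List.any_eq_true, and_assoc]
  · simp [List.any_eq_true, and_assoc]

/-- `b` is reached from `a` with parity `p` in the step `t`. -/
private def DR (s : List Bool) (a t b : ℕ) (p : Bool) : Prop :=
  ((stepB s)^[t] (initB s a)).getD (2 * b + p.toNat) false = true

private theorem dr_zero (s : List Bool) (a b : ℕ) (p : Bool) :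
    DR s a 0 b p ↔ b < numV s ∧ b = a ∧ p = false := dalg_init s a b p

private theorem dr_succ (s : List Bool) (a t b : ℕ) (p : Bool) :
    DR s a (t + 1) b p ↔ b < numV s ∧ (DR s a t b p ∨ ∃ j < numE s, entry s j b = 1 ∧
        ∃ c < numV s, c ≠ b ∧ entry s j c = 1 ∧ DR s a t c (!p)) := by
  unfold DR
  rw [Function.iterate_succ_apply', dalg_step]

private theorem dr_lt (s : List Bool) (a t b : ℕ) (p : Bool) (h : DR s a t b p) :
    b < numV s := by
  cases t with
  | zero => exact ((dr_zero s a b p).mp h).1
  | succ t => exact ((dr_succ s a t b p).mp h).1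

private theorem dr_mono (s : List Bool) (a t b : ℕ) (p : Bool) (h : DR s a t b p) :
    DR s a (t + 1) b p :=
  (dr_succ s a t b p).mpr ⟨dr_lt s a t b p h, Or.inl h⟩

/-! ### stabilisation -/

private theorem dalg_stab {α : Type} [Fintype α] [DecidableEq α] (S : ℕ → Finset α)
    (h1 : ∀ t, S t ⊆ S (t + 1)) (h2 : ∀ t, S t = S (t + 1) → S (t + 1) = S (t + 2)) (t : ℕ) :
    S t ⊆ S (Fintype.card α) := by
  have h3 : ∀ t, (∃ u ≤ t, S u = S (u + 1)) ∨ t ≤ (S t).card := by
    intro t
    induction t with
    | zero => exact Or.inr (Nat.zero_le _)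
    | succ t ih =>
      rcases ih with ⟨u, hu, h⟩ | h
      · exact Or.inl ⟨u, by omega, h⟩
      · by_cases he : S t = S (t + 1)
        · exact Or.inl ⟨t, by omega, he⟩
        · have := Finset.card_lt_card ((h1 t).ssubset_of_ne he)
          exact Or.inr (by omega)
  have h4 : ∃ u ≤ Fintype.card α, S u = S (u + 1) := by
    rcases h3 (Fintype.card α) with h | h
    · exact h
    · refine ⟨Fintype.card α, le_rfl, ?_⟩
      have h5 : (S (Fintype.card α)) = univ := by
        apply Finset.eq_univ_of_card
        exact le_antisymm (Finset.card_le_univ _) h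
      apply subset_antisymm (h1 _)
      rw [h5]
      exact Finset.subset_univ _
  obtain ⟨u, hu, he⟩ := h4
  have h5 : ∀ d, S (u + d) = S u ∧ S (u + d) = S (u + d + 1) := by
    intro d
    induction d with
    | zero => exact ⟨rfl, he⟩
    | succ d ih => exact ⟨ih.2.symm.trans ih.1, h2 _ ih.2⟩
  have hm : Monotone S := monotone_nat_of_le_succ h1
  rcases le_total t (Fintype.card α) with h | h
  · exact hm h
  · obtain ⟨d, rfl⟩ := Nat.exists_eq_add_of_le (hu.trans h)
    rw [(h5 d).1]
    exact hm hu

open Classical in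
private theorem dr_stab (s : List Bool) (a t b : ℕ) (p : Bool) (h : DR s a t b p) :
    DR s a (2 * numV s) b p := by
  have hb := dr_lt s a t b p h
  let S : ℕ → Finset (Fin (numV s) × Bool) := fun t =>
    univ.filter fun x => DR s a t x.1 x.2
  have hS : ∀ t (x : Fin (numV s) × Bool), x ∈ S t ↔ DR s a t x.1 x.2 := by
    intro t x
    simp [S]
  have h1 : ∀ t, S t ⊆ S (t + 1) := by
    intro t x hx
    rw [hS] at hx ⊢
    exact dr_mono s a t _ _ hx
  have h2 : ∀ t, S t = S (t + 1) → S (t + 1) = S (t + 2) := by
    intro t he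
    ext x
    rw [hS, hS, dr_succ, dr_succ s a (t + 1)]
    have h3 : ∀ y : Fin (numV s) × Bool, DR s a t y.1 y.2 ↔ DR s a (t + 1) y.1 y.2 := by
      intro y
      rw [← hS, ← hS, he]
    constructor
    · rintro ⟨hx, h | ⟨j, hj, h4, c, hc, h5, h6, h7⟩⟩
      · exact ⟨hx, Or.inl ((h3 x).mp h)⟩
      · exact ⟨hx, Or.inr ⟨j, hj, h4, c, hc, h5, h6, (h3 (⟨c, hc⟩, !x.2)).mp h7⟩⟩
    · rintro ⟨hx, h | ⟨j, hj, h4, c, hc, h5, h6, h7⟩⟩
      · exact ⟨hx, Or.inl ((h3 x).mpr h)⟩
      · exact ⟨hx, Or.inr ⟨j, hj, h4, c, hc, h5, h6, (h3 (⟨c, hc⟩, !x.2)).mpr h7⟩⟩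
  have h3 := dalg_stab S h1 h2 t
  have h4 : Fintype.card (Fin (numV s) × Bool) = 2 * numV s := by
    rw [Fintype.card_prod, Fintype.card_fin, Fintype.card_bool]
    ring
  rw [h4] at h3
  have h5 : ((⟨b, hb⟩, p) : Fin (numV s) × Bool) ∈ S t := (hS t _).mpr h
  exact (hS _ _).mp (h3 h5)

/-! ### sums and counts -/

private theorem dalg_sumB (N : ℕ) (f : ℕ → ℕ) :
    sumB N (fun _ => true) f = ∑ j : Fin N, f j := by
  unfold sumB
  rw [← Finset.sum_range]
  induction N with
  | zero => simp
  | succ N ih =>
    rw [List.range_succ, List.flatMap_append, List.flatMap_singleton, List.length_append, ih,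
      Finset.sum_range_succ]
    simp

private theorem dalg_count (s : List Bool) (j : ℕ) (x : Fin (numV s)) :
    (endsOf s j).count x = entry s j x := by
  unfold endsOf
  rw [Multiset.count_sum']
  simp only [Multiset.count_replicate]
  rw [Finset.sum_eq_single x]
  · simp
  · intro b _ hb
    rw [if_neg hb]
  · intro h
    exact absurd (Finset.mem_univ x) h

private theorem dalg_deg (s : List Bool) (h : IsCode s) (x : Fin (numV s)) :
    (graphOf s h).deg x = ∑ j : Fin (numE s), entry s j x := by
  change ∑ j : Fin (numE s), (endsOf s j).count x = _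
  exact Finset.sum_congr rfl fun j _ => dalg_count s j x

/-! ### the graph -/

/-- the simple graph of a code -/
private def dG (s : List Bool) : SimpleGraph (Fin (numV s)) where
  Adj b c := b ≠ c ∧ ∃ j < numE s, entry s j b = 1 ∧ entry s j c = 1
  symm := ⟨by
    rintro b c ⟨h, j, hj, h1, h2⟩
    exact ⟨h.symm, j, hj, h2, h1⟩⟩
  loopless := ⟨fun b h => h.1 rfl⟩

private theorem dr_walk (s : List Bool) (a : ℕ) {c b : Fin (numV s)} (w : (dG s).Walk c b) :
    ∀ (t : ℕ) (p : Bool), DR s a t c p →
      DR s a (t + w.length) b (p ^^ decide (Odd w.length)) := by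
  induction w with
  | nil =>
    intro t p h
    simpa using h
  | @cons u v w hadj q ih =>
    intro t p h
    have hlen : (SimpleGraph.Walk.cons hadj q).length = q.length + 1 := rfl
    have hadj' := hadj
    obtain ⟨hne, j, hj, h1, h2⟩ := hadj'
    have h3 : DR s a (t + 1) v (!p) := by
      rw [dr_succ]
      refine ⟨v.2, Or.inr ⟨j, hj, h2, u, u.2, ?_, h1, by simpa using h⟩⟩
      intro he
      exact hne (Fin.ext he)
    have h4 := ih (t + 1) (!p) h3
    rw [hlen]
    have h5 : ((!p) ^^ decide (Odd q.length)) = (p ^^ decide (Odd (q.length + 1))) := by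
      have : Odd (q.length + 1) ↔ ¬ Odd q.length := by
        rw [Nat.odd_add_one]
      by_cases ho : Odd q.length
      · cases p <;> simp [ho, this]
      · cases p <;> simp [ho, this]
    rw [← h5]
    have h6 : t + (q.length + 1) = t + 1 + q.length := by ring
    rw [h6]
    exact h4

private theorem dr_sound (s : List Bool) (side : Fin (numV s) → Bool)
    (hs : ∀ j < numE s, ∀ b c : Fin (numV s), b ≠ c → entry s j b = 1 → entry s j c = 1 →
      side b = !(side c)) (a : Fin (numV s)) (t : ℕ) :
    ∀ (b : Fin (numV s)) (p : Bool), DR s a t b p → side b = (side a ^^ p) := by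
  induction t with
  | zero =>
    intro b p hb
    obtain ⟨_, h2, h3⟩ := (dr_zero s a b p).mp hb
    have : b = a := Fin.ext h2
    rw [this, h3]
    simp
  | succ t ih =>
    intro b p hb
    obtain ⟨_, h2 | ⟨j, hj, h3, c, hc, h4, h5, h6⟩⟩ := (dr_succ s a t b p).mp hb
    · exact ih b p h2
    · have h7 := ih ⟨c, hc⟩ (!p) h6
      have h8 := hs j hj b ⟨c, hc⟩ (fun e => h4 (by rw [e])) h3 h5
      rw [h8, h7]
      cases side a <;> cases p <;> rfl

theorem p_dalg : S_dalg := by
  intro hcb k s
  obtain ⟨hc1, hc2⟩ := hcb s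
  have hreg : ∀ h : IsCode s, (graphOf s h).Regular k ↔ ∀ a < numV s,
      sumB (numE s) (fun _ => true) (fun j => entry s j a) = k := by
    intro h
    constructor
    · intro hr a ha
      rw [dalg_sumB]
      exact (dalg_deg s h ⟨a, ha⟩).symm.trans (hr ⟨a, ha⟩)
    · intro hr (x : Fin (numV s))
      have := hr x.1 x.2
      rw [dalg_sumB] at this
      exact (dalg_deg s h x).trans this
  have hdip : dipB k s = true ↔ ((codeB s = true ∧ ordB s = true) ∧
      (∀ a < numV s, sumB (numE s) (fun _ => true) (fun j => entry s j a) = k)) ∧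
      ∀ a < numV s, ¬ DR s a (2 * numV s) a true := by
    unfold dipB DR
    simp only [Bool.and_eq_true, List.all_eq_true, List.mem_range, decide_eq_true_eq,
      Bool.not_eq_true', Bool.toNat_true, Bool.not_eq_true]
  rw [hdip]
  constructor
  · rintro ⟨⟨⟨h1, h2⟩, h3⟩, h4⟩
    have h := hc1.mp h1
    have hord := (hc2 h).1.mp h2
    refine ⟨h, ?_, (hreg h).mpr h3⟩
    change ∃ side : Fin (numV s) → Bool, ∀ e : Fin (numE s), ∃ a b : Fin (numV s),
      side a = true ∧ side b = false ∧ endsOf s e = {a, b}
    have hcol : (dG s).Colorable 2 := by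
      rw [SimpleGraph.two_colorable_iff_forall_loop_even]
      intro u w
      by_contra hodd
      rw [Nat.not_even_iff_odd] at hodd
      have h5 : DR s u 0 u false := (dr_zero s u u false).mpr ⟨u.2, rfl, rfl⟩
      have h6 := dr_walk s u w 0 false h5
      rw [decide_eq_true hodd] at h6
      exact h4 u u.2 (dr_stab s u _ u true h6)
    obtain ⟨C⟩ := hcol
    refine ⟨fun v => decide (C v = 0), fun (e : Fin (numE s)) => ?_⟩
    obtain ⟨hcard, hnd⟩ : (endsOf s e).card = 2 ∧ (endsOf s e).Nodup := hord e
    obtain ⟨a, b, hab⟩ := Multiset.card_eq_two.mp hcard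
    have hne : a ≠ b := by
      intro he
      rw [hab, he] at hnd
      simp at hnd
    have hadj : (dG s).Adj a b := by
      refine ⟨hne, e, e.2, ?_, ?_⟩
      · rw [← dalg_count, hab]
        simp [hne]
      · rw [← dalg_count, hab]
        simp [hne.symm]
    have hC := C.valid hadj
    by_cases ha : C a = 0
    · refine ⟨a, b, by simp [ha], ?_, hab⟩
      have : C b ≠ 0 := fun hb => hC (by rw [ha, hb])
      simp [this]
    · refine ⟨b, a, ?_, by simp [ha], by rw [hab]; exact Multiset.pair_comm a b⟩
      have : C b = 0 := by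
        have e1 := C a
        generalize C a = x at hC ha
        generalize C b = y at hC
        revert hC ha
        revert x y
        decide
      simp [this]
  · rintro ⟨h, hb, hr⟩
    obtain ⟨side, hside⟩ : ∃ side : Fin (numV s) → Bool, ∀ e : Fin (numE s),
      ∃ a b : Fin (numV s), side a = true ∧ side b = false ∧ endsOf s e = {a, b} := hb
    have hord : ordB s = true := by
      rw [(hc2 h).1]
      intro (e : Fin (numE s))
      change (endsOf s e).card = 2 ∧ (endsOf s e).Nodup
      obtain ⟨a, b, ha, hb, hab⟩ := hside e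
      have hne : a ≠ b := by
        intro he
        rw [he, hb] at ha
        exact absurd ha (by simp)
      rw [hab]
      refine ⟨by simp, by simpa using hne⟩
    refine ⟨⟨⟨hc1.mpr h, hord⟩, (hreg h).mp hr⟩, ?_⟩
    intro a ha hR
    have hs : ∀ j < numE s, ∀ b c : Fin (numV s), b ≠ c → entry s j b = 1 → entry s j c = 1 →
        side b = !(side c) := by
      intro j hj b c hbc h1 h2
      obtain ⟨x, y, hx, hy, hxy⟩ := hside ⟨j, hj⟩
      have hxy' : endsOf s j = {x, y} := hxy
      rw [← dalg_count, hxy'] at h1 h2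
      have hb : b = x ∨ b = y := by
        by_contra hcon
        push Not at hcon
        have : Multiset.count b {x, y} = 0 := by
          rw [Multiset.count_eq_zero]
          simp [hcon.1, hcon.2]
        omega
      have hc : c = x ∨ c = y := by
        by_contra hcon
        push Not at hcon
        have : Multiset.count c {x, y} = 0 := by
          rw [Multiset.count_eq_zero]
          simp [hcon.1, hcon.2]
        omega
      rcases hb with hb | hb <;> rcases hc with hc | hc
      · exact absurd (hb.trans hc.symm) hbc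
      · rw [hb, hc, hx, hy]; rfl
      · rw [hb, hc, hx, hy]; rfl
      · exact absurd (hb.trans hc.symm) hbc
    have := dr_sound s side hs ⟨a, ha⟩ _ ⟨a, ha⟩ true hR
    cases hh : side ⟨a, ha⟩ <;> rw [hh] at this <;> simp at this

end SDich
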