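import Pool.Agent.Lib.MP_e7d961_lc.Stm

/-!
Graphs that cover a regular dipole are regular and bipartite.
-/

set_option autoImplicit false

namespace SDich

open Finset

private theorem dconv_ends {H : Gr} (hH : H.Dipole) {x₀ x₁ : H.V} (hne : x₀ ≠ x₁)
    (huniv : (Finset.univ : Finset H.V) = {x₀, x₁}) (e : H.E) : H.ends e = {x₀, x₁} := by
  obtain ⟨h2, hnd⟩ := hH.2 e
  obtain ⟨a, b, hab⟩ := Multiset.card_eq_two.1 h2
  rw [hab] at hnd ⊢
  have hab' : a ≠ b := by
    intro h
    subst h
    simp at hnd
  have ha : a ∈ ({x₀, x₁} : Finset H.V) := huniv ▸ Finset.mem_univ a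
  have hb : b ∈ ({x₀, x₁} : Finset H.V) := huniv ▸ Finset.mem_univ b
  simp only [Finset.mem_insert, Finset.mem_singleton] at ha hb
  rcases ha with rfl | rfl <;> rcases hb with rfl | rfl
  · exact absurd rfl hab'
  · rfl
  · exact Multiset.pair_comm _ _
  · exact absurd rfl hab'

theorem p_dconv : S_dconv := by
  intro G H k hH hreg ⟨f, g, hc⟩
  obtain ⟨x₀, x₁, hne, huniv⟩ := Finset.card_eq_two.1 hH.1
  have hends := dconv_ends hH hne huniv
  refine ⟨⟨fun v => decide (f v = x₀), fun e => ?_⟩, fun v => ?_⟩
  · have h1 : (G.ends e).map f = {x₀, x₁} := by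
      rcases hc.ends e with h | ⟨h, -⟩
      · rw [h, hends]
      · rw [hends] at h
        simp at h
    have h2 : (G.ends e).card = 2 := by
      rw [← Multiset.card_map f, h1]
      simp
    obtain ⟨a, b, hab⟩ := Multiset.card_eq_two.1 h2
    rw [hab] at h1
    have h3 : ({f a, f b} : Multiset H.V) = {x₀, x₁} := by
      rw [← h1]
      simp
    have h4 : f a = x₀ ∧ f b = x₁ ∨ f a = x₁ ∧ f b = x₀ := by
      have ha : f a ∈ ({x₀, x₁} : Multiset H.V) := by rw [← h3]; simp
      have hb : f b ∈ ({x₀, x₁} : Multiset H.V) := by rw [← h3]; simp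
      simp only [Multiset.insert_eq_cons, Multiset.mem_cons, Multiset.mem_singleton] at ha hb
      rcases ha with ha | ha <;> rcases hb with hb | hb
      · exfalso
        rw [ha, hb] at h3
        have h5 : x₁ ∈ ({x₀, x₀} : Multiset H.V) := by rw [h3]; simp
        simp only [Multiset.insert_eq_cons, Multiset.mem_cons, Multiset.mem_singleton,
          or_self] at h5
        exact hne h5.symm
      · exact Or.inl ⟨ha, hb⟩
      · exact Or.inr ⟨ha, hb⟩
      · exfalso
        rw [ha, hb] at h3
        have h5 : x₀ ∈ ({x₁, x₁} : Multiset H.V) := by rw [h3]; simp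
        simp only [Multiset.insert_eq_cons, Multiset.mem_cons, Multiset.mem_singleton,
          or_self] at h5
        exact hne h5
    rcases h4 with ⟨ha, hb⟩ | ⟨ha, hb⟩
    · exact ⟨a, b, by simp [ha], by simp [hb, hne.symm], hab⟩
    · exact ⟨b, a, by simp [hb], by simp [ha, hne.symm], by rw [hab]; exact Multiset.pair_comm _ _⟩
  · have h1 : G.deg v = H.deg (f v) := by
      unfold Gr.deg
      rw [← Finset.sum_fiberwise (s := (Finset.univ : Finset G.E)) (g := g)
        (f := fun e => (G.ends e).count v)]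
      exact Finset.sum_congr rfl fun e _ => hc.loc v e
    rw [h1]
    exact hreg (f v)

end SDich
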