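import Pool.Agent.Lib.MP_e7d961_lc.Stm
import Pool.Agent.Lib.MP_a28c52_lc.Gadget

/-! [SD fpcb] `codeB`, `ordB`, `injB` are computable in polynomial time. -/

namespace SDich

open HerCo

section

variable {α : Type} [Enc α] {md : Mode}

@[fun_prop]
private theorem fpcb_numV {s : α → List Bool} (hs : FP md s) : FP md (fun a => numV (s a)) :=
  FP.numElems hs

@[fun_prop]
private theorem fpcb_numE {s : α → List Bool} (hs : FP md s) : FP md (fun a => numE (s a)) := by
  unfold numE
  fun_prop

@[fun_prop]
private theorem fpcb_bit {s : α → List Bool} {j b t : α → ℕ} (hs : FP md s) (hj : FP md j)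
    (hb : FP md b) (ht : FP md t) : FP md (fun a => bit (s a) (j a) (b a) (t a)) := by
  unfold bit
  fun_prop

@[fun_prop]
private theorem fpcb_toNat {c : α → Bool} (hc : FP md c) : FP md (fun a => (c a).toNat) :=
  (FP.ite hc (FP.const 1) (FP.const 0)).congr fun a => by cases c a <;> rfl

@[fun_prop]
private theorem fpcb_entry {s : α → List Bool} {j b : α → ℕ} (hs : FP md s) (hj : FP md j)
    (hb : FP md b) : FP md (fun a => entry (s a) (j a) (b a)) := by
  unfold entry
  fun_prop

private theorem fpcb_sumB {N : α → ℕ} {p : α → ℕ → Bool} {f : α → ℕ → ℕ} (hN : FP md N)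
    (hp : FP md (fun q : α × ℕ => p q.1 q.2)) (hf : FP md (fun q : α × ℕ => f q.1 q.2)) :
    FP md (fun a => sumB (N a) (p a) (f a)) := by
  unfold sumB
  refine FP.length (FP.flatMap (by fun_prop) ?_)
  exact FP.ite hp (by fun_prop) (by fun_prop)

@[fun_prop]
private theorem fpcb_sumE {s : α → List Bool} {j : α → ℕ} (hs : FP md s) (hj : FP md j) :
    FP md (fun a => sumB (numV (s a)) (fun _ => true) (entry (s a) (j a))) :=
  fpcb_sumB (p := fun _ _ => true) (f := fun a b => entry (s a) (j a) b) (by fun_prop)
    (by fun_prop) (by fun_prop)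

end

theorem p_fpcb : S_fpcb := by
  intro α _ s hs
  refine ⟨?_, ?_, ?_⟩
  · unfold codeB
    fun_prop
  · unfold ordB
    fun_prop
  · unfold injB
    fun_prop

end SDich
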