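import Pool.Agent.Lib.MP_e7d961_lc.Stm

/-!
Strong dichotomy for graph covers, piece [fpcls]: the clause list and the number of variables of
the reduction are polynomial-time computable.
-/

namespace SDich

open Finset HerCo CookLevin

theorem p_fpcls : S_fpcls := by
  intro n K C0 a0 r0 α _ tN T htN hT
  refine ⟨?_, ?_⟩
  · unfold clsOf tv lk
    fun_prop
  · unfold nvOf
    fun_prop

end SDich
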