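import Pool.Agent.Lib.MP_e7d961_lc.Stm

/-!
Piece `fpcode` (`MP_e7d961_lc`): the code of the port graph is computed in polynomial time.
-/

namespace SDich

open Finset HerCo CookLevin

section

variable {α : Type} [Enc α] {md : Mode}

private theorem fpcode_verts (k N : ℕ) {nv C : α → ℕ} (hnv : FP md nv) (hC : FP md C) :
    FP md (fun a => verts k N (nv a) (C a)) := by
  unfold verts
  fun_prop

private theorem fpcode_nextT (k : ℕ) {C : α → ℕ} {s : α → ℕ × ℕ} (hC : FP md C) (hs : FP md s) :
    FP md (fun a => nextT k (C a) (s a)) := by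
  unfold nextT
  fun_prop

private theorem fpcode_prevT (k : ℕ) {C : α → ℕ} {s : α → ℕ × ℕ} (hC : FP md C) (hs : FP md s) :
    FP md (fun a => prevT k (C a) (s a)) := by
  unfold prevT
  fun_prop

private theorem fpcode_litT {cls : α → List (List (ℕ × Bool))} {s : α → ℕ × ℕ}
    (hc : FP md cls) (hs : FP md s) : FP md (fun a => litT (cls a) (s a)) := by
  unfold litT
  fun_prop

attribute [local fun_prop] fpcode_verts fpcode_nextT fpcode_prevT fpcode_litT

private theorem fpcode_MT (k : ℕ) {cls : α → List (List (ℕ × Bool))}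
    {q : α → (Bool × ℕ) × (ℕ × ℕ) × (Bool × Bool)} {o : α → Bool} {i : α → ℕ}
    (hc : FP md cls) (hq : FP md q) (ho : FP md o) (hi : FP md i) :
    FP md (fun a => MT k (cls a) (q a) (o a) (i a)) := by
  unfold MT
  fun_prop

private theorem fpcode_nbT (tab : List (List ℕ)) {i κ : α → ℕ} (hi : FP md i) (hκ : FP md κ) :
    FP md (fun a => nbT tab (i a) (κ a)) := by
  unfold nbT
  fun_prop

attribute [local fun_prop] fpcode_MT fpcode_nbT

private theorem fpcode_hdT (k u : ℕ) (tab : List (List ℕ)) {cls : α → List (List (ℕ × Bool))}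
    {w : α → Tp} {i : α → ℕ} (hc : FP md cls) (hw : FP md w) (hi : FP md i) :
    FP md (fun a => hdT k u tab (cls a) (w a) (i a)) := by
  unfold hdT
  fun_prop

attribute [local fun_prop] fpcode_hdT

private theorem fpcode_adjT (k u : ℕ) (tab : List (List ℕ)) {cls : α → List (List (ℕ × Bool))}
    {w w' : α → Tp} (hc : FP md cls) (hw : FP md w) (hw' : FP md w') :
    FP md (fun a => adjT k u tab (cls a) (w a) (w' a)) := by
  unfold adjT
  fun_prop

private theorem fpcode_rowC {N b c : α → ℕ} (hN : FP md N) (hb : FP md b) (hc : FP md c) :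
    FP md (fun a => rowC (N a) (b a) (c a)) := by
  unfold rowC
  fun_prop

end

attribute [local fun_prop] fpcode_verts fpcode_nextT fpcode_prevT fpcode_litT fpcode_MT fpcode_nbT
  fpcode_hdT fpcode_adjT fpcode_rowC

theorem p_fpcode : S_fpcode := by
  intro k N u tab α _ nv cls hnv hcls
  unfold theCode codeG
  beta_reduce
  fun_prop

end SDich
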