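import Pool.Agent.Lib.MP_e7d961_lc.Stm

/-!
Piece `[SD fpcov]`: the verifier of covering projections is computable in polynomial time.
-/

namespace SDich

open Finset HerCo Function

section fpcov

variable {α β : Type} [Enc α] [Enc β] {md : Mode}

private theorem fpcov_div {f g : α → ℕ} (hf : FP md f) (hg : FP md g) :
    FP md (fun a => f a / g a) := by
  have e : ∀ (a b : ℕ), 0 < b → ∀ n,
      (fun s => if (s + 1) * b ≤ a then s + 1 else s)^[n] 0 = min n (a / b) := by
    intro a b hb n
    induction n with
    | zero => simp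
    | succ n ih =>
      rw [iterate_succ_apply', ih]
      by_cases h1 : (min n (a / b) + 1) * b ≤ a
      · rw [if_pos h1]
        rw [← Nat.le_div_iff_mul_le hb] at h1
        omega
      · rw [if_neg h1]
        rw [← Nat.le_div_iff_mul_le hb] at h1
        omega
  have h1 : FP md (fun a => (fun s => if (s + 1) * g a ≤ f a then s + 1 else s)^[f a] 0) := by
    refine FP.nat_iterate (init := fun _ => 0) (h := fun a s => if (s + 1) * g a ≤ f a then s + 1
      else s) (by fun_prop) (by fun_prop) hf fun hm => ?_
    subst hm
    refine ⟨fun a => f a, ?_, fun a i hi => ?_⟩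
    · have h1 := hf.bd
      simpa only [sz_nat] using h1
    · have : ∀ n, (fun s => if (s + 1) * g a ≤ f a then s + 1 else s)^[n] 0 ≤ n := by
        intro n
        induction n with
        | zero => simp
        | succ n ih =>
          rw [iterate_succ_apply']
          split_ifs <;> omega
      rw [sz_nat]
      exact (this i).trans hi
  have h2 : FP md (fun a => if g a = 0 then 0 else
      (fun s => if (s + 1) * g a ≤ f a then s + 1 else s)^[f a] 0) := by fun_prop
  refine h2.congr fun a => ?_
  by_cases h0 : g a = 0
  · simp [h0]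
  · rw [if_neg h0, e _ _ (Nat.pos_of_ne_zero h0)]
    exact min_eq_right (Nat.div_le_self _ _)

private def fpcov_step (st : Bool × ℕ) (b : Bool) : Bool × ℕ :=
  if st.1 && b then (true, st.2 + 1) else (false, st.2)

private theorem fpcov_step_false (l : List Bool) : ∀ n : ℕ,
    l.foldl fpcov_step (false, n) = (false, n) := by
  induction l with
  | nil => intro n; rfl
  | cons b l ih =>
    intro n
    rw [List.foldl_cons]
    exact ih n

private theorem fpcov_step_true (l : List Bool) : ∀ n : ℕ,
    (l.foldl fpcov_step (true, n)).2 = n + (l.takeWhile id).length := by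
  induction l with
  | nil => intro n; rfl
  | cons b l ih =>
    intro n
    rw [List.foldl_cons]
    cases b with
    | false =>
      have : fpcov_step (true, n) false = (false, n) := rfl
      rw [this, fpcov_step_false]
      simp
    | true =>
      have : fpcov_step (true, n) true = (true, n + 1) := rfl
      rw [this, ih (n + 1)]
      simp
      omega

private theorem fpcov_numV {s : α → List Bool} (hs : FP md s) : FP md (fun a => numV (s a)) := by
  have h1 : FP md (fun a => (s a).foldl fpcov_step (true, 0)) := by
    refine FP.foldl (g := fun _ => (true, 0)) (h := fun _ st b => fpcov_step st b) hs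
      (by fun_prop) ?_ fun hm => ?_
    · exact FP.ite (c := fun p : α × (Bool × ℕ) × Bool => p.2.1.1 && p.2.2)
        (by fun_prop) (by fun_prop) (by fun_prop)
    · subst hm
      refine ⟨fun a => 3 + sz (s a), (Bd.const 3).add hs.bd, fun a l' hl' => ?_⟩
      have : ∀ (l : List Bool) (c : Bool) (n : ℕ),
          sz (l.foldl fpcov_step (c, n)) ≤ 3 + n + l.length := by
        intro l
        induction l with
        | nil => intro c n; simp
        | cons b l ih =>
          intro c n
          rw [List.foldl_cons, List.length_cons]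
          rcases h : fpcov_step (c, n) b with ⟨c', n'⟩
          have hn : n' ≤ n + 1 := by
            unfold fpcov_step at h
            split_ifs at h
            · simp only [Prod.mk.injEq] at h; omega
            · simp only [Prod.mk.injEq] at h; omega
          have := ih c' n'
          omega
      have h2 := this l' true 0
      have h3 := hl'.length_le.trans (length_le_sz (s a))
      have h4 : sz (l'.foldl fpcov_step (true, 0)) ≤ 3 + sz (s a) := by omega
      exact h4
  refine h1.snd.congr fun a => ?_
  rw [fpcov_step_true, Nat.zero_add]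
  rfl

private theorem fpcov_numE {s : α → List Bool} (hs : FP md s) : FP md (fun a => numE (s a)) := by
  have hV := fpcov_numV hs
  unfold numE
  exact fpcov_div (by fun_prop) (by fun_prop)

private theorem fpcov_toNat {c : α → Bool} (hc : FP md c) : FP md (fun a => (c a).toNat) :=
  (FP.ite hc (FP.const 1) (FP.const 0)).congr fun a => by cases c a <;> rfl

private theorem fpcov_bit {s : α → List Bool} {j b t : α → ℕ} (hs : FP md s) (hj : FP md j)
    (hb : FP md b) (ht : FP md t) : FP md (fun a => bit (s a) (j a) (b a) (t a)) := by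
  have hV := fpcov_numV hs
  unfold bit
  fun_prop

private theorem fpcov_entry {s : α → List Bool} {j b : α → ℕ} (hs : FP md s) (hj : FP md j)
    (hb : FP md b) : FP md (fun a => entry (s a) (j a) (b a)) := by
  unfold entry
  exact FP.add (fpcov_toNat (fpcov_bit hs hj hb (FP.const 0)))
    (fpcov_toNat (fpcov_bit hs hj hb (FP.const 1)))

private theorem fpcov_sumB {N : α → ℕ} {p : α → ℕ → Bool} {f : α → ℕ → ℕ} (hN : FP md N)
    (hp : FP md (fun q : α × ℕ => p q.1 q.2)) (hf : FP md (fun q : α × ℕ => f q.1 q.2)) :
    FP md (fun a => sumB (N a) (p a) (f a)) := by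
  unfold sumB
  refine FP.length (FP.flatMap (g := fun a b => if p a b then List.replicate (f a b) () else [])
    (by fun_prop) ?_)
  exact FP.ite hp (FP.replicate hf (FP.const ())) (FP.const [])

private theorem fpcov_fB (nH : ℕ) {w : α → List Bool} {b x : α → ℕ} (hw : FP md w) (hb : FP md b)
    (hx : FP md x) : FP md (fun a => fB nH (w a) (b a) (x a)) := by
  unfold fB
  fun_prop

private theorem fpcov_gB (nH eH : ℕ) {s w : α → List Bool} {j e : α → ℕ} (hs : FP md s)
    (hw : FP md w) (hj : FP md j) (he : FP md e) :
    FP md (fun a => gB nH eH (s a) (w a) (j a) (e a)) := by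
  have hV := fpcov_numV hs
  unfold gB
  fun_prop

private theorem fpcov_tH (tab : List (List ℕ)) {e x : α → ℕ} (he : FP md e) (hx : FP md x) :
    FP md (fun a => tH tab (e a) (x a)) := by
  unfold tH
  fun_prop

theorem p_fpcov : S_fpcov := by
  intro nH eH tab α _ s w hs hw
  have hV := fpcov_numV hs
  have hE := fpcov_numE hs
  unfold covB
  refine FP.and (FP.and (FP.and (FP.and (FP.and ?_ ?_) ?_) ?_) ?_) ?_
  · refine FP.all (g := fun a b => decide (sumB nH (fun x => fB nH (w a) b x) (fun _ => 1) = 1))
      (by fun_prop) (FP.natEq (fpcov_sumB (N := fun _ => nH)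
        (p := fun (q : α × ℕ) x => fB nH (w q.1) q.2 x) (f := fun _ _ => 1) (by fun_prop) ?_
        (by fun_prop)) (by fun_prop))
    exact fpcov_fB nH (by fun_prop) (by fun_prop) (by fun_prop)
  · refine FP.all (g := fun a j => decide (sumB eH (fun e => gB nH eH (s a) (w a) j e)
      (fun _ => 1) = 1)) (by fun_prop) (FP.natEq (fpcov_sumB (N := fun _ => eH)
        (p := fun (q : α × ℕ) x => gB nH eH (s q.1) (w q.1) q.2 x) (f := fun _ _ => 1)
        (by fun_prop) ?_ (by fun_prop)) (by fun_prop))
    exact fpcov_gB nH eH (by fun_prop) (by fun_prop) (by fun_prop) (by fun_prop)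
  · refine FP.all (g := fun a x => (List.range (numV (s a))).any fun b => fB nH (w a) b x)
      (by fun_prop) (FP.anyB (g := fun (q : α × ℕ) b => fB nH (w q.1) b q.2) ?_ ?_)
    · exact FP.range (fpcov_numV (by fun_prop))
    · exact fpcov_fB nH (by fun_prop) (by fun_prop) (by fun_prop)
  · refine FP.all (g := fun a e => (List.range (numE (s a))).any fun j =>
      gB nH eH (s a) (w a) j e)
      (by fun_prop) (FP.anyB (g := fun (q : α × ℕ) j => gB nH eH (s q.1) (w q.1) j q.2) ?_ ?_)
    · exact FP.range (fpcov_numE (by fun_prop))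
    · exact fpcov_gB nH eH (by fun_prop) (by fun_prop) (by fun_prop) (by fun_prop)
  · refine FP.all (g := fun a j => (List.range eH).all fun e =>
      !gB nH eH (s a) (w a) j e ||
      (((List.range nH).all fun x =>
        decide (sumB (numV (s a)) (fun b => fB nH (w a) b x) (entry (s a) j) = tH tab e x)) ||
       (decide (sumB nH (fun _ => true) (tH tab e) = 1) &&
        (List.range nH).all fun x =>
          decide (sumB (numV (s a)) (fun b => fB nH (w a) b x) (entry (s a) j) =
            2 * tH tab e x)))) (by fun_prop) ?_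
    refine FP.all (g := fun (q : α × ℕ) e =>
      !gB nH eH (s q.1) (w q.1) q.2 e ||
      (((List.range nH).all fun x =>
        decide (sumB (numV (s q.1)) (fun b => fB nH (w q.1) b x) (entry (s q.1) q.2) =
          tH tab e x)) ||
       (decide (sumB nH (fun _ => true) (tH tab e) = 1) &&
        (List.range nH).all fun x =>
          decide (sumB (numV (s q.1)) (fun b => fB nH (w q.1) b x) (entry (s q.1) q.2) =
            2 * tH tab e x)))) (by fun_prop) ?_
    have hsum : FP .poly (fun r : ((α × ℕ) × ℕ) × ℕ => sumB (numV (s r.1.1.1))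
        (fun b => fB nH (w r.1.1.1) b r.2) (entry (s r.1.1.1) r.1.1.2)) := by
      refine fpcov_sumB (N := fun r : ((α × ℕ) × ℕ) × ℕ => numV (s r.1.1.1))
        (p := fun (r : ((α × ℕ) × ℕ) × ℕ) b => fB nH (w r.1.1.1) b r.2)
        (f := fun (r : ((α × ℕ) × ℕ) × ℕ) b => entry (s r.1.1.1) r.1.1.2 b)
        (fpcov_numV (by fun_prop)) ?_ ?_
      · exact fpcov_fB nH (by fun_prop) (by fun_prop) (by fun_prop)
      · exact fpcov_entry (by fun_prop) (by fun_prop) (by fun_prop)
    have htH : FP .poly (fun r : ((α × ℕ) × ℕ) × ℕ => tH tab r.1.2 r.2) :=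
      fpcov_tH tab (by fun_prop) (by fun_prop)
    refine FP.or (FP.not (fpcov_gB nH eH (by fun_prop) (by fun_prop) (by fun_prop)
      (by fun_prop))) (FP.or ?_ (FP.and ?_ ?_))
    · exact FP.all (g := fun (r : (α × ℕ) × ℕ) x =>
        decide (sumB (numV (s r.1.1)) (fun b => fB nH (w r.1.1) b x) (entry (s r.1.1) r.1.2) =
          tH tab r.2 x)) (by fun_prop) (FP.natEq hsum htH)
    · exact FP.natEq (fpcov_sumB (N := fun _ => nH) (p := fun _ _ => true)
        (f := fun (r : (α × ℕ) × ℕ) x => tH tab r.2 x) (by fun_prop) (by fun_prop)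
        (fpcov_tH tab (by fun_prop) (by fun_prop))) (by fun_prop)
    · exact FP.all (g := fun (r : (α × ℕ) × ℕ) x =>
        decide (sumB (numV (s r.1.1)) (fun b => fB nH (w r.1.1) b x) (entry (s r.1.1) r.1.2) =
          2 * tH tab r.2 x)) (by fun_prop) (FP.natEq hsum (FP.mul (FP.const 2) htH))
  · refine FP.all (g := fun a b => (List.range eH).all fun e => (List.range nH).all fun x =>
      !fB nH (w a) b x || decide (sumB (numE (s a)) (fun j => gB nH eH (s a) (w a) j e)
        (fun j => entry (s a) j b) = tH tab e x)) (by fun_prop) ?_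
    refine FP.all (g := fun (q : α × ℕ) e => (List.range nH).all fun x =>
      !fB nH (w q.1) q.2 x || decide (sumB (numE (s q.1)) (fun j => gB nH eH (s q.1) (w q.1) j e)
        (fun j => entry (s q.1) j q.2) = tH tab e x)) (by fun_prop) ?_
    refine FP.all (g := fun (r : (α × ℕ) × ℕ) x =>
      !fB nH (w r.1.1) r.1.2 x || decide (sumB (numE (s r.1.1))
        (fun j => gB nH eH (s r.1.1) (w r.1.1) j r.2)
        (fun j => entry (s r.1.1) j r.1.2) = tH tab r.2 x)) (by fun_prop) ?_
    refine FP.or (FP.not (fpcov_fB nH (by fun_prop) (by fun_prop) (by fun_prop)))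
      (FP.natEq ?_ (fpcov_tH tab (by fun_prop) (by fun_prop)))
    refine fpcov_sumB (N := fun r : ((α × ℕ) × ℕ) × ℕ => numE (s r.1.1.1))
      (p := fun (r : ((α × ℕ) × ℕ) × ℕ) j => gB nH eH (s r.1.1.1) (w r.1.1.1) j r.1.2)
      (f := fun (r : ((α × ℕ) × ℕ) × ℕ) j => entry (s r.1.1.1) j r.1.1.2)
      (fpcov_numE (by fun_prop)) ?_ ?_
    · exact fpcov_gB nH eH (by fun_prop) (by fun_prop) (by fun_prop) (by fun_prop)
    · exact fpcov_entry (by fun_prop) (by fun_prop) (by fun_prop)

end fpcov

end SDich
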