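import Pool.Agent.Lib.MP_e7d961_lc.Stm
import Pool.Agent.Lib.MP_a28c52_lc.Gadget

/-! [SD fpdip] `dipB k` is computable in polynomial time. -/

namespace SDich

open HerCo

section

variable {α : Type} [Enc α] {md : Mode}

@[fun_prop]
private theorem fpdip_numV {s : α → List Bool} (hs : FP md s) : FP md (fun a => numV (s a)) :=
  FP.numElems hs

@[fun_prop]
private theorem fpdip_numE {s : α → List Bool} (hs : FP md s) : FP md (fun a => numE (s a)) := by
  unfold numE
  fun_prop

@[fun_prop]
private theorem fpdip_bit {s : α → List Bool} {j b t : α → ℕ} (hs : FP md s) (hj : FP md j)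
    (hb : FP md b) (ht : FP md t) : FP md (fun a => bit (s a) (j a) (b a) (t a)) := by
  unfold bit
  fun_prop

@[fun_prop]
private theorem fpdip_toNat {c : α → Bool} (hc : FP md c) : FP md (fun a => (c a).toNat) :=
  (FP.ite hc (FP.const 1) (FP.const 0)).congr fun a => by cases c a <;> rfl

@[fun_prop]
private theorem fpdip_entry {s : α → List Bool} {j b : α → ℕ} (hs : FP md s) (hj : FP md j)
    (hb : FP md b) : FP md (fun a => entry (s a) (j a) (b a)) := by
  unfold entry
  fun_prop

private theorem fpdip_sumB {N : α → ℕ} {p : α → ℕ → Bool} {f : α → ℕ → ℕ} (hN : FP md N)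
    (hp : FP md (fun q : α × ℕ => p q.1 q.2)) (hf : FP md (fun q : α × ℕ => f q.1 q.2)) :
    FP md (fun a => sumB (N a) (p a) (f a)) := by
  unfold sumB
  refine FP.length (FP.flatMap (by fun_prop) ?_)
  exact FP.ite hp (by fun_prop) (by fun_prop)

@[fun_prop]
private theorem fpdip_sumV {s : α → List Bool} {b : α → ℕ} (hs : FP md s) (hb : FP md b) :
    FP md (fun a => sumB (numE (s a)) (fun _ => true) (fun j => entry (s a) j (b a))) :=
  fpdip_sumB (p := fun _ _ => true) (f := fun a j => entry (s a) j (b a)) (by fun_prop)
    (by fun_prop) (by fun_prop)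

@[fun_prop]
private theorem fpdip_stepB {s st : α → List Bool} (hs : FP md s) (hst : FP md st) :
    FP md (fun a => stepB (s a) (st a)) := by
  unfold stepB
  fun_prop

@[fun_prop]
private theorem fpdip_initB {s : α → List Bool} {b : α → ℕ} (hs : FP md s) (hb : FP md b) :
    FP md (fun a => initB (s a) (b a)) := by
  unfold initB
  fun_prop

end

private theorem fpdip_len_step (s st : List Bool) : (stepB s st).length = 2 * numV s := by
  unfold stepB
  rw [List.length_flatMap]
  simp [mul_comm]

private theorem fpdip_len_init (s : List Bool) (a : ℕ) : (initB s a).length = 2 * numV s := by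
  unfold initB
  rw [List.length_flatMap]
  simp [mul_comm]

private theorem fpdip_len (s : List Bool) (a i : ℕ) :
    ((stepB s)^[i] (initB s a)).length = 2 * numV s := by
  rcases i with _ | i
  · exact fpdip_len_init s a
  · rw [Function.iterate_succ_apply']
    exact fpdip_len_step s _

private theorem fpdip_iter {α : Type} [Enc α] {s : α → List Bool} {b : α → ℕ} (hs : FP .poly s)
    (hb : FP .poly b) :
    FP .poly (fun a => (stepB (s a))^[2 * numV (s a)] (initB (s a) (b a))) := by
  refine FP.nat_iterate (init := fun a => initB (s a) (b a)) (h := fun a st => stepB (s a) st)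
    (n := fun a => 2 * numV (s a)) (by fun_prop) (by fun_prop) (by fun_prop) fun _ => ?_
  have hn : FP .poly (fun a => numV (s a)) := by fun_prop
  refine ⟨fun a => 6 * sz (numV (s a)), (Bd.const 6).mul hn.bd, fun a i _ => ?_⟩
  rw [sz_boolList]
  have h1 := fpdip_len (s a) (b a) i
  have h2 : sz (numV (s a)) = numV (s a) := sz_nat _
  show 3 * ((stepB (s a))^[i] (initB (s a) (b a))).length ≤ 6 * sz (numV (s a))
  omega

theorem p_fpdip : S_fpdip := by
  intro hcb k
  have hid : FP .poly (fun s : List Bool => s) := by fun_prop
  obtain ⟨h1, h2, _⟩ := hcb (List Bool) (fun s => s) hid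
  have h3 : FP .poly (fun s : List Bool => (List.range (numV s)).all fun a =>
      decide (sumB (numE s) (fun _ => true) (fun j => entry s j a) = k)) := by
    fun_prop
  have h4 : FP .poly (fun s : List Bool => (List.range (numV s)).all fun a =>
      !(((stepB s)^[2 * numV s] (initB s a)).getD (2 * a + 1) false)) := by
    have h5 : FP .poly (fun q : List Bool × ℕ =>
        (stepB q.1)^[2 * numV q.1] (initB q.1 q.2)) :=
      fpdip_iter (s := fun q : List Bool × ℕ => q.1) (b := fun q => q.2) (by fun_prop)
        (by fun_prop)
    fun_prop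
  have h5 := ((h1.and h2).and h3).and h4
  exact h5

end SDich
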