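import Pool.Agent.Lib.MP_e7d961_lc.Stm

/-!
Piece [fptri] (`MP_e7d961_lc`).
-/

set_option autoImplicit false

namespace SDich

open Finset HerCo CookLevin

theorem p_fptri : S_fptri := by
  intro α _ m E hm hE
  constructor
  · unfold tri
    fun_prop
  · unfold triN
    fun_prop

end SDich
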