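import Pool.Agent.Lib.MP_e7d961_lc.Stm

/-!
Piece [good]: lengths and variable bounds of the clauses.
-/

namespace SDich

open Finset HerCo CookLevin

private theorem idx_lt {n K : ℕ} (d : Fin n × Fin K) : idx d < n * K := by
  have h1 : (d.1 : ℕ) + 1 ≤ n := d.1.isLt
  have h2 : (d.2 : ℕ) < K := d.2.isLt
  calc idx d = d.1 * K + d.2 := rfl
    _ < d.1 * K + K := by omega
    _ = (d.1 + 1) * K := by ring
    _ ≤ n * K := Nat.mul_le_mul_right K h1

private theorem rep_lt {n K : ℕ} (H : PN (Fin n) K) (d : Fin n × Fin K) :
    (rep H d).1 < n * K :=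
  lt_of_le_of_lt (min_le_left _ _) (idx_lt d)

private theorem rep'_lt {n K : ℕ} (H : PN (Fin n) K) (d : Fin n × Fin K) :
    (rep' H d).1 < n * K := by
  unfold rep'
  split
  · exact idx_lt d
  · exact rep_lt H d

private theorem lk_lt {n K tN w j : ℕ} (hw : w < tN) (hj : j < 2 * K) :
    lk n K tN w j < nvOf n K tN := by
  unfold lk nvOf
  have h1 : 2 * K * (w + 1) ≤ 2 * K * tN := Nat.mul_le_mul_left _ hw
  have h2 : 2 * K * (w + 1) = 2 * K * w + 2 * K := by ring
  omega

theorem p_good : S_good := by
  intro n k H x0 pos tN T hT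
  have hbase : ∀ v, v < n * (k + 3) → v < nvOf n (k + 3) tN := by
    intro v hv
    unfold nvOf
    omega
  have htv : ∀ w, w < tN → tv n (k + 3) w < nvOf n (k + 3) tN := by
    intro w hw
    unfold tv nvOf
    omega
  refine ⟨?_, ?_, ?_⟩
  · intro h
    have h1 : (List.finRange (k + 3)).map (fun i => rep H (x0, i)) ∈ clsH H x0 pos tN T := by
      unfold clsH clsOf
      rw [List.mem_append, List.mem_append]
      left; left
      unfold constC
      rw [List.mem_flatMap]
      exact ⟨x0, List.mem_finRange x0, by simp⟩
    rw [h] at h1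
    simp at h1
  · intro cl hcl
    unfold clsH clsOf at hcl
    rw [List.mem_append, List.mem_append] at hcl
    rcases hcl with (hcl | hcl) | hcl
    · unfold constC at hcl
      rw [List.mem_flatMap] at hcl
      obtain ⟨x, -, hx⟩ := hcl
      simp only [List.mem_cons, List.not_mem_nil, or_false] at hx
      rcases hx with rfl | rfl <;> simp
    · rw [List.mem_flatMap] at hcl
      obtain ⟨w, -, hx⟩ := hcl
      simp only [List.mem_cons, List.not_mem_nil, or_false] at hx
      rcases hx with rfl | rfl <;> simp
    · rw [List.mem_map] at hcl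
      obtain ⟨t, -, rfl⟩ := hcl
      simp [rest0]
  · intro cl hcl l hl
    unfold clsH clsOf at hcl
    rw [List.mem_append, List.mem_append] at hcl
    rcases hcl with (hcl | hcl) | hcl
    · unfold constC at hcl
      rw [List.mem_flatMap] at hcl
      obtain ⟨x, -, hx⟩ := hcl
      simp only [List.mem_cons, List.not_mem_nil, or_false] at hx
      apply hbase
      rcases hx with rfl | rfl
      · rw [List.mem_map] at hl
        obtain ⟨i, -, rfl⟩ := hl
        exact rep_lt H _
      · rw [List.mem_map] at hl
        obtain ⟨i, -, rfl⟩ := hl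
        exact rep'_lt H _
    · rw [List.mem_flatMap] at hcl
      obtain ⟨w, hw, hx⟩ := hcl
      rw [List.mem_range] at hw
      simp only [List.mem_cons, List.not_mem_nil, or_false] at hx
      rcases hx with rfl | rfl
      · rw [List.mem_cons, List.mem_map] at hl
        rcases hl with rfl | ⟨j, hj, rfl⟩
        · exact htv w hw
        · rw [List.mem_range] at hj
          exact lk_lt hw (by omega)
      · rw [List.mem_cons, List.mem_cons, List.mem_map] at hl
        rcases hl with rfl | rfl | ⟨j, hj, rfl⟩
        · exact hbase _ (rep_lt H _)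
        · exact lk_lt hw (by omega)
        · rw [List.mem_range] at hj
          exact lk_lt hw (by omega)
    · rw [List.mem_map] at hcl
      obtain ⟨t, ht, rfl⟩ := hcl
      obtain ⟨h1, h2, h3⟩ := hT t ht
      rw [List.mem_cons, List.mem_cons, List.mem_cons] at hl
      rcases hl with rfl | rfl | rfl | hl
      · exact htv _ h1
      · exact htv _ h2
      · exact htv _ h3
      · unfold rest0 at hl
        rw [List.mem_map] at hl
        obtain ⟨j, -, rfl⟩ := hl
        exact hbase _ (rep_lt H _)

end SDich
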