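import Pool.Agent.Lib.MP_e7d961_lc.Stm

/-! [SD hdt] heads of darts on names (helper40) -/

set_option autoImplicit false

namespace SDich

open Finset HerCo CookLevin

private theorem hdt_rot {N : ℕ} (x : Fin N) :
    ((finRotate N x : Fin N) : ℕ) = if (x : ℕ) + 1 < N then (x : ℕ) + 1 else 0 := by
  rcases N with _ | N
  · exact x.elim0
  · rw [finRotate_apply]
    by_cases h : (x : ℕ) + 1 < N + 1
    · rw [if_pos h, Fin.val_add_one_of_lt]
      exact Fin.lt_def.2 (by simpa using h)
    · rw [if_neg h]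
      have h1 : x = Fin.last N := by
        apply Fin.ext
        have := x.2
        rw [Fin.val_last]
        omega
      rw [h1]
      simp

private theorem hdt_next {C k : ℕ} (s : Fin C × Fin k) :
    (((ringP C k s).1 : ℕ), ((ringP C k s).2 : ℕ)) = nextT k C ((s.1 : ℕ), (s.2 : ℕ)) := by
  obtain ⟨⟨a, ha⟩, ⟨b, hb⟩⟩ := s
  have hk : 0 < k := by omega
  have h1 : ∀ y : Fin (C * k), (((finProdFinEquiv.symm y).1 : Fin C) : ℕ) = (y : ℕ) / k := fun y => rfl
  have h2 : ∀ y : Fin (C * k), (((finProdFinEquiv.symm y).2 : Fin k) : ℕ) = (y : ℕ) % k := fun y => rfl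
  have h3 : ((finProdFinEquiv ((⟨a, ha⟩, ⟨b, hb⟩) : Fin C × Fin k) : Fin (C * k)) : ℕ) = b + k * a := rfl
  unfold ringP nextT
  simp only [Equiv.trans_apply, h1, h2, hdt_rot, h3]
  by_cases hb1 : b + 1 < k
  · have h4 : b + k * a + 1 < C * k := by
      have : k * (a + 1) ≤ k * C := Nat.mul_le_mul_left k ha
      rw [Nat.mul_comm C k]
      nlinarith
    rw [if_pos hb1, if_pos h4]
    have h5 : b + k * a + 1 = (b + 1) + k * a := by ring
    rw [h5, Nat.add_mul_div_left _ _ hk, Nat.add_mul_mod_self_left, Nat.div_eq_of_lt hb1,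
      Nat.mod_eq_of_lt hb1, Nat.zero_add]
  · have hb2 : b + 1 = k := by omega
    rw [if_neg hb1]
    have h5 : b + k * a + 1 = k * (a + 1) := by
      rw [Nat.mul_add, Nat.mul_one]
      omega
    by_cases ha1 : a + 1 < C
    · have h4 : b + k * a + 1 < C * k := by
        rw [h5, Nat.mul_comm C k]
        exact Nat.mul_lt_mul_of_pos_left ha1 hk
      rw [if_pos ha1, if_pos h4, h5, Nat.mul_div_cancel_left _ hk, Nat.mul_mod_right]
    · have ha2 : a + 1 = C := by omega
      have h4 : ¬ b + k * a + 1 < C * k := by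
        rw [h5, ha2, Nat.mul_comm]
        exact lt_irrefl _
      rw [if_neg ha1, if_neg h4, Nat.zero_div, Nat.zero_mod]

private theorem hdt_prev {C k : ℕ} (s : Fin C × Fin k) :
    ((((ringP C k).symm s).1 : ℕ), (((ringP C k).symm s).2 : ℕ)) =
      prevT k C ((s.1 : ℕ), (s.2 : ℕ)) := by
  have hC : 0 < C := by
    have := s.1.2
    omega
  have hk : 0 < k := by
    have := s.2.2
    omega
  have h1 : (prevT k C ((s.1 : ℕ), (s.2 : ℕ))).1 < C ∧ (prevT k C ((s.1 : ℕ), (s.2 : ℕ))).2 < k := by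
    have h1 := s.1.2
    have h2 := s.2.2
    unfold prevT
    split_ifs
    · exact ⟨h1, by simp only; omega⟩
    · exact ⟨by simp only; omega, by simp only; omega⟩
    · exact ⟨by simp only; omega, by simp only; omega⟩
  have h2 : ringP C k (⟨_, h1.1⟩, ⟨_, h1.2⟩) = s := by
    have h3 := hdt_next ((⟨_, h1.1⟩, ⟨_, h1.2⟩) : Fin C × Fin k)
    have h4 : nextT k C (prevT k C ((s.1 : ℕ), (s.2 : ℕ))) = ((s.1 : ℕ), (s.2 : ℕ)) := by
      have h5 := s.1.2
      have h6 := s.2.2
      unfold prevT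
      by_cases c1 : 0 < (s.2 : ℕ)
      · rw [if_pos c1]
        unfold nextT
        have c2 : (s.2 : ℕ) - 1 + 1 < k := by omega
        simp only [if_pos c2]
        rw [Nat.sub_add_cancel c1]
      · rw [if_neg c1]
        have c3 : (s.2 : ℕ) = 0 := by omega
        have c4 : ¬ (k - 1 + 1 < k) := by omega
        by_cases c2 : 0 < (s.1 : ℕ)
        · rw [if_pos c2]
          unfold nextT
          have c5 : (s.1 : ℕ) - 1 + 1 < C := by omega
          simp only [if_neg c4, if_pos c5]
          rw [Nat.sub_add_cancel c2, c3]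
        · rw [if_neg c2]
          unfold nextT
          have c5 : ¬ (C - 1 + 1 < C) := by omega
          have c6 : (s.1 : ℕ) = 0 := by omega
          simp only [if_neg c4, if_neg c5]
          rw [c3, c6]
    have h5 : (((ringP C k (⟨_, h1.1⟩, ⟨_, h1.2⟩)).1 : ℕ),
        ((ringP C k (⟨_, h1.1⟩, ⟨_, h1.2⟩)).2 : ℕ)) = ((s.1 : ℕ), (s.2 : ℕ)) := by
      rw [h3]
      exact h4
    have h6 := Prod.mk.inj h5
    exact Prod.ext (Fin.ext h6.1) (Fin.ext h6.2)
  have h3 : (ringP C k).symm s = (⟨_, h1.1⟩, ⟨_, h1.2⟩) := by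
    rw [Equiv.symm_apply_eq]
    exact h2.symm
  rw [h3]

private theorem hdt_occ {k nv : ℕ} {cls : List (List (ℕ × Bool))} (hv : 0 < nv)
    (hG : Good k nv cls) (c : Fin cls.length) (i : Fin k) :
    (((instOf k nv cls hv).occ c i).1 : ℕ) = (litT cls ((c : ℕ), (i : ℕ))).1 ∧
      ((instOf k nv cls hv).occ c i).2 = (litT cls ((c : ℕ), (i : ℕ))).2 := by
  refine ⟨?_, rfl⟩
  have h1 : cls.getD (c : ℕ) [] ∈ cls := by
    rw [List.getD_eq_getElem _ _ c.2]
    exact List.getElem_mem _
  have h2 : (i : ℕ) < (cls.getD (c : ℕ) []).length := by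
    rw [hG.2.1 _ h1]
    exact i.2
  have h3 : (cls.getD (c : ℕ) []).getD (i : ℕ) (0, true) ∈ cls.getD (c : ℕ) [] := by
    rw [List.getD_eq_getElem _ _ h2]
    exact List.getElem_mem _
  exact Nat.mod_eq_of_lt (hG.2.2 _ h1 _ h3)

private theorem hdt_MT {m nv : ℕ} {cls : List (List (ℕ × Bool))} (hv : 0 < nv)
    (hG : Good (m + 3) nv cls) (q : Cpy (Fin nv) (Fin cls.length) (m + 3)) (o : Bool)
    (i : Fin (m + 3)) :
    MT (m + 3) cls (cname q) o i =
      (cname ((instOf (m + 3) nv cls hv).M (m := m + 1) (q, o, i)).1,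
        ((instOf (m + 3) nv cls hv).M (m := m + 1) (q, o, i)).2.1,
        ((((instOf (m + 3) nv cls hv).M (m := m + 1) (q, o, i)).2.2 : Fin (m + 3)) : ℕ)) := by
  rcases q with c | ⟨v, s, a, b⟩
  · have h := hdt_occ hv hG c i
    show MT (m + 3) cls ((false, 0), ((c : ℕ), 0), (false, false)) o i =
      (((true, (((instOf (m + 3) nv cls hv).occ c i).1 : ℕ)), ((c : ℕ), (i : ℕ)),
        (o == ((instOf (m + 3) nv cls hv).occ c i).2, false)), true, 0)
    rw [h.1, h.2]
    rfl
  · have h := hdt_occ hv hG s.1 s.2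
    by_cases hi0 : i = 0
    · subst hi0
      cases o
      · rfl
      · cases b
        · have h1 : ((litT cls ((s.1 : ℕ), (s.2 : ℕ))).1 = (v : ℕ)) ↔
              ((instOf (m + 3) nv cls hv).occ s.1 s.2).1 = v := by
            rw [← h.1]
            exact ⟨fun hh => Fin.ext hh, fun hh => by rw [hh]⟩
          show (if (litT cls ((s.1 : ℕ), (s.2 : ℕ))).1 = (v : ℕ) then
              ((((false, 0), ((s.1 : ℕ), 0), (false, false)) : (Bool × ℕ) × (ℕ × ℕ) × (Bool × Bool)),
                (a == (litT cls ((s.1 : ℕ), (s.2 : ℕ))).2, (s.2 : ℕ)))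
            else ((((true, (v : ℕ)), ((s.1 : ℕ), (s.2 : ℕ)), (!a, false)) :
              (Bool × ℕ) × (ℕ × ℕ) × (Bool × Bool)), (true, 0))) = _
          by_cases h2 : ((instOf (m + 3) nv cls hv).occ s.1 s.2).1 = v
          · have h3 : (instOf (m + 3) nv cls hv).M (m := m + 1) (.q v s a false, true, 0) =
                (.cl s.1, a == ((instOf (m + 3) nv cls hv).occ s.1 s.2).2, s.2) := by
              unfold Inst.M
              simp [h2]
            rw [if_pos (h1.2 h2), h3, h.2]
            rfl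
          · have h3 : (instOf (m + 3) nv cls hv).M (m := m + 1) (.q v s a false, true, 0) =
                (.q v s (!a) false, true, 0) := by
              unfold Inst.M
              simp [h2]
            rw [if_neg (fun hh => h2 (h1.1 hh)), h3]
            rfl
        · cases a
          · show ((((true, (v : ℕ)), prevT (m + 3) cls.length ((s.1 : ℕ), (s.2 : ℕ)), (true, true)) :
              (Bool × ℕ) × (ℕ × ℕ) × (Bool × Bool)), (true, 0)) = _
            rw [← hdt_prev]
            rfl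
          · show ((((true, (v : ℕ)), nextT (m + 3) cls.length ((s.1 : ℕ), (s.2 : ℕ)), (false, true)) :
              (Bool × ℕ) × (ℕ × ℕ) × (Bool × Bool)), (true, 0)) = _
            rw [← hdt_next]
            rfl
    · have hi0' : (i : ℕ) ≠ 0 := fun hh => hi0 (Fin.ext hh)
      by_cases hi1 : i = 1
      · subst hi1
        rfl
      · have hi1' : (i : ℕ) ≠ 1 := fun hh => hi1 (Fin.ext hh)
        have h3 : (instOf (m + 3) nv cls hv).M (m := m + 1) (.q v s a b, o, i) =
            (.q v s a b, !o, i) := by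
          unfold Inst.M
          simp only
          rw [if_neg hi0, if_neg hi1]
        rw [h3]
        unfold MT cname
        simp [hi0', hi1']

private theorem hdt_nb {V : Type} {k : ℕ} {H : PN V k} (U : UK H) (i : Fin k) (κ : Fin U.N) :
    nbT (tabOf U) i κ = (U.nb i κ : ℕ) := by
  unfold nbT tabOf
  have h1 : ((List.finRange k).map fun i => (List.finRange U.N).map fun κ => (U.nb i κ).1).getD
      (i : ℕ) [] = (List.finRange U.N).map fun κ => (U.nb i κ).1 := by
    rw [List.getD_eq_getElem _ _ (by simp)]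
    simp
  rw [h1, List.getD_eq_getElem _ _ (by simp)]
  simp

theorem p_hdt : S_hdt := by
  intro n m H U nv cls hv hG hM w i
  obtain ⟨q, κ⟩ := w
  have hpv : ∀ p : Port (Cpy (Fin nv) (Fin cls.length) (m + 3)) (m + 3), tup (U.pv p) =
      (cname p.1, if p.2.1 = true then (U.u : ℕ) else (U.nb p.2.2 U.u : ℕ)) := by
    rintro ⟨p1, p2, p3⟩
    cases p2 <;> rfl
  have hhd : (U.PG ((instOf (m + 3) nv cls hv).M (m := m + 1)) hM).hd (q, κ) i =
      if κ = U.u then U.pv ((instOf (m + 3) nv cls hv).M (m := m + 1) (q, true, i))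
      else if κ = U.nb i U.u then
        U.pv ((instOf (m + 3) nv cls hv).M (m := m + 1) (q, false, i))
      else (q, U.nb i κ) := by
    show (U.grev ((instOf (m + 3) nv cls hv).M (m := m + 1)) ((q, κ), i)).1 = _
    unfold UK.grev
    split_ifs <;> rfl
  rw [hhd]
  unfold hdT
  by_cases h1 : κ = U.u
  · have h1' : (tup (q, κ)).2 = (U.u : ℕ) := by
      show (κ : ℕ) = U.u
      rw [h1]
    rw [if_pos h1, if_pos h1', hpv]
    show ((MT (m + 3) cls (cname q) true i).1, _) = _
    rw [show (tup (q, κ)).1 = cname q from rfl, hdt_MT hv hG, hdt_nb]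
  · have h1' : ¬ (tup (q, κ)).2 = (U.u : ℕ) := by
      show ¬ (κ : ℕ) = U.u
      exact fun hh => h1 (Fin.ext hh)
    rw [if_neg h1, if_neg h1']
    by_cases h2 : κ = U.nb i U.u
    · have h2' : (tup (q, κ)).2 = nbT (tabOf U) i U.u := by
        rw [hdt_nb]
        show (κ : ℕ) = _
        rw [h2]
      rw [if_pos h2, if_pos h2', hpv]
      show ((MT (m + 3) cls (cname q) false i).1, _) = _
      rw [show (tup (q, κ)).1 = cname q from rfl, hdt_MT hv hG, hdt_nb]
    · have h2' : ¬ (tup (q, κ)).2 = nbT (tabOf U) i U.u := by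
        rw [hdt_nb]
        show ¬ (κ : ℕ) = _
        exact fun hh => h2 (Fin.ext hh)
      rw [if_neg h2, if_neg h2']
      show (cname q, nbT (tabOf U) i κ) = (cname q, (U.nb i κ : ℕ))
      rw [hdt_nb]

end SDich
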