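import Pool.Agent.Lib.MP_e7d961_lc.Stm

/-! A solution gives compatible frames. -/

namespace SDich

open Finset

private theorem exists_perm_fiber {V : Type} [DecidableEq V] {k : ℕ} (a b : Fin k → V)
    (h : ∀ y, (univ.filter fun i => a i = y).card = (univ.filter fun i => b i = y).card) :
    ∃ σ : Equiv.Perm (Fin k), ∀ i, b (σ i) = a i := by
  have h1 : ∀ y, Nonempty ({i // a i = y} ≃ {i // b i = y}) := by
    intro y
    refine ⟨Fintype.equivOfCardEq ?_⟩
    rw [Fintype.card_subtype, Fintype.card_subtype, h]
  exact ⟨Equiv.ofFiberEquiv fun y => (h1 y).some, fun i => Equiv.ofFiberEquiv_map _ _⟩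

private theorem exists_perm_two {k : ℕ} {i j a b : Fin k} (hij : i ≠ j) (hab : a ≠ b) :
    ∃ π : Equiv.Perm (Fin k), π i = a ∧ π j = b := by
  refine ⟨Equiv.swap (Equiv.swap i a j) b * Equiv.swap i a, ?_, by simp⟩
  rw [Equiv.Perm.mul_apply, Equiv.swap_apply_left]
  refine Equiv.swap_apply_of_ne_of_ne ?_ hab
  intro h
  apply hij
  apply (Equiv.swap i a).injective
  rw [Equiv.swap_apply_left]
  exact h

private theorem exists_third {m : ℕ} (a b : Fin (m + 3)) : ∃ c, c ≠ a ∧ c ≠ b := by
  by_contra h
  push Not at h
  have h1 : (univ : Finset (Fin (m + 3))) ⊆ {a, b} := by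
    intro c _
    rw [Finset.mem_insert, Finset.mem_singleton]
    by_cases hc : c = a
    · exact Or.inl hc
    · exact Or.inr (h c hc)
  have h2 := Finset.card_le_card h1
  have h3 : ({a, b} : Finset (Fin (m + 3))).card ≤ 2 := Finset.card_le_two
  rw [Finset.card_univ, Fintype.card_fin] at h2
  omega

/-- [icmp] -/
theorem p_icmp : S_icmp := by
  intro V _ _ m H Var C _ I val hsol
  obtain ⟨hadj, hcl⟩ := hsol
  choose g hg using hadj
  choose x hx1 hx2 using hcl
  have hσ : ∀ c, ∃ σ : Equiv.Perm (Fin (m + 3)), ∀ i, H.hd (x c) (σ i) =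
      (sg (I.occ c i).2 (val (I.occ c i).1)).2 := fun c =>
    exists_perm_fiber _ _ fun y => hx2 c y
  choose σ hσ using hσ
  -- the darts
  let γ : Var → V × Fin (m + 3) := fun v => ((val v).1, g v)
  let α : Var → C × Fin (m + 3) → V × Fin (m + 3) := fun v s =>
    if (I.occ s.1 s.2).1 = v then
      (if (I.occ s.1 s.2).2 = true then (x s.1, σ s.1 s.2) else H.rev (x s.1, σ s.1 s.2))
    else γ v
  let δ : Var → C × Fin (m + 3) → Bool → V × Fin (m + 3) := fun v s b =>
    if b = true then γ v else α v s
  let D : Var → C × Fin (m + 3) → Bool → Bool → V × Fin (m + 3) := fun v s a b =>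
    if a = true then H.rev (δ v s b) else δ v s b
  let base : Var → Bool → V := fun v a => if a = true then (val v).2 else (val v).1
  have hγ : ∀ v, (γ v).1 = (val v).1 ∧ (H.rev (γ v)).1 = (val v).2 := fun v => ⟨rfl, hg v⟩
  have hα : ∀ v s, (α v s).1 = (val v).1 ∧ (H.rev (α v s)).1 = (val v).2 := by
    intro v s
    by_cases h1 : (I.occ s.1 s.2).1 = v
    · have e1 := hx1 s.1 s.2
      have e2 := hσ s.1 s.2
      rw [h1] at e1 e2
      cases h2 : (I.occ s.1 s.2).2
      · rw [h2] at e1 e2
        simp only [sg, Bool.false_eq_true, if_false] at e1 e2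
        simp only [α, h1, h2, if_true, Bool.false_eq_true, if_false, H.inv]
        exact ⟨e2, e1.symm⟩
      · rw [h2] at e1 e2
        simp only [sg, if_true] at e1 e2
        simp only [α, h1, h2, if_true]
        exact ⟨e1.symm, e2⟩
    · simp only [α, h1, if_false]
      exact hγ v
  have hδ : ∀ v s b, (δ v s b).1 = (val v).1 ∧ (H.rev (δ v s b)).1 = (val v).2 := by
    intro v s b
    cases b
    · exact hα v s
    · exact hγ v
  have hD : ∀ v s a b, (D v s a b).1 = base v a := by
    intro v s a b
    cases a
    · exact (hδ v s b).1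
    · exact (hδ v s b).2
  have hDn : ∀ v s a b, D v s (!a) b = H.rev (D v s a b) := by
    intro v s a b
    cases a
    · simp [D]
    · simp [D, H.inv]
  -- the ports `0` and `1`
  have hE : ∀ v s a, ∃ e : Fin (m + 3), e ≠ (D v s a false).2 ∧ e ≠ (D v s a true).2 :=
    fun v s a => exists_third _ _
  choose e he1 he2 using hE
  have h01 : (0 : Fin (m + 3)) ≠ 1 := by
    intro h
    have := congrArg Fin.val h
    simp at this
  have hπ : ∀ v s a b, ∃ π : Equiv.Perm (Fin (m + 3)), π 0 = (D v s a b).2 ∧ π 1 = e v s a := by
    intro v s a b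
    refine exists_perm_two h01 ?_
    cases b
    · exact (he1 v s a).symm
    · exact (he2 v s a).symm
  choose π hπ0 hπ1 using hπ
  let Φ : Cpy Var C (m + 3) → Fr V (m + 3) := fun ω => match ω with
    | .cl c => (x c, σ c)
    | .q v s a b => (base v a, π v s a b)
  refine ⟨Φ, ?_⟩
  have pcl : ∀ c o i, pval H Φ (.cl c, o, i) =
      if o = true then (x c, σ c i) else H.rev (x c, σ c i) := by
    intro c o i; rfl
  have pq0 : ∀ v s a b o, pval H Φ (.q v s a b, o, 0) =
      if o = true then D v s a b else H.rev (D v s a b) := by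
    intro v s a b o
    have h : ((base v a, π v s a b 0) : V × Fin (m + 3)) = D v s a b :=
      Prod.ext (hD v s a b).symm (hπ0 v s a b)
    show (if o = true then (base v a, π v s a b 0) else H.rev (base v a, π v s a b 0)) = _
    rw [h]
  have pq1 : ∀ v s a b o, pval H Φ (.q v s a b, o, 1) =
      if o = true then (base v a, e v s a) else H.rev (base v a, e v s a) := by
    intro v s a b o
    show (if o = true then (base v a, π v s a b 1) else H.rev (base v a, π v s a b 1)) = _
    rw [hπ1]
  have pqi : ∀ v s a b o i, pval H Φ (.q v s a b, o, i) =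
      if o = true then (base v a, π v s a b i) else H.rev (base v a, π v s a b i) := by
    intro v s a b o i; rfl
  have hDα : ∀ c i o, D (I.occ c i).1 (c, i) (o == (I.occ c i).2) false =
      if o = true then H.rev (x c, σ c i) else (x c, σ c i) := by
    intro c i o
    cases h2 : (I.occ c i).2 <;> cases o <;> simp [D, δ, α, h2, H.inv]
  rintro ⟨ω, o, i⟩
  rcases ω with c | ⟨v, s, a, b⟩
  · have hM : I.M (m := m + 1) (.cl c, o, i) =
        (.q (I.occ c i).1 (c, i) (o == (I.occ c i).2) false, true, 0) := rfl
    rw [hM, pq0, pcl, if_pos rfl, hDα]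
    cases o <;> simp [H.inv]
  · by_cases hi0 : i = 0
    · subst hi0
      cases o
      · have hM : I.M (m := m + 1) (.q v s a b, false, 0) = (.q v s (!a) b, false, 0) := by
          simp [Inst.M]
        rw [hM, pq0, pq0, hDn]
        simp
      · cases b
        · by_cases hv : (I.occ s.1 s.2).1 = v
          · have hM : I.M (m := m + 1) (.q v s a false, true, 0) =
                (.cl s.1, a == (I.occ s.1 s.2).2, s.2) := by
              simp [Inst.M, hv]
            rw [hM, pcl, pq0, if_pos rfl]
            have h1 := hDα s.1 s.2 (a == (I.occ s.1 s.2).2)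
            have h2 : ((a == (I.occ s.1 s.2).2) == (I.occ s.1 s.2).2) = a := by
              cases a <;> cases (I.occ s.1 s.2).2 <;> rfl
            rw [h2, hv] at h1
            rw [show D v s a false = D v (s.1, s.2) a false from rfl, h1]
            split_ifs <;> simp [H.inv]
          · have hM : I.M (m := m + 1) (.q v s a false, true, 0) =
                (.q v s (!a) false, true, 0) := by
              simp [Inst.M, hv]
            rw [hM, pq0, pq0, hDn]
            rfl
        · have hDt : ∀ s a, D v s a true = if a = true then H.rev (γ v) else γ v := by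
            intro s a; rfl
          cases a
          · have hM : I.M (m := m + 1) (.q v s false true, true, 0) =
                (.q v (I.nxt.symm s) true true, true, 0) := by simp [Inst.M]
            rw [hM, pq0, pq0, hDt, hDt]
            rfl
          · have hM : I.M (m := m + 1) (.q v s true true, true, 0) =
                (.q v (I.nxt s) false true, true, 0) := by simp [Inst.M]
            rw [hM, pq0, pq0, hDt, hDt]
            simp [H.inv]
    · by_cases hi1 : i = 1
      · subst hi1
        have hM : I.M (m := m + 1) (.q v s a b, o, 1) = (.q v s a (!b), !o, 1) := by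
          simp only [Inst.M]
          rw [if_neg hi0]
          simp
        rw [hM, pq1, pq1]
        cases o <;> simp [H.inv]
      · have hM : I.M (m := m + 1) (.q v s a b, o, i) = (.q v s a b, !o, i) := by
          simp only [Inst.M]
          rw [if_neg hi0, if_neg hi1]
        rw [hM, pqi, pqi]
        cases o <;> simp [H.inv]

end SDich
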