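import Pool.Agent.Lib.MP_e7d961_lc.Stm

/-! A colouring of the port graph gives a solution. -/

namespace SDich

open Finset

private theorem hd_root' {V : Type} {k : ℕ} {H : PN V k} (U : UK H) {Ω : Type}
    (M : Port Ω k → Port Ω k) (hM : ∀ p, M (M p) = p) (ω : Ω) (i : Fin k) :
    (U.PG M hM).hd (ω, U.u) i = U.pv (M (ω, true, i)) := by
  simp [PN.hd, UK.PG, UK.grev, UK.pd]

/-- [isnd] -/
theorem p_isnd : S_isnd := by
  intro hQ hA V _ _ m H U Var C _ _ I hM f hnc hf
  choose x hx1 hx2 hx3 using fun v s => hQ hA V m H U Var C I hM f hnc hf v s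
  -- the ring
  have hring : ∀ v s a, x v (I.nxt s) a = x v s a := by
    intro v s a
    cases a
    · -- the copy `q v s true true` is matched to `q v (nxt s) false true`
      have h1 := hx2 v s true true
      have h2 : I.M (m := m + 1) (.q v s true true, true, 0) =
          (.q v (I.nxt s) false true, true, 0) := by simp [Inst.M]
      rw [h2] at h1
      have h3 : U.pv ((Cpy.q v (I.nxt s) false true, true, 0) :
          Port (Cpy Var C (m + 3)) (m + 3)) = (Cpy.q v (I.nxt s) false true, U.u) := by
        simp [UK.pv]
      rw [h3, hx1] at h1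
      exact h1
    · have h1 := hx2 v (I.nxt s) false true
      have h2 : I.M (m := m + 1) (.q v (I.nxt s) false true, true, 0) =
          (.q v s true true, true, 0) := by simp [Inst.M]
      rw [h2] at h1
      have h3 : U.pv ((Cpy.q v s true true, true, 0) :
          Port (Cpy Var C (m + 3)) (m + 3)) = (Cpy.q v s true true, U.u) := by
        simp [UK.pv]
      rw [h3, hx1] at h1
      exact h1.symm
  obtain ⟨c0⟩ := ‹Nonempty C›
  let s0 : C × Fin (m + 3) := (c0, 0)
  have hconst : ∀ v s, x v s = x v s0 := by
    intro v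
    have h := I.trans {s | x v s = x v s0} ⟨s0, rfl⟩ (fun s hs => by
      show x v (I.nxt s) = x v s0
      funext a
      rw [hring, hs])
    intro s
    have : s ∈ {s | x v s = x v s0} := by rw [h]; trivial
    exact this
  refine ⟨fun v => (x v s0 false, x v s0 true), fun v => hx3 v s0, fun c => ?_⟩
  refine ⟨f (.cl c, U.u), ?_, ?_⟩
  · intro i
    -- the outer port `0` of the copy of the variable is matched to the clause
    set v := (I.occ c i).1 with hv
    set b := (I.occ c i).2 with hb
    have h1 := hx2 v (c, i) b false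
    have h2 : I.M (m := m + 1) (.q v (c, i) b false, true, 0) = (.cl c, true, i) := by
      simp [Inst.M, ← hv, ← hb]
    rw [h2] at h1
    have h3 : U.pv ((Cpy.cl c, true, i) : Port (Cpy Var C (m + 3)) (m + 3)) =
        (Cpy.cl c, U.u) := by
      simp [UK.pv]
    rw [h3, hconst] at h1
    rw [h1]
    cases b <;> simp [sg]
  · intro y
    have h1 := hf (.cl c, U.u) y
    rw [← h1]
    refine congrArg Finset.card (Finset.filter_congr fun i _ => ?_)
    have h2 : (U.PG (I.M (m := m + 1)) hM).hd (.cl c, U.u) i =
        (.q (I.occ c i).1 (c, i) (I.occ c i).2 false, U.u) := by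
      rw [hd_root']
      simp [Inst.M, UK.pv]
    rw [h2, hx1, hconst]
    cases (I.occ c i).2 <;> simp [sg]

end SDich
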