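import Pool.Agent.Lib.MP_e7d961_lc.Stm

namespace SDich

open Finset

private theorem konig_side {X E : Type} [DecidableEq X] [Fintype E] [DecidableEq E]
    (l : E → X) (k : ℕ) (M : Finset E) (hM : ∀ x, (M.filter fun e => l e = x).card = 1)
    (c' : {e // e ∉ M} → Fin k)
    (hc' : ∀ x i, (univ.filter fun e : {e // e ∉ M} => l e.1 = x ∧ c' e = i).card = 1)
    (x : X) (i : Fin (k + 1)) :
    (univ.filter fun e : E => l e = x ∧
      (if h : e ∈ M then Fin.last k else (c' ⟨e, h⟩).castSucc) = i).card = 1 := by
  classical
  refine Fin.lastCases ?_ ?_ i
  · refine Eq.trans ?_ (hM x)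
    congr 1
    ext e
    simp only [mem_filter, mem_univ, true_and]
    by_cases h : e ∈ M
    · simp [h]
    · simp only [h, dite_false, false_and, iff_false, not_and]
      intro _ h'
      exact absurd h' (Fin.castSucc_lt_last _).ne
  · intro j
    refine Eq.trans ?_ ((Finset.card_map (Function.Embedding.subtype fun e => e ∉ M)).trans
      (hc' x j))
    congr 1
    ext e
    simp only [mem_filter, mem_univ, true_and, mem_map, Function.Embedding.coe_subtype,
      Subtype.exists, exists_and_right, exists_eq_right]
    by_cases h : e ∈ M
    · simp only [h, dite_true]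
      constructor
      · rintro ⟨_, h'⟩
        exact absurd h' (Fin.castSucc_lt_last _).ne'
      · rintro ⟨h', _⟩
        exact absurd trivial h'
    · simp only [h, dite_false, Fin.castSucc_inj]
      constructor
      · rintro ⟨h1, h2⟩
        exact ⟨not_false, h1, h2⟩
      · rintro ⟨_, h1, h2⟩
        exact ⟨h1, h2⟩

private theorem konig_deg {X E : Type} [DecidableEq X] [Fintype E] [DecidableEq E]
    (l : E → X) (k : ℕ) (M : Finset E) (hM : ∀ x, (M.filter fun e => l e = x).card = 1)
    (hl : ∀ x, (univ.filter fun e => l e = x).card = k + 1) (x : X) :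
    (univ.filter fun e : {e // e ∉ M} => l e.1 = x).card = k := by
  classical
  have h1 : (univ.filter fun e => l e = x).card =
      (M.filter fun e => l e = x).card +
        (univ.filter fun e : {e // e ∉ M} => l e.1 = x).card := by
    rw [← Finset.card_map (Function.Embedding.subtype fun e => e ∉ M), ← Finset.card_union_of_disjoint]
    · congr 1
      ext e
      simp only [mem_filter, mem_univ, true_and, mem_map, Function.Embedding.coe_subtype,
        Subtype.exists, exists_and_right, exists_eq_right, mem_union]
      by_cases h : e ∈ M
      · simp [h]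
      · simp [h]
    · rw [Finset.disjoint_left]
      intro e he he'
      simp only [mem_filter, mem_univ, true_and, mem_map, Function.Embedding.coe_subtype,
        Subtype.exists, exists_and_right, exists_eq_right] at he he'
      exact he'.1 he.1
  rw [hl, hM] at h1
  omega

theorem p_konig : S_konig := by
  intro hmatch X Y E fX fY fE dX dY dE l r k
  induction k generalizing E with
  | zero =>
    intro hl hr
    have hE : ∀ e : E, False := by
      intro e
      have := hl (l e)
      rw [Finset.card_eq_zero] at this
      have h2 : e ∈ (univ.filter fun e' => l e' = l e) := by simp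
      rw [this] at h2
      simp at h2
    exact ⟨fun e => (hE e).elim, fun x i => i.elim0, fun y i => i.elim0⟩
  | succ k ih =>
    intro hl hr
    obtain ⟨M, hMl, hMr⟩ := hmatch X Y E l r (k + 1) (Nat.succ_pos k) hl hr
    obtain ⟨c', hc1, hc2⟩ := ih {e // e ∉ M} (fun e => l e.1)
      (fun e => r e.1) (konig_deg l k M hMl hl) (konig_deg r k M hMr hr)
    exact ⟨fun e => if h : e ∈ M then Fin.last k else (c' ⟨e, h⟩).castSucc,
      konig_side l k M hMl c' hc1, konig_side r k M hMr c' hc2⟩

end SDich
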