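import Pool.Agent.Lib.MP_e7d961_lc.Stm

namespace SDich

open Finset

theorem p_match : S_match := by
  intro X Y E _ _ _ _ _ _ l r k hk hl hr
  classical
  have hEl : ∀ s : Finset X, (univ.filter fun e => l e ∈ s).card = k * s.card := by
    intro s
    have h := Finset.card_eq_sum_card_fiberwise (f := l) (s := univ.filter fun e => l e ∈ s)
      (t := s) (fun e he => by simpa using he)
    rw [h, Finset.sum_const_nat (m := k), mul_comm]
    intro x hx
    rw [← hl x]
    congr 1
    ext e
    simp only [mem_filter, mem_univ, true_and]
    constructor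
    · rintro ⟨_, h⟩; exact h
    · intro h; exact ⟨h ▸ hx, h⟩
  have hEr : ∀ s : Finset Y, (univ.filter fun e => r e ∈ s).card = k * s.card := by
    intro s
    have h := Finset.card_eq_sum_card_fiberwise (f := r) (s := univ.filter fun e => r e ∈ s)
      (t := s) (fun e he => by simpa using he)
    rw [h, Finset.sum_const_nat (m := k), mul_comm]
    intro x hx
    rw [← hr x]
    congr 1
    ext e
    simp only [mem_filter, mem_univ, true_and]
    constructor
    · rintro ⟨_, h⟩; exact h
    · intro h; exact ⟨h ▸ hx, h⟩
  let t : X → Finset Y := fun x => (univ.filter fun e => l e = x).image r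
  obtain ⟨f, hf, hft⟩ := (Finset.all_card_le_biUnion_card_iff_exists_injective t).1 (by
    intro s
    have h1 : (univ.filter fun e => l e ∈ s).card ≤
        (univ.filter fun e => r e ∈ s.biUnion t).card := by
      apply Finset.card_le_card
      intro e he
      simp only [mem_filter, mem_univ, true_and] at he ⊢
      simp only [mem_biUnion, t, mem_image, mem_filter, mem_univ, true_and]
      exact ⟨l e, he, e, rfl, rfl⟩
    rw [hEl, hEr] at h1
    exact Nat.le_of_mul_le_mul_left h1 hk)
  have hex : ∀ x, ∃ e, l e = x ∧ r e = f x := by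
    intro x
    have := hft x
    simp only [t, mem_image, mem_filter, mem_univ, true_and] at this
    exact this
  choose g hgl hgr using hex
  have hcard : Fintype.card X = Fintype.card Y := by
    have h1 := hEl univ
    have h2 := hEr univ
    simp only [mem_univ, filter_true] at h1 h2
    rw [h1] at h2
    exact Nat.eq_of_mul_eq_mul_left hk h2
  have hbij : Function.Bijective f := (Fintype.bijective_iff_injective_and_card f).2 ⟨hf, hcard⟩
  refine ⟨univ.image g, ?_, ?_⟩
  · intro x
    rw [Finset.card_eq_one]
    refine ⟨g x, ?_⟩
    ext e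
    simp only [mem_filter, mem_image, mem_univ, true_and, mem_singleton]
    constructor
    · rintro ⟨⟨x', rfl⟩, h⟩
      rw [hgl] at h
      rw [h]
    · rintro rfl
      exact ⟨⟨x, rfl⟩, hgl x⟩
  · intro y
    rw [Finset.card_eq_one]
    obtain ⟨x, rfl⟩ := hbij.2 y
    refine ⟨g x, ?_⟩
    ext e
    simp only [mem_filter, mem_image, mem_univ, true_and, mem_singleton]
    constructor
    · rintro ⟨⟨x', rfl⟩, h⟩
      rw [hgr] at h
      rw [hf h]
    · rintro rfl
      exact ⟨⟨x, rfl⟩, hgr x⟩

end SDich
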