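import Pool.Agent.Lib.MP_e7d961_lc.Stm

/-!
The matching of the ports is an involution.
-/

namespace SDich

open Finset

private theorem minv_beq (a b : Bool) : ((a == b) == b) = a := by
  cases a <;> cases b <;> rfl

theorem p_minv : S_minv := by
  intro Var C _ m I p
  rcases p with ⟨c | ⟨v, s, a, b⟩, o, i⟩
  · simp only [Inst.M, if_true, Bool.false_eq_true, if_false, minv_beq]
  · by_cases h0 : i = 0
    · subst h0
      cases o
      · simp [Inst.M]
      · cases b
        · by_cases hv : (I.occ s.1 s.2).1 = v
          · simp [Inst.M, hv]
          · simp [Inst.M, hv]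
        · cases a <;> simp [Inst.M]
    · by_cases h1 : i = 1
      · subst h1
        simp [Inst.M]
      · simp [Inst.M, h0, h1]

end SDich
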