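import Pool.Agent.Lib.MP_e7d961_lc.Stm

/-!
Two properties of the matching (`MP_e7d961_lc`).
-/

namespace SDich

private theorem msim_cl {Var C : Type} [DecidableEq Var] {m : ℕ} (I : Inst Var C (m + 2))
    (c : C) (o : Bool) (i : Fin (m + 2)) :
    I.M (.cl c, o, i) = (.q (I.occ c i).1 (c, i) (o == (I.occ c i).2) false, true, 0) := rfl

private theorem msim_q {Var C : Type} [DecidableEq Var] {m : ℕ} (I : Inst Var C (m + 2))
    (v : Var) (s : C × Fin (m + 2)) (a b : Bool) (o : Bool) (i : Fin (m + 2)) :
    I.M (.q v s a b, o, i) =
      if i = 0 then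
        if o = true then
          if b = true then
            (if a = true then (.q v (I.nxt s) false true, true, 0)
              else (.q v (I.nxt.symm s) true true, true, 0))
          else
            (if (I.occ s.1 s.2).1 = v then (.cl s.1, a == (I.occ s.1 s.2).2, s.2)
              else (.q v s (!a) false, true, 0))
        else (.q v s (!a) b, false, 0)
      else if i = 1 then (.q v s a (!b), !o, 1)
      else (.q v s a b, !o, i) := rfl

private theorem msim_outer {Var C : Type} [DecidableEq Var] {m : ℕ} (I : Inst Var C (m + 2))
    (v : Var) (s : C × Fin (m + 2)) (a b : Bool) (i : Fin (m + 2))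
    (h : (I.M (.q v s a b, true, i)).2.1 = true) : i = 0 := by
  rw [msim_q] at h
  by_contra hi
  rw [if_neg hi] at h
  by_cases h1 : i = 1
  · rw [if_pos h1] at h
    exact Bool.false_ne_true h
  · rw [if_neg h1] at h
    exact Bool.false_ne_true h

theorem p_msim : S_msim := by
  intro Var C _ m I
  refine ⟨?_, ?_⟩
  · rintro ⟨x, o, i⟩
    cases x with
    | cl c =>
      left
      rw [msim_cl]
      exact fun h => by cases h
    | q v s a b =>
      rw [msim_q]
      by_cases hi : i = 0
      · left
        rw [if_pos hi]
        cases o <;> cases b <;> cases a <;> simp <;> split_ifs <;> simp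
      · rw [if_neg hi]
        by_cases h1 : i = 1
        · left
          rw [if_pos h1]
          cases b <;> simp
        · right
          rw [if_neg h1]
  · rintro ⟨x, o, i⟩ ⟨x', o', i'⟩ hx ho ho' hM hM1 hM2
    simp only at hx ho ho'
    subst hx ho ho'
    cases x with
    | cl c =>
      rw [msim_cl, msim_cl] at hM
      simp only [Cpy.q.injEq, Prod.mk.injEq, true_and] at hM
      rw [hM.2.1]
    | q v s a b =>
      have h1 := msim_outer I v s a b i hM1
      have h2 := msim_outer I v s a b i' hM2
      rw [h1, h2]

end SDich
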