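import Pool.Agent.Lib.MP_e7d961_lc.Stm

set_option autoImplicit false

namespace SDich

open Finset

private theorem nc_hd {H : Gr} {k n : ℕ} (R : Ports H k n) (x y : H.V) (h : H.Nbr x y) :
    ∃ i, R.P.hd (R.φ x) i = R.φ y := by
  obtain ⟨e, he⟩ := h
  have hx : x ∈ H.ends e := by
    rcases he with he | ⟨_, he⟩
    · rw [he]; simp
    · rw [he]; simp
  have hpos : 0 < (H.ends e).count x := Multiset.count_pos.2 hx
  rw [← R.cnt x e, card_pos] at hpos
  obtain ⟨i, hi⟩ := hpos
  rw [mem_filter] at hi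
  refine ⟨i, ?_⟩
  have h1 := R.ends_ed (R.φ x, i)
  rw [hi.2] at h1
  change (R.P.rev (R.φ x, i)).1 = R.φ y
  by_cases hr : R.P.rev (R.φ x, i) = (R.φ x, i)
  · rw [if_pos hr] at h1
    rcases he with he | ⟨hxy, _⟩
    · rw [he] at h1
      have h2 := congrArg Multiset.card h1
      simp at h2
    · rw [hr, hxy]
  · rw [if_neg hr, Equiv.symm_apply_apply] at h1
    rcases he with he | ⟨_, he⟩
    · rw [he] at h1
      have h2 : ({y} : Multiset H.V) = {R.φ.symm (R.P.rev (R.φ x, i)).1} :=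
        (Multiset.cons_inj_right x).1 h1
      have h3 := Multiset.singleton_inj.1 h2
      rw [h3, Equiv.apply_symm_apply]
    · rw [he] at h1
      have h2 := congrArg Multiset.card h1
      simp at h2

theorem p_nc : S_nc := by
  intro H k n R h a
  obtain ⟨y, z, hyz, hy, hz⟩ := h (R.φ.symm a)
  obtain ⟨i, hi⟩ := nc_hd R _ _ hy
  obtain ⟨j, hj⟩ := nc_hd R _ _ hz
  rw [Equiv.apply_symm_apply] at hi hj
  refine ⟨i, j, ?_⟩
  rw [hi, hj]
  exact fun h => hyz (R.φ.injective h)

end SDich
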