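import Pool.Agent.Lib.MP_e7d961_lc.Stm

/-!
# Piece np: `H`-COVER on simple inputs is in NP
-/

namespace SDich

open N68a2faeb HerCo

private theorem np_ver (hf : S_fpcb) (hc : S_fpcov) (nH eH : ℕ) (tab : List (List ℕ)) :
    FP .poly (fun a : List Bool × List Bool => verB nH eH tab a.1 a.2) := by
  have h1 : FP .poly (fun a : List Bool × List Bool => a.1) := by fun_prop
  have h2 : FP .poly (fun a : List Bool × List Bool => a.2) := by fun_prop
  obtain ⟨k1, k2, k3⟩ := hf (List Bool × List Bool) (fun a => a.1) h1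
  have k4 := hc nH eH tab (List Bool × List Bool) (fun a => a.1) (fun a => a.2) h1 h2
  unfold verB
  fun_prop

theorem p_np : S_np := by
  intro hf hc hcode hcov H
  refine ⟨Polynomial.X * Polynomial.C (Fintype.card H.V + Fintype.card H.E),
    fun a => verB (Fintype.card H.V) (Fintype.card H.E)
      (tabH H (Fintype.equivFin H.V) (Fintype.equivFin H.E)) a.1 a.2, ?_, ?_⟩
  · exact (isPolyTime_pair _).2 (np_ver hf hc _ _ _)
  · intro s
    have hev : (Polynomial.X * Polynomial.C (Fintype.card H.V + Fintype.card H.E) :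
        Polynomial ℕ).eval s.length = s.length * (Fintype.card H.V + Fintype.card H.E) := by
      rw [Polynomial.eval_mul, Polynomial.eval_X, Polynomial.eval_C]
    rw [hev]
    have hL : CoverSimple H s = true ↔
        ∃ h : IsCode s, (graphOf s h).Simple ∧ (graphOf s h).Covers H := by
      unfold CoverSimple
      simp only [decide_eq_true_eq]
    constructor
    · intro hx
      obtain ⟨h, hs, hcv⟩ := hL.1 hx
      obtain ⟨w, hw, hw2⟩ := (hcov H _ _ (Fintype.equivFin H.V) (Fintype.equivFin H.E) s h).1 hcv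
      refine ⟨w, hw, ?_⟩
      have e1 : codeB s = true := (hcode s).1.2 h
      have e2 : ordB s = true := ((hcode s).2 h).1.2 hs.1
      have e3 : injB s = true := ((hcode s).2 h).2.2 hs.2
      show verB _ _ _ s w = true
      unfold verB
      rw [e1, e2, e3, hw2]
      rfl
    · rintro ⟨w, hw, hv⟩
      have hv' : (codeB s && ordB s && injB s && covB (Fintype.card H.V) (Fintype.card H.E)
        (tabH H (Fintype.equivFin H.V) (Fintype.equivFin H.E)) s w) = true := hv
      rw [Bool.and_eq_true, Bool.and_eq_true, Bool.and_eq_true] at hv'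
      obtain ⟨⟨⟨e1, e2⟩, e3⟩, e4⟩ := hv'
      have h : IsCode s := (hcode s).1.1 e1
      exact hL.2 ⟨h, ⟨((hcode s).2 h).1.1 e2, ((hcode s).2 h).2.1 e3⟩,
        (hcov H _ _ (Fintype.equivFin H.V) (Fintype.equivFin H.E) s h).2 ⟨w, hw, e4⟩⟩

end SDich
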