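import Pool.Agent.Lib.MP_e7d961_lc.Stm

/-!
Port numbers of a regular graph with loops and semi-edges (`MP_e7d961_lc`, piece ports).
-/

namespace SDich

open Finset HerCo CookLevin

private theorem ends_pair {V : Type} [DecidableEq V] (m : Multiset V) (a b : m.ToType)
    (hab : b ≠ a) (hc : m.card = 2) : m = {a.1, b.1} := by
  classical
  have hu : (Finset.univ : Finset m.ToType) = insert a (singleton b) := by
    symm
    apply Finset.eq_univ_of_card
    rw [Finset.card_pair hab.symm, Multiset.card_coe, hc]
  have h := Multiset.map_univ_coe m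
  rw [hu, Finset.insert_val_of_notMem (by simpa using hab.symm)] at h
  exact h.symm

private theorem ends_pair' {V : Type} [DecidableEq V] (m : Multiset V)
    (a b : Σ x : V, Fin (m.count x)) (hab : b ≠ a) (hc : m.card = 2) : m = {a.1, b.1} :=
  ends_pair m a b hab hc

private theorem equiv_ends {V : Type} [Fintype V] [DecidableEq V] (m : Multiset V) :
    Nonempty ((Σ x : V, Fin (m.count x)) ≃ Fin m.card) := by
  refine ⟨Fintype.equivFinOfCardEq ?_⟩
  rw [Fintype.card_sigma]
  simp only [Fintype.card_fin]
  exact (Multiset.toFinset_sum_count_eq m) ▸ (Finset.sum_subset (Finset.subset_univ _)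
    (fun x _ hx => by
      rw [Multiset.mem_toFinset] at hx
      exact Multiset.count_eq_zero_of_notMem hx)).symm

theorem p_ports : S_ports := by
  intro H k hreg
  classical
  -- numbering of the darts at a vertex
  have hβ : ∀ x : H.V, Nonempty ((Σ e : H.E, Fin ((H.ends e).count x)) ≃ Fin k) := by
    intro x
    refine ⟨Fintype.equivFinOfCardEq ?_⟩
    rw [Fintype.card_sigma]
    simp only [Fintype.card_fin]
    exact hreg x
  let β := fun x => (hβ x).some
  let α := fun e : H.E => (equiv_ends (H.ends e)).some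
  let φ : H.V ≃ Fin (Fintype.card H.V) := Fintype.equivFin H.V
  let D := Σ e : H.E, Σ x : H.V, Fin ((H.ends e).count x)
  let sw : D ≃ (Σ x : H.V, Σ e : H.E, Fin ((H.ends e).count x)) :=
    { toFun := fun d => ⟨d.2.1, d.1, d.2.2⟩
      invFun := fun d => ⟨d.2.1, d.1, d.2.2⟩
      left_inv := fun d => rfl
      right_inv := fun d => rfl }
  let ψ : D ≃ Fin (Fintype.card H.V) × Fin k :=
    (sw.trans (Equiv.sigmaCongrRight β)).trans
      ((Equiv.sigmaEquivProd H.V (Fin k)).trans (Equiv.prodCongr φ (Equiv.refl _)))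
  have hψ : ∀ (e : H.E) (x : H.V) (t : Fin ((H.ends e).count x)),
      ψ ⟨e, x, t⟩ = (φ x, β x ⟨e, t⟩) := fun e x t => rfl
  have hψ1 : ∀ d : D, φ.symm (ψ d).1 = d.2.1 := by
    rintro ⟨e, x, t⟩
    rw [hψ]
    exact φ.symm_apply_apply _
  let τ : ∀ e : H.E, (Σ x : H.V, Fin ((H.ends e).count x)) →
      (Σ x : H.V, Fin ((H.ends e).count x)) :=
    fun e a => (α e).symm (Fin.rev (α e a))
  have hττ : ∀ e a, τ e (τ e a) = a := by
    intro e a
    simp [τ]
  let rv : D → D := fun d => ⟨d.1, τ d.1 d.2⟩
  have hrv : ∀ d, rv (rv d) = d := by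
    intro d
    obtain ⟨e, a⟩ := d
    simp only [rv, hττ]
  refine ⟨{
    φ := φ
    P := ⟨fun d => ψ (rv (ψ.symm d)), fun d => by
      simp only [Equiv.symm_apply_apply, hrv, Equiv.apply_symm_apply]⟩
    ed := fun d => (ψ.symm d).1
    ed_rev := fun d => by simp only [Equiv.symm_apply_apply]; rfl
    ends_ed := ?_
    cnt := ?_ }⟩
  · intro d
    obtain ⟨⟨e, a⟩, rfl⟩ := ψ.surjective d
    simp only [Equiv.symm_apply_apply]
    have h1 : (ψ (rv ⟨e, a⟩) = ψ ⟨e, a⟩) ↔ τ e a = a := by
      rw [ψ.injective.eq_iff]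
      simp only [rv]
      constructor
      · intro h
        have := (Sigma.mk.inj_iff.1 h).2
        exact eq_of_heq this
      · intro h
        rw [h]
    rw [hψ1, hψ1]
    show H.ends e = if ψ (rv ⟨e, a⟩) = ψ ⟨e, a⟩ then {a.1} else {a.1, (τ e a).1}
    rcases H.card_ends e with hc | hc
    · have h4 : τ e a = a := by
        have h6 : α e a = Fin.rev (α e a) := by
          apply Fin.ext
          rw [Fin.val_rev]
          have h7 := (α e a).2
          omega
        have h5 : τ e a = (α e).symm (Fin.rev (α e a)) := rfl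
        rw [h5, ← h6, Equiv.symm_apply_apply]
      rw [if_pos (h1.2 h4)]
      obtain ⟨y, hy⟩ := Multiset.card_eq_one.1 hc
      obtain ⟨x, t⟩ := a
      have hm : x ∈ H.ends e := by
        rw [← Multiset.count_pos]
        exact t.pos
      rw [hy] at hm
      show H.ends e = {x}
      rw [hy, Multiset.mem_singleton.1 hm]
    · have h4 : τ e a ≠ a := by
        intro h
        have h5 : Fin.rev (α e a) = α e a := by
          have := congrArg (α e) h
          simpa [τ] using this
        have h6 := congrArg Fin.val h5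
        rw [Fin.val_rev] at h6
        have h7 := (α e a).2
        omega
      rw [if_neg (fun h => h4 (h1.1 h))]
      exact ends_pair' _ a (τ e a) h4 hc
  · intro x e
    symm
    have hcard : (Finset.univ : Finset (Fin ((H.ends e).count x))).card = (H.ends e).count x := by
      simp
    rw [← hcard]
    refine Finset.card_bij (fun t _ => β x ⟨e, t⟩) ?_ ?_ ?_
    · intro t _
      rw [Finset.mem_filter]
      refine ⟨Finset.mem_univ _, ?_⟩
      have : ψ.symm (φ x, β x ⟨e, t⟩) = ⟨e, ⟨x, t⟩⟩ := by
        rw [Equiv.symm_apply_eq, hψ]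
      rw [this]
    · intro t _ t' _ h
      have := (β x).injective h
      exact eq_of_heq (Sigma.mk.inj_iff.1 this).2
    · intro i hi
      rw [Finset.mem_filter] at hi
      have h1 := hi.2
      obtain ⟨⟨e', ⟨x', t'⟩⟩, hd⟩ := ψ.surjective (φ x, i)
      rw [← hd, Equiv.symm_apply_apply] at h1
      simp only at h1
      subst h1
      rw [hψ] at hd
      have hx := φ.injective (congrArg Prod.fst hd)
      subst hx
      exact ⟨t', Finset.mem_univ _, congrArg Prod.snd hd⟩

end SDich
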