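import Pool.Agent.Lib.MP_e7d961_lc.Stm

/-!
Three ports at `x0` (`MP_e7d961_lc`).
-/

set_option autoImplicit false

namespace SDich

open Finset

private theorem pos_perm {α : Type} [DecidableEq α] (x y z a b c : α) (hxy : x ≠ y) (hxz : x ≠ z)
    (hyz : y ≠ z) (hab : a ≠ b) (hac : a ≠ c) (hbc : b ≠ c) :
    ∃ p : Equiv.Perm α, p x = a ∧ p y = b ∧ p z = c := by
  obtain ⟨p0, h0⟩ : ∃ p : Equiv.Perm α, p x = a := ⟨Equiv.swap x a, Equiv.swap_apply_left x a⟩
  obtain ⟨p1, h1x, h1y⟩ : ∃ p : Equiv.Perm α, p x = a ∧ p y = b := by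
    refine ⟨Equiv.swap (p0 y) b * p0, ?_, ?_⟩
    · rw [Equiv.Perm.mul_apply, h0]
      refine Equiv.swap_apply_of_ne_of_ne ?_ hab
      rw [← h0]
      exact fun e => hxy (p0.injective e)
    · rw [Equiv.Perm.mul_apply, Equiv.swap_apply_left]
  refine ⟨Equiv.swap (p1 z) c * p1, ?_, ?_, ?_⟩
  · rw [Equiv.Perm.mul_apply, h1x]
    refine Equiv.swap_apply_of_ne_of_ne ?_ hac
    rw [← h1x]
    exact fun e => hxz (p1.injective e)
  · rw [Equiv.Perm.mul_apply, h1y]
    refine Equiv.swap_apply_of_ne_of_ne ?_ hbc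
    rw [← h1y]
    exact fun e => hyz (p1.injective e)
  · rw [Equiv.Perm.mul_apply, Equiv.swap_apply_left]

private theorem pos_three {k n : ℕ} (h : Fin (k + 3) → Fin n) (hne : ∃ i j, h i ≠ h j) :
    ∃ a b c : Fin (k + 3), a ≠ b ∧ a ≠ c ∧ b ≠ c ∧ h c ≠ h a ∧ h c ≠ h b := by
  obtain ⟨i, j, hij⟩ := hne
  have hij' : i ≠ j := fun e => hij (by rw [e])
  obtain ⟨l, hl⟩ : ∃ l : Fin (k + 3), l ∉ ({i, j} : Finset (Fin (k + 3))) := by
    apply Finset.exists_mem_notMem_of_card_lt_card (s := {i, j}) (t := Finset.univ) ?_ |>.imp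
    · intro l hl
      exact hl.2
    · rw [Finset.card_univ, Fintype.card_fin]
      have : ({i, j} : Finset (Fin (k + 3))).card ≤ 2 := Finset.card_le_two
      omega
  rw [Finset.mem_insert, Finset.mem_singleton, not_or] at hl
  by_cases hc : h l = h i
  · exact ⟨i, l, j, fun e => hl.1 e.symm, hij', hl.2, fun e => hij e.symm,
      fun e => hij (by rw [e, hc])⟩
  · exact ⟨j, l, i, fun e => hl.2 e.symm, fun e => hij' e.symm, hl.1, hij, fun e => hc e.symm⟩

theorem p_pos : S_pos := by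
  intro n k H hNC x0
  obtain ⟨a, b, c, hab, hac, hbc, h1, h2⟩ := pos_three (H.hd x0) (hNC x0)
  have e01 : (0 : Fin (k + 3)) ≠ 1 := by
    intro e
    have := congrArg Fin.val e
    simp at this
  have e02 : (0 : Fin (k + 3)) ≠ 2 := by
    intro e
    have := congrArg Fin.val e
    simp [Nat.mod_eq_of_lt] at this
  have e12 : (1 : Fin (k + 3)) ≠ 2 := by
    intro e
    have := congrArg Fin.val e
    simp [Nat.mod_eq_of_lt] at this
  obtain ⟨p, hp0, hp1, hp2⟩ := pos_perm (0 : Fin (k + 3)) 1 2 a b c e01 e02 e12 hab hac hbc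
  refine ⟨p, ?_, ?_⟩
  · rw [hp2, hp0]
    exact h1
  · rw [hp2, hp1]
    exact h2

end SDich
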