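import Pool.Agent.Lib.MP_e7d961_lc.Stm

/-! The four copies of a place carry one pair of adjacent vertices. -/

namespace SDich

open Finset

private theorem hd_root {V : Type} {k : ℕ} {H : PN V k} (U : UK H) {Ω : Type}
    (M : Port Ω k → Port Ω k) (hM : ∀ p, M (M p) = p) (ω : Ω) (i : Fin k) :
    (U.PG M hM).hd (ω, U.u) i = U.pv (M (ω, true, i)) := by
  simp [PN.hd, UK.PG, UK.grev, UK.pd]

private theorem sum3 {m : ℕ} (F : Fin (m + 3) → ℕ) :
    ∑ i, F i = F 0 + (F 1 + ∑ i : Fin (m + 1), F i.succ.succ) := by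
  rw [Fin.sum_univ_succ, Fin.sum_univ_succ]
  rfl

private theorem M_rest {Var C : Type} [DecidableEq Var] {m : ℕ} (I : Inst Var C (m + 3))
    (v : Var) (s : C × Fin (m + 3)) (a b o : Bool) (i : Fin (m + 1)) :
    I.M (m := m + 1) (.q v s a b, o, i.succ.succ) = (.q v s a b, !o, i.succ.succ) := by
  have h0 : (i.succ.succ : Fin (m + 3)) ≠ 0 := Fin.succ_ne_zero _
  have h1 : (i.succ.succ : Fin (m + 3)) ≠ 1 := by
    intro h
    have := congrArg Fin.val h
    simp at this
  simp only [Inst.M]
  rw [if_neg h0, if_neg h1]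

private theorem M_one {Var C : Type} [DecidableEq Var] {m : ℕ} (I : Inst Var C (m + 3))
    (v : Var) (s : C × Fin (m + 3)) (a b o : Bool) :
    I.M (m := m + 1) (.q v s a b, o, 1) = (.q v s a (!b), !o, 1) := by
  have h0 : (1 : Fin (m + 3)) ≠ 0 := by
    intro h
    have := congrArg Fin.val h
    simp at this
  simp only [Inst.M]
  rw [if_neg h0]
  simp

private theorem M_inner {Var C : Type} [DecidableEq Var] {m : ℕ} (I : Inst Var C (m + 3))
    (v : Var) (s : C × Fin (m + 3)) (a b : Bool) :
    I.M (m := m + 1) (.q v s a b, false, 0) = (.q v s (!a) b, false, 0) := by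
  simp [Inst.M]

/-- [qsnd] -/
theorem p_qsnd : S_qsnd := by
  intro hA V _ _ m H U Var C _ I hM f hnc hf v s
  have hZ := fun a b => hA V (m + 3) H U _ _ hM f hnc hf (.q v s a b)
  choose Z hZ1 hZ2 using hZ
  -- the colours of the roots
  have e0 : ∀ a b, f (.q v s (!a) b, U.nb 0 U.u) = Z a b := by
    intro a b
    have h := hZ1 a b 0
    rw [M_inner] at h
    simpa [UK.pv] using h
  have e1 : ∀ a b, f (.q v s a (!b), U.u) = Z a b := by
    intro a b
    have h := hZ1 a b 1
    rw [M_one] at h
    simpa [UK.pv] using h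
  have e2 : ∀ a b, f (.q v s a b, U.u) = Z a b := by
    intro a b
    have h := hZ1 a b (Fin.succ (Fin.succ 0))
    rw [M_rest] at h
    simpa [UK.pv] using h
  have e3 : ∀ a b, Z a b = Z a false := by
    intro a b
    cases b
    · rfl
    · rw [← e1 a true, ← e2 a false]; rfl
  set x : Bool → V := fun a => Z a false with hx
  have hX : ∀ a b, f (.q v s a b, U.u) = x a := fun a b => by rw [e2, e3]
  have hD0 : ∀ a b, f (.q v s a b, U.nb 0 U.u) = x (!a) := by
    intro a b
    have h := e0 (!a) b
    rw [Bool.not_not] at h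
    rw [h, e3]
  -- count
  have cnt : ∀ a b y,
      (if f (U.pv (I.M (m := m + 1) (.q v s a b, true, 0))) = y then 1 else 0) +
        (if f (.q v s a (!b), U.nb 1 U.u) = y then 1 else 0) =
      (if x (!a) = y then 1 else 0) + (if f (.q v s a b, U.nb 1 U.u) = y then 1 else 0) := by
    intro a b y
    have h1 := hf (.q v s a b, U.u) y
    have h2 := hZ2 a b y
    rw [hX] at h1
    rw [e3] at h2
    rw [← h2] at h1
    rw [Finset.card_filter, Finset.card_filter, sum3, sum3] at h1
    have h3 : ∀ i : Fin (m + 1), f ((U.PG (I.M (m := m + 1)) hM).hd (.q v s a b, U.u)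
        i.succ.succ) = f (.q v s a b, U.nb i.succ.succ U.u) := by
      intro i
      rw [hd_root, M_rest]
      simp [UK.pv]
    simp only [h3] at h1
    rw [hd_root, hd_root, M_one, hD0] at h1
    have h4 : U.pv ((Cpy.q v s a (!b), !true, 1) : Port (Cpy Var C (m + 3)) (m + 3)) =
        (Cpy.q v s a (!b), U.nb 1 U.u) := by
      simp [UK.pv]
    rw [h4] at h1
    omega
  have hY : ∀ a b, f (U.pv (I.M (m := m + 1) (.q v s a b, true, 0))) = x (!a) := by
    intro a b
    have h1 := cnt a false (x (!a))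
    have h2 := cnt a true (x (!a))
    simp only [Bool.not_false, Bool.not_true, if_true] at h1 h2
    by_contra hb
    cases b
    · rw [if_neg hb] at h1
      split_ifs at h1 h2 <;> omega
    · rw [if_neg hb] at h2
      split_ifs at h1 h2 <;> omega
  refine ⟨x, hX, hY, ?_⟩
  -- adjacency
  have h2 := hZ2 false false (x true)
  have h3 : 0 < (univ.filter fun i => f (.q v s false false, U.nb i U.u) = x true).card := by
    rw [Finset.card_pos]
    exact ⟨0, Finset.mem_filter.2 ⟨mem_univ _, hD0 false false⟩⟩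
  rw [h2] at h3
  unfold PN.A at h3
  rw [Finset.card_pos] at h3
  obtain ⟨i, hi⟩ := h3
  exact ⟨i, (Finset.mem_filter.1 hi).2⟩

end SDich
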