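import Pool.Agent.Lib.MP_e7d961_lc.Stm

/-!
Piece real: the code of the port graph realizes the port graph (`MP_e7d961_lc`).
-/

set_option autoImplicit false

namespace SDich

open Finset

private def real_d0 : Tp := (((false, 0), (0, 0), (false, false)), 0)

private theorem real_symm {W : Type} {k : ℕ} (P : PN W k) {w w' : W} (h : ∃ i, P.hd w i = w') :
    ∃ i, P.hd w' i = w := by
  obtain ⟨i, hi⟩ := h
  refine ⟨(P.rev (w, i)).2, ?_⟩
  have e : (w', (P.rev (w, i)).2) = P.rev (w, i) := by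
    rw [← hi]
    rfl
  unfold PN.hd
  rw [e, P.inv]

private theorem real_any (k : ℕ) (p : ℕ → Bool) :
    (List.range k).any p = true ↔ ∃ i : Fin k, p i = true := by
  rw [List.any_eq_true]
  constructor
  · rintro ⟨i, hi, h⟩
    exact ⟨⟨i, List.mem_range.1 hi⟩, h⟩
  · rintro ⟨i, h⟩
    exact ⟨i, List.mem_range.2 i.2, h⟩

theorem p_real : S_real := by
  intro hcode hhdt hverts n m H U nv cls hv hG hM hS
  obtain ⟨hnd, hmem, hsurj, hinj⟩ := hverts (m + 3) U.N nv cls.length
  obtain ⟨P, hP⟩ : ∃ P, P = U.PG ((instOf (m + 3) nv cls hv).M (m := m + 1)) hM := ⟨_, rfl⟩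
  have hhd := hhdt n m H U nv cls hv hG hM
  rw [← hP] at hS hhd
  obtain ⟨L, hL⟩ : ∃ L, L = verts (m + 3) U.N nv cls.length := ⟨_, rfl⟩
  rw [← hL] at hnd hmem hsurj
  have hch : ∀ a : Fin L.length,
      ∃ w : Cpy (Fin nv) (Fin cls.length) (m + 3) × Fin U.N, tup w = L.get a :=
    fun a => hsurj _ (List.get_mem L a)
  choose ψ hψ using hch
  have hbij : Function.Bijective ψ := by
    constructor
    · intro a b hab
      have h1 : L.get a = L.get b := by
        rw [← hψ a, ← hψ b, hab]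
      exact List.nodup_iff_injective_get.1 hnd h1
    · intro w
      obtain ⟨a, ha⟩ := List.mem_iff_get.1 (hmem w)
      refine ⟨a, hinj ?_⟩
      rw [hψ a, ha]
  have hpos : 0 < L.length := by
    have hc : 0 < cls.length := List.length_pos_of_ne_nil hG.1
    have h1 := hmem (Cpy.cl ⟨0, hc⟩, U.u)
    exact List.length_pos_of_mem h1
  obtain ⟨adj, hadj⟩ : ∃ adj : ℕ → ℕ → Bool, adj = fun a b =>
      adjT (m + 3) U.u (tabOf U) cls (L.getD a real_d0) (L.getD b real_d0) := ⟨_, rfl⟩
  have hcd : theCode (m + 3) U.N U.u (tabOf U) nv cls = codeG L.length adj := by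
    rw [hadj, hL]
    rfl
  obtain ⟨h1, h2, h3⟩ := hcode L.length adj hpos
  rw [hcd, ← hP]
  obtain ⟨φ, hφ⟩ : ∃ φ : Fin (numV (codeG L.length adj)) ≃
      Cpy (Fin nv) (Fin cls.length) (m + 3) × Fin U.N,
      ∀ a : Fin (numV (codeG L.length adj)), tup (φ a) = L.getD a real_d0 := by
    refine ⟨(finCongr h2).trans (Equiv.ofBijective ψ hbij), fun a => ?_⟩
    have ha : (a : ℕ) < L.length := by
      have := a.2
      omega
    rw [Equiv.trans_apply, Equiv.ofBijective_apply, hψ, List.getD_eq_getElem _ _ ha]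
    rfl
  have hadj' : ∀ a b : ℕ, adj a b =
      adjT (m + 3) U.u (tabOf U) cls (L.getD a real_d0) (L.getD b real_d0) := by
    intro a b
    rw [hadj]
  have key : ∀ a b : Fin (numV (codeG L.length adj)),
      adj a b = true ↔ ∃ i, P.hd (φ a) i = φ b := by
    intro a b
    rw [hadj' a b]
    unfold adjT
    rw [real_any, ← hφ a, ← hφ b]
    refine exists_congr fun i => ?_
    rw [decide_eq_true_iff, hhd (φ a) i]
    exact hinj.eq_iff
  refine ⟨h1, φ, (h3 h1).1, ?_⟩
  intro a b
  refine ((h3 h1).2 a b).trans ?_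
  constructor
  · rintro (⟨_, h⟩ | ⟨_, h⟩)
    · exact (key a b).1 h
    · exact real_symm P ((key b a).1 h)
  · intro h
    rcases Nat.lt_trichotomy (a : Fin (numV (codeG L.length adj))).1
      (b : Fin (numV (codeG L.length adj))).1 with hlt | heq | hgt
    · exact Or.inl ⟨hlt, (key a b).2 h⟩
    · exfalso
      have hab : a = b := Fin.ext heq
      obtain ⟨i, hi⟩ := h
      rw [hab] at hi
      exact hS.1 _ i hi
    · exact Or.inr ⟨hgt, (key b a).2 (real_symm P h)⟩

end SDich
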