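import Pool.Agent.Lib.MP_e7d961_lc.Stm

/-!
Piece [rigid]: a vertex whose different neighbours are separated by every colouring.
-/

namespace SDich

open Finset HerCo CookLevin

private theorem A_pos_iff {n k : ℕ} (H : PN (Fin n) k) (x y : Fin n) :
    0 < H.A x y ↔ ∃ i, H.hd x i = y := by
  unfold PN.A
  rw [Finset.card_pos]
  constructor
  · rintro ⟨i, hi⟩
    exact ⟨i, (Finset.mem_filter.1 hi).2⟩
  · rintro ⟨i, hi⟩
    exact ⟨i, Finset.mem_filter.2 ⟨Finset.mem_univ _, hi⟩⟩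

theorem p_rigid : S_rigid := by
  classical
  intro n k H hn
  -- closed nonempty sets of minimal size
  set P : Finset (Fin n) → Prop := fun S => S.Nonempty ∧ ∀ x ∈ S, ∀ i, H.hd x i ∈ S with hP
  have hex : ∃ S, P S := ⟨Finset.univ, ⟨⟨0, hn⟩, Finset.mem_univ _⟩, fun x _ i => Finset.mem_univ _⟩
  obtain ⟨S, hS, hmin⟩ : ∃ S, P S ∧ ∀ S', P S' → S.card ≤ S'.card := by
    obtain ⟨S, hS, h⟩ := Finset.exists_min_image (Finset.univ.filter P) Finset.card
      (by obtain ⟨S, hS⟩ := hex; exact ⟨S, Finset.mem_filter.2 ⟨Finset.mem_univ _, hS⟩⟩)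
    exact ⟨S, (Finset.mem_filter.1 hS).2, fun S' hS' =>
      h S' (Finset.mem_filter.2 ⟨Finset.mem_univ _, hS'⟩)⟩
  obtain ⟨x0, hx0⟩ := hS.1
  refine ⟨x0, ?_⟩
  intro g hg i j hij
  have himg : P (S.image g) := by
    refine ⟨hS.1.image g, ?_⟩
    intro y hy l
    obtain ⟨x, hx, rfl⟩ := Finset.mem_image.1 hy
    have h1 : 0 < H.A (g x) (H.hd (g x) l) := (A_pos_iff H _ _).2 ⟨l, rfl⟩
    rw [← hg x (H.hd (g x) l), Finset.card_pos] at h1
    obtain ⟨m, hm⟩ := h1
    rw [← (Finset.mem_filter.1 hm).2]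
    exact Finset.mem_image_of_mem g (hS.2 x hx m)
  have hcard : (S.image g).card = S.card :=
    le_antisymm Finset.card_image_le (hmin _ himg)
  have hinj : Set.InjOn g S := Finset.card_image_iff.1 hcard
  exact hinj (hS.2 x0 hx0 i) (hS.2 x0 hx0 j) hij

end SDich
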