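import Pool.Agent.Lib.MP_e7d961_lc.Stm

set_option autoImplicit false

namespace SDich

open Finset

section

variable {V : Type} {k : ℕ} {H : PN V k} {Ω : Type}

private theorem simp_hd_u (U : UK H) (M : Port Ω k → Port Ω k) (hM : ∀ p, M (M p) = p) (ω : Ω)
    (i : Fin k) : (U.PG M hM).hd (ω, U.u) i = U.pv (M (ω, true, i)) := by
  change (U.grev M ((ω, U.u), i)).1 = _
  simp [UK.grev, UK.pd]

private theorem simp_hd_n (U : UK H) (M : Port Ω k → Port Ω k) (hM : ∀ p, M (M p) = p) (ω : Ω)
    (i : Fin k) (κ : Fin U.N) (h1 : κ ≠ U.u) (h2 : κ = U.nb i U.u) :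
    (U.PG M hM).hd (ω, κ) i = U.pv (M (ω, false, i)) := by
  change (U.grev M ((ω, κ), i)).1 = _
  simp only [UK.grev]
  rw [if_neg h1, if_pos h2]
  rfl

private theorem simp_hd_o (U : UK H) (M : Port Ω k → Port Ω k) (hM : ∀ p, M (M p) = p) (ω : Ω)
    (i : Fin k) (κ : Fin U.N) (h1 : κ ≠ U.u) (h2 : κ ≠ U.nb i U.u) :
    (U.PG M hM).hd (ω, κ) i = (ω, U.nb i κ) := by
  change (U.grev M ((ω, κ), i)).1 = _
  simp only [UK.grev]
  rw [if_neg h1, if_neg h2]

private theorem simp_pv_false (U : UK H) (ω : Ω) (t : Fin k) :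
    U.pv (ω, false, t) = (ω, U.nb t U.u) := by
  simp [UK.pv]

private theorem simp_pv_true (U : UK H) (ω : Ω) (t : Fin k) :
    U.pv (ω, true, t) = (ω, U.u) := by
  simp [UK.pv]

end

theorem p_simp : S_simp := by
  intro V k H U Ω M hM h1 h2
  have hpv1 : ∀ p : Port Ω k, (U.pv p).1 = p.1 := fun p => rfl
  refine ⟨?_, ?_⟩
  · rintro ⟨ω, κ⟩ i h
    by_cases hu : κ = U.u
    · subst hu
      rw [simp_hd_u] at h
      rcases h1 (ω, true, i) with h3 | h3
      · apply h3
        rw [← hpv1, h]
      · rw [h3] at h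
        change U.pv (ω, false, i) = _ at h
        rw [simp_pv_false] at h
        exact U.nb_ne i U.u (congrArg Prod.snd h)
    · by_cases hn : κ = U.nb i U.u
      · rw [simp_hd_n U M hM ω i κ hu hn] at h
        rcases h1 (ω, false, i) with h3 | h3
        · apply h3
          rw [← hpv1, h]
        · rw [h3] at h
          change U.pv (ω, true, i) = _ at h
          rw [simp_pv_true] at h
          exact hu (congrArg Prod.snd h).symm
      · rw [simp_hd_o U M hM ω i κ hu hn] at h
        exact U.nb_ne i κ (congrArg Prod.snd h)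
  · rintro ⟨ω, κ⟩ i j h
    by_cases hu : κ = U.u
    · subst hu
      rw [simp_hd_u, simp_hd_u] at h
      have hinj : M (ω, true, i) = M (ω, true, j) → i = j := by
        intro h3
        have h4 := congrArg M h3
        rw [hM, hM] at h4
        exact congrArg (fun p : Port Ω k => p.2.2) h4
      have h5 := h2 (ω, true, i) (ω, true, j) rfl rfl rfl
      rcases hp : M (ω, true, i) with ⟨ω1, b1, t1⟩
      rcases hq : M (ω, true, j) with ⟨ω2, b2, t2⟩
      rw [hp, hq] at h hinj h5
      have h6 : ω1 = ω2 := congrArg Prod.fst h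
      subst h6
      cases b1 <;> cases b2
      · rw [simp_pv_false, simp_pv_false] at h
        have h7 := U.nb_inj t1 t2 U.u (congrArg Prod.snd h)
        subst h7
        exact hinj rfl
      · rw [simp_pv_false, simp_pv_true] at h
        exact absurd (congrArg Prod.snd h) (U.nb_ne t1 U.u)
      · rw [simp_pv_false, simp_pv_true] at h
        exact absurd (congrArg Prod.snd h).symm (U.nb_ne t2 U.u)
      · have h7 := h5 rfl rfl rfl
        exact congrArg (fun p : Port Ω k => p.2.2) h7
    · have key : ∀ i j : Fin k, κ = U.nb i U.u → κ ≠ U.nb j U.u →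
          (U.PG M hM).hd (ω, κ) i ≠ (U.PG M hM).hd (ω, κ) j := by
        intro i j hi hj h
        rw [simp_hd_n U M hM ω i κ hu hi, simp_hd_o U M hM ω j κ hu hj] at h
        rcases h1 (ω, false, i) with h3 | h3
        · apply h3
          rw [← hpv1, h]
        · rw [h3] at h
          change U.pv (ω, true, i) = _ at h
          rw [simp_pv_true] at h
          apply hj
          have h4 : U.u = U.nb j κ := congrArg Prod.snd h
          rw [h4, U.nb_nb]
      by_cases hi : κ = U.nb i U.u
      · by_cases hj : κ = U.nb j U.u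
        · exact U.nb_inj i j U.u (hi.symm.trans hj)
        · exact absurd h (key i j hi hj)
      · by_cases hj : κ = U.nb j U.u
        · exact absurd h.symm (key j i hj hi)
        · rw [simp_hd_o U M hM ω i κ hu hi, simp_hd_o U M hM ω j κ hu hj] at h
          exact U.nb_inj i j κ (congrArg Prod.snd h)

end SDich
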