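import Pool.Agent.Lib.MP_e7d961_lc.Stm

/-! From a rainbow colouring of the triples to a solution of the clauses. -/

namespace SDich

open Finset HerCo CookLevin

private theorem card_fr {α : Type} [DecidableEq α] {K : ℕ} (g : Fin K → α) (y : α) :
    (univ.filter fun i => g i = y).card = ((List.finRange K).map g).count y := by
  induction K with
  | zero => simp
  | succ K ih =>
    rw [List.finRange_succ, List.map_cons, List.count_cons, List.map_map, ← ih (g ∘ Fin.succ),
      card_filter, Fin.sum_univ_succ, ← card_filter, add_comm]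
    simp [beq_iff_eq]

private theorem map_getD {β : Type} {K : ℕ} (cl : List β) (d : β) (h : cl.length = K) :
    (List.finRange K).map (fun i : Fin K => cl.getD i d) = cl := by
  apply List.ext_getElem
  · simp [h]
  · intro i h1 h2
    simp [List.getD_eq_getElem?_getD, List.getElem?_eq_getElem h2]

private theorem card_cl {α β : Type} [DecidableEq α] {K : ℕ} (cl : List β) (d : β)
    (h : cl.length = K) (f : β → α) (y : α) :
    (univ.filter fun i : Fin K => f (cl.getD i d) = y).card = (cl.map f).count y := by
  rw [card_fr (fun i : Fin K => f (cl.getD i d)) y]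
  congr 1
  conv_rhs => rw [← map_getD cl d h]
  rw [List.map_map]
  rfl

/-- the signed value of a signed variable -/
private def ev {n : ℕ} (val : ℕ → Fin n × Fin n) (l : ℕ × Bool) : Fin n × Fin n :=
  sg l.2 (val l.1)

private theorem of_perm {n K : ℕ} (H : PN (Fin n) K) (val : ℕ → Fin n × Fin n)
    (cl : List (ℕ × Bool)) (hl : cl.length = K) (x : Fin n)
    (h : (cl.map (ev val)).Perm ((List.finRange K).map fun i => (x, H.hd x i))) :
    ∃ x, (∀ i : Fin K, (sg (cl.getD i (0, true)).2 (val (cl.getD i (0, true)).1)).1 = x) ∧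
    ∀ y, (univ.filter fun i : Fin K =>
      (sg (cl.getD i (0, true)).2 (val (cl.getD i (0, true)).1)).2 = y).card = H.A x y := by
  refine ⟨x, fun i => ?_, fun y => ?_⟩
  · have h1 : ev val (cl.getD i (0, true)) ∈ cl.map (ev val) := by
      apply List.mem_map_of_mem
      rw [List.getD_eq_getElem _ _ (by rw [hl]; exact i.2)]
      exact List.getElem_mem _
    rw [h.mem_iff, List.mem_map] at h1
    obtain ⟨j, _, hj⟩ := h1
    have : (ev val (cl.getD i (0, true))).1 = x := by rw [← hj]
    exact this
  · have h2 := (h.map Prod.snd).count_eq y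
    rw [List.map_map, List.map_map] at h2
    rw [card_cl cl (0, true) hl (fun l => (sg l.2 (val l.1)).2) y]
    refine Eq.trans ?_ (h2.trans ?_)
    · rfl
    · unfold PN.A
      rw [card_fr]
      rfl

private theorem two {k : ℕ} (a b : Fin (k + 3)) (h : a ≠ b) :
    ∃ σ : Equiv.Perm (Fin (k + 3)), σ 0 = a ∧ σ 1 = b := by
  have h01 : (0 : Fin (k + 3)) ≠ 1 := by
    intro h
    have := congrArg Fin.val h
    simp at this
  have hb : Equiv.swap 0 a b ≠ 0 := by
    intro h2
    apply h
    rw [← Equiv.swap_apply_self 0 a b, h2, Equiv.swap_apply_left]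
  refine ⟨(Equiv.swap 1 (Equiv.swap 0 a b)).trans (Equiv.swap 0 a), ?_, ?_⟩
  · rw [Equiv.trans_apply, Equiv.swap_apply_of_ne_of_ne h01 (Ne.symm hb), Equiv.swap_apply_left]
  · rw [Equiv.trans_apply, Equiv.swap_apply_left, Equiv.swap_apply_self]

private theorem three : ∀ x y z : Fin 3, x ≠ y → x ≠ z → y ≠ z →
    [x, y, z].Perm [0, 1, 2] := by
  decide

/-- the value of the variable of a dart -/
private def dval {n K : ℕ} (H : PN (Fin n) (K + 1)) (v : ℕ) (hv : v / (K + 1) < n) :
    Fin n × Fin n :=
  (⟨v / (K + 1), hv⟩, H.hd ⟨v / (K + 1), hv⟩ ⟨v % (K + 1), Nat.mod_lt _ (Nat.succ_pos _)⟩)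

private theorem idx_div {n K : ℕ} (d : Fin n × Fin (K + 1)) : idx d / (K + 1) = d.1 := by
  unfold idx
  rw [Nat.mul_comm, Nat.mul_add_div (Nat.succ_pos _), Nat.div_eq_of_lt d.2.2, Nat.add_zero]

private theorem idx_mod {n K : ℕ} (d : Fin n × Fin (K + 1)) : idx d % (K + 1) = d.2 := by
  unfold idx
  rw [Nat.mul_comm, Nat.mul_add_mod, Nat.mod_eq_of_lt d.2.2]

private theorem dval_idx {n K : ℕ} (H : PN (Fin n) (K + 1)) (d : Fin n × Fin (K + 1))
    (hv : idx d / (K + 1) < n) : dval H (idx d) hv = (d.1, H.hd d.1 d.2) := by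
  have h1 : (⟨idx d / (K + 1), hv⟩ : Fin n) = d.1 := Fin.ext (idx_div d)
  have h2 : (⟨idx d % (K + 1), Nat.mod_lt _ (Nat.succ_pos _)⟩ : Fin (K + 1)) = d.2 :=
    Fin.ext (idx_mod d)
  unfold dval
  rw [h1, h2]

private theorem idx_lt {n K : ℕ} (d : Fin n × Fin (K + 1)) : idx d < n * (K + 1) := by
  unfold idx
  have h1 := d.1.2
  have h2 := d.2.2
  calc d.1.1 * (K + 1) + d.2.1 < d.1.1 * (K + 1) + (K + 1) := by omega
    _ = (d.1.1 + 1) * (K + 1) := by ring
    _ ≤ n * (K + 1) := Nat.mul_le_mul_right _ h1

private theorem div_lt {n K v : ℕ} (h : v < n * (K + 1)) : v / (K + 1) < n :=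
  Nat.div_lt_of_lt_mul (by rw [Nat.mul_comm]; exact h)

/-- [tcmp] -/
theorem p_tcmp : S_tcmp := by
  intro n k H x0 pos tN T ρ hT hρ
  have hst : ∀ w : ℕ, ∃ s t : Equiv.Perm (Fin (k + 3)),
      s 0 = Fin.castLE (by omega) (ρ w) ∧ t 0 = 0 ∧ s 1 = t 1 := by
    intro w
    have h10 : (1 : Fin (k + 3)) ≠ 0 := by
      intro h
      have := congrArg Fin.val h
      simp at this
    have h20 : (2 : Fin (k + 3)) ≠ 0 := by
      intro h
      have h2 := congrArg Fin.val h
      have h3 : 2 % (k + 3) = 2 := Nat.mod_eq_of_lt (by omega)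
      simp [h3] at h2
    have h12 : (1 : Fin (k + 3)) ≠ 2 := by
      intro h
      have h2 := congrArg Fin.val h
      have h3 : 2 % (k + 3) = 2 := Nat.mod_eq_of_lt (by omega)
      simp [h3] at h2
    by_cases h : (Fin.castLE (by omega) (ρ w) : Fin (k + 3)) = 1
    · obtain ⟨s, hs1, hs2⟩ := two (Fin.castLE (by omega) (ρ w) : Fin (k + 3)) 2 (by rw [h]; exact h12)
      obtain ⟨t, ht1, ht2⟩ := two (0 : Fin (k + 3)) 2 h20.symm
      exact ⟨s, t, hs1, ht1, by rw [hs2, ht2]⟩
    · obtain ⟨s, hs1, hs2⟩ := two (Fin.castLE (by omega) (ρ w) : Fin (k + 3)) 1 h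
      obtain ⟨t, ht1, ht2⟩ := two (0 : Fin (k + 3)) 1 h10.symm
      exact ⟨s, t, hs1, ht1, by rw [hs2, ht2]⟩
  choose s t hs0 ht0 hst1 using hst
  obtain ⟨port, hport⟩ : ∃ port : ℕ → Fin (k + 3), ∀ v, port v =
    if v < n * (k + 3) + tN then pos (Fin.castLE (by omega) (ρ (v - n * (k + 3))))
    else if (v - n * (k + 3) - tN) % (2 * (k + 3)) < k + 3 then
      pos (s ((v - n * (k + 3) - tN) / (2 * (k + 3)))
        ⟨((v - n * (k + 3) - tN) % (2 * (k + 3)) + 1) % (k + 3), Nat.mod_lt _ (by omega)⟩)
    else pos (t ((v - n * (k + 3) - tN) / (2 * (k + 3)))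
        ⟨((v - n * (k + 3) - tN) % (2 * (k + 3)) - (k + 3) + 2) % (k + 3),
          Nat.mod_lt _ (by omega)⟩) := ⟨_, fun _ => rfl⟩
  obtain ⟨val, hval⟩ : ∃ val : ℕ → Fin n × Fin n, ∀ v, val v =
    if h : v < n * (k + 3) then dval H v (div_lt h) else (x0, H.hd x0 (port v)) :=
    ⟨_, fun _ => rfl⟩
  have hidx : ∀ d : Fin n × Fin (k + 3), val (idx d) = (d.1, H.hd d.1 d.2) := by
    intro d
    rw [hval, dif_pos (idx_lt d), dval_idx]
  have hhd : ∀ d : Fin n × Fin (k + 3), H.hd (H.rev d).1 (H.rev d).2 = d.1 := by
    intro d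
    unfold PN.hd
    rw [Prod.mk.eta, H.inv]
  have hrep : ∀ d : Fin n × Fin (k + 3), ev val (rep H d) = (d.1, H.hd d.1 d.2) := by
    intro d
    unfold ev rep
    by_cases hd : idx d ≤ idx (H.rev d)
    · simp only [min_eq_left hd, hd, decide_true, sg, if_true]
      exact hidx d
    · simp only [min_eq_right (not_le.1 hd).le, hd, decide_false, sg]
      rw [hidx, if_neg (by simp)]
      simp only [hhd]
      rfl
  have hrep' : ∀ d : Fin n × Fin (k + 3), ev val (rep' H d) = (d.1, H.hd d.1 d.2) := by
    intro d
    unfold rep'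
    split_ifs with h
    · unfold ev sg
      rw [if_neg (by simp)]
      simp only [hidx]
      unfold PN.hd
      rw [Prod.mk.eta, h]
    · exact hrep d
  have htv : ∀ w < tN, val (tv n (k + 3) w) = (x0, H.hd x0 (pos (Fin.castLE (by omega) (ρ w)))) := by
    intro w hw
    have h1 : ¬ (tv n (k + 3) w < n * (k + 3)) := by unfold tv; omega
    have h2 : tv n (k + 3) w < n * (k + 3) + tN := by unfold tv; omega
    have h3 : tv n (k + 3) w - n * (k + 3) = w := by unfold tv; omega
    rw [hval, dif_neg h1, hport, if_pos h2, h3]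
  have hlk : ∀ w j, j < 2 * (k + 3) → val (lk n (k + 3) tN w j) = (x0, H.hd x0
      (if j < k + 3 then pos (s w ⟨(j + 1) % (k + 3), Nat.mod_lt _ (by omega)⟩)
      else pos (t w ⟨(j - (k + 3) + 2) % (k + 3), Nat.mod_lt _ (by omega)⟩))) := by
    intro w j hj
    have h1 : ¬ (lk n (k + 3) tN w j < n * (k + 3)) := by unfold lk; omega
    have h2 : ¬ (lk n (k + 3) tN w j < n * (k + 3) + tN) := by unfold lk; omega
    have h3 : lk n (k + 3) tN w j - n * (k + 3) - tN = 2 * (k + 3) * w + j := by unfold lk; omega
    have h4 : (2 * (k + 3) * w + j) / (2 * (k + 3)) = w := by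
      rw [Nat.mul_add_div (by omega), Nat.div_eq_of_lt hj, Nat.add_zero]
    have h5 : (2 * (k + 3) * w + j) % (2 * (k + 3)) = j := by
      rw [Nat.mul_add_mod, Nat.mod_eq_of_lt hj]
    rw [hval, dif_neg h1, hport, if_neg h2]
    simp only [h3, h4, h5]
  have hperm : ∀ σ : Equiv.Perm (Fin (k + 3)),
      ((List.finRange (k + 3)).map fun i => (x0, H.hd x0 (σ i))).Perm
        ((List.finRange (k + 3)).map fun i => (x0, H.hd x0 i)) := by
    intro σ
    have h1 := (Equiv.Perm.map_finRange_perm σ).map (fun i => (x0, H.hd x0 i))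
    rw [List.map_map] at h1
    exact h1
  refine ⟨val, ⟨fun v _ => ?_, ?_⟩⟩
  · rw [hval]
    split_ifs with h
    · exact ⟨_, rfl⟩
    · exact ⟨_, rfl⟩
  intro cl hcl
  unfold clsH clsOf at hcl
  simp only [List.mem_append, List.mem_flatMap, List.mem_range, List.mem_map] at hcl
  rcases hcl with (hcl | ⟨w, hw, hcl⟩) | ⟨a, ha, rfl⟩
  · unfold constC at hcl
    simp only [List.mem_flatMap, List.mem_cons, List.not_mem_nil, or_false] at hcl
    obtain ⟨x, _, hcl⟩ := hcl
    rcases hcl with rfl | rfl
    · apply of_perm H val _ (by simp) x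
      rw [List.map_map]
      have : (ev val ∘ fun i => rep H (x, i)) = fun i => (x, H.hd x i) := by
        funext i
        exact hrep (x, i)
      rw [this]
    · apply of_perm H val _ (by simp) x
      rw [List.map_map]
      have : (ev val ∘ fun i => rep' H (x, i)) = fun i => (x, H.hd x i) := by
        funext i
        exact hrep' (x, i)
      rw [this]
  · simp only [List.mem_cons, List.not_mem_nil, or_false] at hcl
    rcases hcl with rfl | rfl
    · apply of_perm H val _ (by simp) x0
      refine List.Perm.trans (List.Perm.of_eq ?_) (hperm ((s w).trans pos))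
      apply List.ext_getElem
      · simp
      · intro i h1 h2
        simp only [List.length_map, List.length_finRange] at h2
        rcases i with _ | i
        · simp only [List.map_cons, List.getElem_cons_zero, List.getElem_map,
            List.getElem_finRange, Equiv.trans_apply]
          have e0 : (Fin.cast (List.length_finRange (n := k + 3)) ⟨0, by simp⟩ : Fin (k + 3)) = 0 := rfl
          unfold ev sg
          simp only [if_true]
          rw [htv w hw]
          rw [← hs0]
          rfl
        · simp only [List.map_cons, List.getElem_cons_succ, List.getElem_map,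
            List.getElem_finRange, Equiv.trans_apply, List.getElem_range]
          unfold ev sg
          simp only [if_true]
          rw [hlk w i (by omega), if_pos (by omega)]
          congr 5
          exact Nat.mod_eq_of_lt h2
    · apply of_perm H val _ (by simp) x0
      refine List.Perm.trans (List.Perm.of_eq ?_) (hperm ((t w).trans pos))
      apply List.ext_getElem
      · simp
      · intro i h1 h2
        simp only [List.length_map, List.length_finRange] at h2
        rcases i with _ | _ | i
        · simp only [List.map_cons, List.getElem_cons_zero, List.getElem_map,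
            List.getElem_finRange, Equiv.trans_apply]
          unfold w0
          rw [hrep]
          simp only
          have e0 : (Fin.cast (List.length_finRange (n := k + 3)) ⟨0, by simp⟩ : Fin (k + 3)) = 0 := rfl
          rw [e0, ht0]
        · simp only [List.map_cons, List.getElem_cons_succ, List.getElem_cons_zero,
            List.getElem_map, List.getElem_finRange, Equiv.trans_apply]
          unfold ev sg
          simp only [if_true]
          rw [hlk w 0 (by omega), if_pos (by omega)]
          have e1 : (⟨(0 + 1) % (k + 3), Nat.mod_lt _ (by omega)⟩ : Fin (k + 3)) = 1 := by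
            apply Fin.ext
            simp
          have e2 : (Fin.cast (List.length_finRange (n := k + 3)) ⟨0 + 1, by simp⟩ : Fin (k + 3)) = 1 := by
            apply Fin.ext
            simp
          rw [e1, e2, hst1]
        · simp only [List.map_cons, List.getElem_cons_succ, List.getElem_map,
            List.getElem_finRange, Equiv.trans_apply, List.getElem_range]
          unfold ev sg
          simp only [if_true]
          rw [hlk w (k + 3 + i) (by omega), if_neg (by omega)]
          congr 5
          simp only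
          rw [Nat.mod_eq_of_lt (by omega)]
          omega
  · obtain ⟨ha1, ha2, ha3⟩ := hT a ha
    obtain ⟨hr1, hr2, hr3⟩ := hρ a ha
    apply of_perm H val _ (by simp [rest0]) x0
    refine List.Perm.trans ?_ (hperm pos)
    have h1 := (three _ _ _ hr1 hr2 hr3).map (fun r : Fin 3 =>
      ((x0, H.hd x0 (pos (Fin.castLE (by omega) r))) : Fin n × Fin n))
    have h2 := h1.append_right ((List.finRange k).map fun j : Fin k =>
      ((x0, H.hd x0 (pos j.succ.succ.succ)) : Fin n × Fin n))
    have e1 : (List.map (ev val) ((tv n (k + 3) a.1, true) :: (tv n (k + 3) a.2.1, true) ::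
      (tv n (k + 3) a.2.2, true) :: rest0 H x0 pos)) =
      List.map (fun r : Fin 3 => ((x0, H.hd x0 (pos (Fin.castLE (by omega) r))) : Fin n × Fin n))
        [ρ a.1, ρ a.2.1, ρ a.2.2] ++ ((List.finRange k).map fun j : Fin k =>
      ((x0, H.hd x0 (pos j.succ.succ.succ)) : Fin n × Fin n)) := by
      simp only [List.map_cons, List.map_nil, List.cons_append, List.nil_append]
      have f1 : ∀ w < tN, ev val (tv n (k + 3) w, true) =
          (x0, H.hd x0 (pos (Fin.castLE (by omega) (ρ w)))) := by
        intro w hw
        unfold ev sg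
        simp only [if_true]
        exact htv w hw
      rw [f1 _ ha1, f1 _ ha2, f1 _ ha3]
      congr 3
      unfold rest0
      rw [List.map_map]
      apply List.map_congr_left
      intro j _
      simp only [Function.comp]
      rw [hrep]
      simp only
      congr 3
      apply Fin.ext
      simp
    have e2 : ((List.finRange (k + 3)).map fun i => ((x0, H.hd x0 (pos i)) : Fin n × Fin n)) =
      List.map (fun r : Fin 3 => ((x0, H.hd x0 (pos (Fin.castLE (by omega) r))) : Fin n × Fin n))
        [0, 1, 2] ++ ((List.finRange k).map fun j : Fin k =>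
      ((x0, H.hd x0 (pos j.succ.succ.succ)) : Fin n × Fin n)) := by
      simp only [List.finRange_succ, List.map_cons, List.map_map, List.map_nil, List.cons_append,
        List.nil_append]
      rfl
    rw [e1, e2]
    exact h2

end SDich
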