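import Pool.Agent.Lib.MP_e7d961_lc.Stm

/-!
Piece [tri1].
-/

namespace SDich

open Finset HerCo CookLevin

private theorem tri1_key : ∀ c x y : Fin 3, x ≠ y →
    c - x ≠ c - y ∧ c - x ≠ -((c - x) + (c - y)) ∧ c - y ≠ -((c - x) + (c - y)) := by decide

private theorem tri1_key2 : ∀ x : Fin 3,
    (0 : Fin 3) - x ≠ 1 - x ∧ (0 : Fin 3) - x ≠ 2 - x ∧ (1 : Fin 3) - x ≠ 2 - x := by decide

/-- residue -/
private def tri1_res (n : ℕ) : Fin 3 := ⟨n % 3, Nat.mod_lt _ (by norm_num)⟩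

/-- the colouring -/
private def tri1_rho (m : ℕ) (E : List (ℕ × ℕ)) (κ : ℕ → Fin 3) (n : ℕ) : Fin 3 :=
  if n < 3 * m then tri1_res n - κ (n / 3)
  else -((tri1_res (n - 3 * m) - κ (E.getD ((n - 3 * m) / 3) (0, 0)).1) +
    (tri1_res (n - 3 * m) - κ (E.getD ((n - 3 * m) / 3) (0, 0)).2))

private theorem tri1_low (m : ℕ) (E : List (ℕ × ℕ)) (κ : ℕ → Fin 3) (v c : ℕ) (hv : v < m)
    (hc : c < 3) : tri1_rho m E κ (3 * v + c) = tri1_res c - κ v := by
  unfold tri1_rho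
  rw [if_pos (by omega)]
  have h1 : (3 * v + c) / 3 = v := by omega
  have h2 : tri1_res (3 * v + c) = tri1_res c := by
    unfold tri1_res
    congr 1
    omega
  rw [h1, h2]

private theorem tri1_high (m : ℕ) (E : List (ℕ × ℕ)) (κ : ℕ → Fin 3) (e c : ℕ) (hc : c < 3) :
    tri1_rho m E κ (3 * m + 3 * e + c) = -((tri1_res c - κ (E.getD e (0, 0)).1) +
      (tri1_res c - κ (E.getD e (0, 0)).2)) := by
  unfold tri1_rho
  rw [if_neg (by omega)]
  have h1 : (3 * m + 3 * e + c - 3 * m) / 3 = e := by omega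
  have h2 : tri1_res (3 * m + 3 * e + c - 3 * m) = tri1_res c := by
    unfold tri1_res
    congr 1
    omega
  rw [h1, h2]

theorem p_tri1 : S_tri1 := by
  intro m E hE hκ
  obtain ⟨κ, hκ⟩ := hκ
  refine ⟨tri1_rho m E κ, ?_⟩
  intro a ha
  unfold tri at ha
  rcases List.mem_append.1 ha with h | h
  · obtain ⟨v, hv, rfl⟩ := List.mem_map.1 h
    rw [List.mem_range] at hv
    have e0 : tri1_rho m E κ (3 * v) = 0 - κ v := tri1_low m E κ v 0 hv (by norm_num)
    have e1 : tri1_rho m E κ (3 * v + 1) = 1 - κ v := tri1_low m E κ v 1 hv (by norm_num)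
    have e2 : tri1_rho m E κ (3 * v + 2) = 2 - κ v := tri1_low m E κ v 2 hv (by norm_num)
    simp only [e0, e1, e2]
    exact tri1_key2 (κ v)
  · obtain ⟨e, he, h⟩ := List.mem_flatMap.1 h
    obtain ⟨c, hc, rfl⟩ := List.mem_map.1 h
    rw [List.mem_range] at he hc
    have hmem : E.getD e (0, 0) ∈ E := by
      rw [List.getD_eq_getElem _ _ he]
      exact List.getElem_mem he
    have hlt := hE _ hmem
    have hne := hκ _ hmem
    simp only [tri1_low m E κ _ c hlt.1 hc, tri1_low m E κ _ c hlt.2 hc, tri1_high m E κ e c hc]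
    exact tri1_key (tri1_res c) _ _ hne

end SDich
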