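import Pool.Agent.Lib.MP_e7d961_lc.Stm

set_option autoImplicit false

/-!
# MP_e7d961_lc: bounds for the variables of the triples
-/

namespace SDich

theorem p_trib : S_trib := by
  intro m E hE t ht
  unfold tri at ht
  unfold triN
  rcases List.mem_append.1 ht with h | h
  · obtain ⟨v, hv, rfl⟩ := List.mem_map.1 h
    have hv' := List.mem_range.1 hv
    refine ⟨?_, ?_, ?_⟩ <;> simp only <;> omega
  · obtain ⟨e, he, h⟩ := List.mem_flatMap.1 h
    obtain ⟨c, hc, rfl⟩ := List.mem_map.1 h
    have he' := List.mem_range.1 he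
    have hc' := List.mem_range.1 hc
    have hmem : E.getD e (0, 0) ∈ E := by
      rw [List.getD_eq_getElem _ _ he']
      exact List.getElem_mem he'
    obtain ⟨h1, h2⟩ := hE _ hmem
    refine ⟨?_, ?_, ?_⟩ <;> simp only <;> omega

end SDich
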