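import Pool.Agent.Lib.MP_e7d961_lc.Stm

/-!
The clauses that describe `H` (`MP_e7d961_lc`, piece tsnd1).
-/

namespace SDich

open Finset

private theorem tsnd1_idx {n k : ℕ} {d d' : Fin n × Fin k} (h : idx d = idx d') : d = d' := by
  have hk : 0 < k := lt_of_le_of_lt (Nat.zero_le _) d.2.isLt
  unfold idx at h
  have h1 : (d.1 : ℕ) = d'.1 := by
    have e1 : ((d.1 : ℕ) * k + d.2) / k = d.1 := by
      rw [Nat.mul_comm, Nat.mul_add_div hk, Nat.div_eq_of_lt d.2.isLt, Nat.add_zero]
    have e2 : ((d'.1 : ℕ) * k + d'.2) / k = d'.1 := by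
      rw [Nat.mul_comm, Nat.mul_add_div hk, Nat.div_eq_of_lt d'.2.isLt, Nat.add_zero]
    rw [← e1, ← e2, h]
  have h2 : (d.2 : ℕ) = d'.2 := by
    rw [h1] at h
    exact Nat.add_left_cancel h
  exact Prod.ext (Fin.ext h1) (Fin.ext h2)

private theorem tsnd1_getD {n k : ℕ} (r : Fin n × Fin k → ℕ × Bool) (x : Fin n) (i : Fin k) :
    (((List.finRange k).map fun i => r (x, i)).getD i (0, true)) = r (x, i) := by
  rw [List.getD_eq_getElem?_getD, List.getElem?_map]
  simp

private theorem tsnd1_sg {V : Type} {a b : ℕ} (h : a ≠ b) (p : V × V) :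
    (sg (decide (a ≤ b)) p).2 = (sg (decide (b ≤ a)) p).1 := by
  rcases Nat.lt_or_gt_of_ne h with h1 | h1
  · have h2 : ¬ b ≤ a := Nat.not_le.2 h1
    have h3 : a ≤ b := h1.le
    simp [sg, h2, h3]
  · have h2 : ¬ a ≤ b := Nat.not_le.2 h1
    have h3 : b ≤ a := h1.le
    simp [sg, h2, h3]

theorem p_tsnd1 : S_tsnd1 := by
  intro n k H nv cls val hNC hcls hsol
  have hc1 : ∀ x : Fin n, ((List.finRange k).map fun i => rep H (x, i)) ∈ cls := fun x =>
    hcls _ (List.mem_flatMap.2 ⟨x, List.mem_finRange x, by simp⟩)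
  have hc2 : ∀ x : Fin n, ((List.finRange k).map fun i => rep' H (x, i)) ∈ cls := fun x =>
    hcls _ (List.mem_flatMap.2 ⟨x, List.mem_finRange x, by simp⟩)
  have h1 : ∀ x : Fin n, ∃ X : Fin n,
      (∀ i : Fin k, (sg (rep H (x, i)).2 (val (rep H (x, i)).1)).1 = X) ∧
      ∀ y, (univ.filter fun i : Fin k =>
        (sg (rep H (x, i)).2 (val (rep H (x, i)).1)).2 = y).card = H.A X y := by
    intro x
    obtain ⟨X, hX, hY⟩ := hsol.2 _ (hc1 x)
    refine ⟨X, fun i => ?_, fun y => ?_⟩
    · have := hX i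
      rw [tsnd1_getD (rep H) x i] at this
      exact this
    · have := hY y
      simp only [tsnd1_getD (rep H) x] at this
      exact this
  have h2 : ∀ x : Fin n, ∃ X : Fin n,
      ∀ i : Fin k, (sg (rep' H (x, i)).2 (val (rep' H (x, i)).1)).1 = X := by
    intro x
    obtain ⟨X, hX, _⟩ := hsol.2 _ (hc2 x)
    refine ⟨X, fun i => ?_⟩
    have := hX i
    rw [tsnd1_getD (rep' H) x i] at this
    exact this
  choose g hg1 hg2 using h1
  have key : ∀ x i, (sg (rep H (x, i)).2 (val (rep H (x, i)).1)).2 = g (H.hd x i) := by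
    intro x i
    by_cases hs : H.rev (x, i) = (x, i)
    · -- a semi-edge
      obtain ⟨X, hX⟩ := h2 x
      obtain ⟨i1, hi1⟩ : ∃ i1, H.hd x i1 ≠ x := by
        obtain ⟨a, b, hab⟩ := hNC x
        by_cases ha : H.hd x a = x
        · exact ⟨b, fun hb => hab (ha.trans hb.symm)⟩
        · exact ⟨a, ha⟩
      have hr1 : rep' H (x, i1) = rep H (x, i1) := by
        unfold rep'
        rw [if_neg]
        intro h
        exact hi1 (by unfold PN.hd; rw [h])
      have hXg : X = g x := by
        rw [← hX i1, hr1]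
        exact hg1 x i1
      have hhd : H.hd x i = x := by unfold PN.hd; rw [hs]
      have hr2 : rep' H (x, i) = (idx (x, i), false) := by
        unfold rep'
        rw [if_pos hs]
      have hr3 : rep H (x, i) = (idx (x, i), true) := by
        unfold rep
        rw [hs]
        simp
      have h3 := hX i
      rw [hr2, hXg] at h3
      rw [hr3, hhd]
      simpa [sg] using h3
    · have h3 := hg1 (H.rev (x, i)).1 (H.rev (x, i)).2
      have hinv : H.rev ((H.rev (x, i)).1, (H.rev (x, i)).2) = (x, i) := H.inv (x, i)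
      have hne : idx (x, i) ≠ idx (H.rev (x, i)) := fun h => hs (tsnd1_idx h).symm
      have h4 := tsnd1_sg hne (val (min (idx (x, i)) (idx (H.rev (x, i)))))
      have e1 : rep H (x, i) = (min (idx (x, i)) (idx (H.rev (x, i))),
          decide (idx (x, i) ≤ idx (H.rev (x, i)))) := rfl
      have e2 : rep H ((H.rev (x, i)).1, (H.rev (x, i)).2) =
          (min (idx (x, i)) (idx (H.rev (x, i))),
          decide (idx (H.rev (x, i)) ≤ idx (x, i))) := by
        unfold rep
        rw [hinv, Nat.min_comm]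
      rw [e2] at h3
      rw [e1]
      exact h4.trans h3
  refine ⟨g, fun x y => ?_, fun x i => Prod.ext (hg1 x i) (key x i)⟩
  rw [← hg2 x y]
  refine congrArg Finset.card (Finset.filter_congr fun i _ => ?_)
  rw [key x i]

end SDich
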