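import Pool.Agent.Lib.MP_e7d961_lc.Stm

/-! From a solution of the clauses to a choice of one variable of every triple. -/

namespace SDich

open Finset HerCo CookLevin

private theorem card_fr {α : Type} [DecidableEq α] {K : ℕ} (g : Fin K → α) (y : α) :
    (univ.filter fun i => g i = y).card = ((List.finRange K).map g).count y := by
  induction K with
  | zero => simp
  | succ K ih =>
    rw [List.finRange_succ, List.map_cons, List.count_cons, List.map_map, ← ih (g ∘ Fin.succ),
      card_filter, Fin.sum_univ_succ, ← card_filter, add_comm]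
    simp [beq_iff_eq]

private theorem map_getD {β : Type} {K : ℕ} (cl : List β) (d : β) (h : cl.length = K) :
    (List.finRange K).map (fun i : Fin K => cl.getD i d) = cl := by
  apply List.ext_getElem
  · simp [h]
  · intro i h1 h2
    simp [List.getD_eq_getElem?_getD, List.getElem?_eq_getElem h2]

private theorem card_cl {α β : Type} [DecidableEq α] {K : ℕ} (cl : List β) (d : β)
    (h : cl.length = K) (f : β → α) (y : α) :
    (univ.filter fun i : Fin K => f (cl.getD i d) = y).card = (cl.map f).count y := by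
  rw [card_fr (fun i : Fin K => f (cl.getD i d)) y]
  congr 1
  conv_rhs => rw [← map_getD cl d h]
  rw [List.map_map]
  rfl

private theorem all_cl {β : Type} {K : ℕ} (cl : List β) (d : β)
    (h : cl.length = K) (P : β → Prop) (hP : ∀ i : Fin K, P (cl.getD i d)) : ∀ l ∈ cl, P l := by
  intro l hl
  rw [← map_getD cl d h, List.mem_map] at hl
  obtain ⟨i, _, rfl⟩ := hl
  exact hP i

private theorem clause {n K : ℕ} {H : PN (Fin n) K} {nv : ℕ} {cls : List (List (ℕ × Bool))}
    {val : ℕ → Fin n × Fin n} (h : LSol H nv cls val) (cl : List (ℕ × Bool)) (hc : cl ∈ cls)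
    (hl : cl.length = K) : ∃ x, (∀ l ∈ cl, (sg l.2 (val l.1)).1 = x) ∧
      ∀ y, (cl.map fun l => (sg l.2 (val l.1)).2).count y = H.A x y := by
  obtain ⟨x, hx, hy⟩ := h.2 cl hc
  refine ⟨x, all_cl cl (0, true) hl (fun l => (sg l.2 (val l.1)).1 = x) hx, fun y => ?_⟩
  rw [← hy y, ← card_cl cl (0, true) hl (fun l => (sg l.2 (val l.1)).2) y]

private theorem one_of {α : Type} [DecidableEq α] (e1 e2 e3 b0 b1 b2 : α) (h0 : b2 ≠ b0)
    (h1 : b2 ≠ b1) (h : [e1, e2, e3].count b2 = [b0, b1, b2].count b2) :
    One (decide (e1 = b2)) (decide (e2 = b2)) (decide (e3 = b2)) := by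
  have h2 : [b0, b1, b2].count b2 = 1 := by
    simp [h0.symm, h1.symm]
  rw [h2] at h
  simp only [List.count_cons, List.count_nil, beq_iff_eq] at h
  unfold One
  by_cases q1 : e1 = b2 <;> by_cases q2 : e2 = b2 <;> by_cases q3 : e3 = b2 <;>
    simp [q1, q2, q3] at h ⊢

/-- [tsnd2] -/
theorem p_tsnd2 : S_tsnd2 := by
  intro hS n k H x0 pos tN T val hnc hrig h20 h21 hT hL
  obtain ⟨g, hg, hgr⟩ := hS n (k + 3) H _ _ val hnc (by
    intro cl hcl
    unfold clsH clsOf
    simp only [List.mem_append]
    exact Or.inl (Or.inl hcl)) hL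
  have hri := hrig g hg
  have hb20 : g (H.hd x0 (pos 2)) ≠ g (H.hd x0 (pos 0)) := fun h => h20 (hri _ _ h)
  have hb21 : g (H.hd x0 (pos 2)) ≠ g (H.hd x0 (pos 1)) := fun h => h21 (hri _ _ h)
  -- the values of `tv w` start at `g x0`
  have hst : ∀ w < tN, (val (tv n (k + 3) w)).1 = g x0 := by
    intro w hw
    have m1 : ((tv n (k + 3) w, true) :: (List.range (k + 3 - 1)).map fun j =>
        (lk n (k + 3) tN w j, true)) ∈ clsH H x0 pos tN T := by
      unfold clsH clsOf
      simp only [List.mem_append, List.mem_flatMap, List.mem_range]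
      refine Or.inl (Or.inr ⟨w, hw, ?_⟩)
      simp
    have m2 : (w0 H x0 pos :: (lk n (k + 3) tN w 0, true) :: (List.range (k + 3 - 2)).map fun j =>
        (lk n (k + 3) tN w (k + 3 + j), true)) ∈ clsH H x0 pos tN T := by
      unfold clsH clsOf
      simp only [List.mem_append, List.mem_flatMap, List.mem_range]
      refine Or.inl (Or.inr ⟨w, hw, ?_⟩)
      simp
    obtain ⟨x1, hx1, _⟩ := clause hL _ m1 (by simp)
    obtain ⟨x2, hx2, _⟩ := clause hL _ m2 (by simp)
    have e1 := hx1 (tv n (k + 3) w, true) (by simp)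
    have e2 := hx1 (lk n (k + 3) tN w 0, true)
      (List.mem_cons_of_mem _ (List.mem_map.2 ⟨0, by simp, rfl⟩))
    have e3 := hx2 (lk n (k + 3) tN w 0, true) (by simp)
    have e4 := hx2 (w0 H x0 pos) (by simp)
    have e5 : sg (w0 H x0 pos).2 (val (w0 H x0 pos).1) = (g x0, g (H.hd x0 (pos 0))) :=
      hgr x0 (pos 0)
    rw [e5] at e4
    simp only [sg, if_true] at e1 e2 e3
    rw [e1, ← e2, e3, ← e4]
  refine ⟨fun w => decide ((val (tv n (k + 3) w)).2 = g (H.hd x0 (pos 2))), ?_⟩
  intro a ha
  obtain ⟨ha1, ha2, ha3⟩ := hT a ha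
  have m3 : ((tv n (k + 3) a.1, true) :: (tv n (k + 3) a.2.1, true) ::
      (tv n (k + 3) a.2.2, true) :: rest0 H x0 pos) ∈ clsH H x0 pos tN T := by
    unfold clsH clsOf
    simp only [List.mem_append, List.mem_map]
    exact Or.inr ⟨a, ha, rfl⟩
  obtain ⟨x3, hx3, hc3⟩ := clause hL _ m3 (by simp [rest0])
  have e6 : x3 = g x0 := by
    have := hx3 (tv n (k + 3) a.1, true) (by simp)
    simp only [sg, if_true] at this
    rw [← this, hst _ ha1]
  subst e6
  apply one_of _ _ _ (g (H.hd x0 (pos 0))) (g (H.hd x0 (pos 1))) _ hb20 hb21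
  have e7 := hc3 (g (H.hd x0 (pos 2)))
  rw [← hg x0] at e7
  have e8 : (univ.filter fun i => g (H.hd x0 i) = g (H.hd x0 (pos 2))).card =
      (univ.filter fun i => g (H.hd x0 (pos i)) = g (H.hd x0 (pos 2))).card := by
    symm
    apply card_bij (fun i _ => pos i)
    · intro i hi
      simpa using hi
    · intro i _ j _ hij
      exact pos.injective hij
    · intro j hj
      exact ⟨pos.symm j, by simpa using hj, by simp⟩
  rw [e8, card_fr (fun i => g (H.hd x0 (pos i)))] at e7
  have e9 : (rest0 H x0 pos).map (fun l => (sg l.2 (val l.1)).2) =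
      (List.finRange k).map fun j => g (H.hd x0 (pos j.succ.succ.succ)) := by
    unfold rest0
    rw [List.map_map]
    apply List.map_congr_left
    intro j _
    simp only [Function.comp]
    rw [hgr]
    simp only
    congr 3
    apply Fin.ext
    simp
  simp only [List.map_cons, e9, List.finRange_succ, List.map_map] at e7
  simp only [List.count_cons, sg, if_true, beq_iff_eq, Function.comp_def] at e7
  simp only [List.count_cons, List.count_nil, beq_iff_eq]
  have f2 : (if g (H.hd x0 (pos 2)) = g (H.hd x0 (pos 2)) then 1 else 0 : ℕ) =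
      (if True then 1 else 0) := by simp
  have f0 : ((0 : Fin (k + 2)).succ : Fin (k + 3)) = 1 := rfl
  have f1 : ((0 : Fin (k + 1)).succ.succ : Fin (k + 3)) = 2 := rfl
  rw [f0, f1] at e7
  simp only [if_true] at e7 ⊢
  omega

end SDich
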