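import Pool.Agent.Lib.MP_e7d961_lc.Stm

/-!
The universal graph (`MP_e7d961_lc`, piece uk).
-/

namespace SDich

open Finset HerCo CookLevin

private theorem theta_theta {V : Type} {k : ℕ} (H : PN V k) (i : Fin k) (F : Fr V k) :
    H.theta i (H.theta i F) = F := by
  obtain ⟨x, π⟩ := F
  have h1 : PN.dart (H.theta i (x, π)) i = H.rev (x, π i) := by
    simp [PN.dart, PN.theta]
  have h2 : H.rev (PN.dart (H.theta i (x, π)) i) = (x, π i) := by
    rw [h1, H.inv]
  have h3 : (H.theta i (x, π)).2 i = (H.rev (x, π i)).2 := by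
    have := congrArg Prod.snd h1
    simpa [PN.dart] using this
  have h4 : H.theta i (H.theta i (x, π)) =
      ((H.rev (PN.dart (H.theta i (x, π)) i)).1,
        Equiv.swap ((H.theta i (x, π)).2 i) (H.rev (PN.dart (H.theta i (x, π)) i)).2 *
          (H.theta i (x, π)).2) := rfl
  rw [h4, h2, h3]
  have h5 : (H.theta i (x, π)).2 = Equiv.swap (π i) (H.rev (x, π i)).2 * π := rfl
  rw [h5, Equiv.swap_comm (H.rev (x, π i)).2 (π i), ← mul_assoc, Equiv.swap_mul_self, one_mul]

theorem p_uk : S_uk := by
  intro V _ k H
  classical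
  let W := (Fr V k → Fr V k) × (Fin k → Bool)
  have : Finite (Fr V k) := inferInstanceAs (Finite (V × Equiv.Perm (Fin k)))
  have hW : Finite W := inferInstanceAs (Finite ((Fr V k → Fr V k) × (Fin k → Bool)))
  obtain ⟨N, ⟨e⟩⟩ := Finite.exists_equiv_fin W
  let nbW : Fin k → W → W := fun i w =>
    (fun p => H.theta i (w.1 p), Function.update w.2 i (!(w.2 i)))
  have hnn : ∀ i w, nbW i (nbW i w) = w := by
    intro i w
    obtain ⟨τ, b⟩ := w
    simp only [nbW, theta_theta, Function.update_self, Bool.not_not, Function.update_idem,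
      Function.update_eq_self]
  have hb : ∀ i w, (nbW i w).2 i = !(w.2 i) := by
    intro i w
    simp [nbW]
  have hb' : ∀ i j w, j ≠ i → (nbW i w).2 j = w.2 j := by
    intro i j w h
    simp [nbW, Function.update_of_ne h]
  exact ⟨{
    N := N
    nb := fun i κ => e (nbW i (e.symm κ))
    nb_nb := by
      intro i κ
      simp only [Equiv.symm_apply_apply, hnn, Equiv.apply_symm_apply]
    nb_ne := by
      intro i κ h
      have h1 : nbW i (e.symm κ) = e.symm κ := e.injective (by rw [Equiv.apply_symm_apply]; exact h)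
      have h2 := hb i (e.symm κ)
      rw [h1] at h2
      cases h3 : (e.symm κ).2 i <;> simp [h3] at h2
    nb_inj := by
      intro i j κ h
      by_contra hij
      have h1 : nbW i (e.symm κ) = nbW j (e.symm κ) := e.injective h
      have h2 := hb i (e.symm κ)
      rw [h1, hb' j i _ hij] at h2
      cases h3 : (e.symm κ).2 i <;> simp [h3] at h2
    u := e (id, fun _ => false)
    F := fun p κ => (e.symm κ).1 p
    F_nb := by
      intro p i κ
      simp only [Equiv.symm_apply_apply, nbW]
    F_u := by
      intro p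
      simp
    F_onto := by
      intro p x
      exact ⟨e (fun _ => (x, 1), fun _ => false), by simp⟩ }⟩

end SDich
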