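import Pool.Agent.Lib.MP_e7d961_lc.Stm

/-!
# MP_e7d961_lc : [SD verts] the list of the names of the vertices
-/

set_option autoImplicit false

namespace SDich

private theorem verts_nodup_flatMap {α β : Type} {l : List α} {f : α → List β} (key : β → α)
    (hl : l.Nodup) (hf : ∀ a, (f a).Nodup) (hk : ∀ a, ∀ b ∈ f a, key b = a) :
    (l.flatMap f).Nodup := by
  rw [List.nodup_flatMap]
  refine ⟨fun a _ => hf a, hl.imp fun {a b} hab => ?_⟩
  intro x hx hy
  exact hab ((hk a x hx).symm.trans (hk b x hy))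

private theorem verts_nodup (k N nv C : ℕ) : (verts k N nv C).Nodup := by
  unfold verts
  rw [List.nodup_append]
  refine ⟨?_, ?_, ?_⟩
  · refine verts_nodup_flatMap (fun t => t.1.2.1.1) List.nodup_range (fun c => ?_) ?_
    · refine List.Nodup.map ?_ List.nodup_range
      intro a b h
      simpa using h
    · intro c t ht
      rw [List.mem_map] at ht
      obtain ⟨κ, _, rfl⟩ := ht
      rfl
  · refine verts_nodup_flatMap (fun t => t.1.1.2) List.nodup_range (fun v => ?_) ?_
    · refine verts_nodup_flatMap (fun t => t.1.2.1.1) List.nodup_range (fun c => ?_) ?_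
      · refine verts_nodup_flatMap (fun t => t.1.2.1.2) List.nodup_range (fun i => ?_) ?_
        · refine verts_nodup_flatMap (fun t => t.1.2.2) (by decide) (fun ab => ?_) ?_
          · refine List.Nodup.map ?_ List.nodup_range
            intro a b h
            simpa using h
          · intro ab t ht
            rw [List.mem_map] at ht
            obtain ⟨κ, _, rfl⟩ := ht
            rfl
        · intro i t ht
          rw [List.mem_flatMap] at ht
          obtain ⟨ab, _, ht⟩ := ht
          rw [List.mem_map] at ht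
          obtain ⟨κ, _, rfl⟩ := ht
          rfl
      · intro c t ht
        rw [List.mem_flatMap] at ht
        obtain ⟨i, _, ht⟩ := ht
        rw [List.mem_flatMap] at ht
        obtain ⟨ab, _, ht⟩ := ht
        rw [List.mem_map] at ht
        obtain ⟨κ, _, rfl⟩ := ht
        rfl
    · intro v t ht
      rw [List.mem_flatMap] at ht
      obtain ⟨c, _, ht⟩ := ht
      rw [List.mem_flatMap] at ht
      obtain ⟨i, _, ht⟩ := ht
      rw [List.mem_flatMap] at ht
      obtain ⟨ab, _, ht⟩ := ht
      rw [List.mem_map] at ht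
      obtain ⟨κ, _, rfl⟩ := ht
      rfl
  · intro t ht t' ht' e
    subst e
    rw [List.mem_flatMap] at ht ht'
    obtain ⟨c, _, ht⟩ := ht
    rw [List.mem_map] at ht
    obtain ⟨κ, _, rfl⟩ := ht
    obtain ⟨v, _, ht'⟩ := ht'
    rw [List.mem_flatMap] at ht'
    obtain ⟨c', _, ht'⟩ := ht'
    rw [List.mem_flatMap] at ht'
    obtain ⟨i, _, ht'⟩ := ht'
    rw [List.mem_flatMap] at ht'
    obtain ⟨ab, _, ht'⟩ := ht'
    rw [List.mem_map] at ht'
    obtain ⟨κ', _, h⟩ := ht'
    simp at h

theorem p_verts : S_verts := by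
  intro k N nv C
  refine ⟨verts_nodup k N nv C, ?_, ?_, ?_⟩
  · rintro ⟨w, κ⟩
    unfold verts
    rw [List.mem_append]
    cases w with
    | cl c =>
      left
      rw [List.mem_flatMap]
      refine ⟨c.1, List.mem_range.2 c.2, ?_⟩
      rw [List.mem_map]
      exact ⟨κ.1, List.mem_range.2 κ.2, rfl⟩
    | q v s a b =>
      right
      rw [List.mem_flatMap]
      refine ⟨v.1, List.mem_range.2 v.2, ?_⟩
      rw [List.mem_flatMap]
      refine ⟨s.1.1, List.mem_range.2 s.1.2, ?_⟩
      rw [List.mem_flatMap]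
      refine ⟨s.2.1, List.mem_range.2 s.2.2, ?_⟩
      rw [List.mem_flatMap]
      refine ⟨(a, b), by cases a <;> cases b <;> simp, ?_⟩
      rw [List.mem_map]
      exact ⟨κ.1, List.mem_range.2 κ.2, rfl⟩
  · intro t ht
    unfold verts at ht
    rw [List.mem_append, List.mem_flatMap, List.mem_flatMap] at ht
    rcases ht with ⟨c, hc, ht⟩ | ⟨v, hv, ht⟩
    · rw [List.mem_map] at ht
      obtain ⟨κ, hκ, rfl⟩ := ht
      exact ⟨(.cl ⟨c, List.mem_range.1 hc⟩, ⟨κ, List.mem_range.1 hκ⟩), rfl⟩
    · rw [List.mem_flatMap] at ht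
      obtain ⟨c, hc, ht⟩ := ht
      rw [List.mem_flatMap] at ht
      obtain ⟨i, hi, ht⟩ := ht
      rw [List.mem_flatMap] at ht
      obtain ⟨⟨a, b⟩, _, ht⟩ := ht
      rw [List.mem_map] at ht
      obtain ⟨κ, hκ, rfl⟩ := ht
      exact ⟨(.q ⟨v, List.mem_range.1 hv⟩ (⟨c, List.mem_range.1 hc⟩, ⟨i, List.mem_range.1 hi⟩) a b,
        ⟨κ, List.mem_range.1 hκ⟩), rfl⟩
  · rintro ⟨w, κ⟩ ⟨w', κ'⟩ h
    unfold tup at h
    rw [Prod.mk.injEq] at h
    obtain ⟨h1, h2⟩ := h
    have h3 : κ = κ' := Fin.ext h2
    subst h3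
    cases w with
    | cl c =>
      cases w' with
      | cl c' =>
        simp only [cname, Prod.mk.injEq] at h1
        have : c = c' := Fin.ext h1.2.1.1
        subst this
        rfl
      | q v s a b => simp [cname] at h1
    | q v s a b =>
      cases w' with
      | cl c' => simp [cname] at h1
      | q v' s' a' b' =>
        obtain ⟨s1, s2⟩ := s
        obtain ⟨s1', s2'⟩ := s'
        simp only [cname, Prod.mk.injEq] at h1
        obtain ⟨⟨_, e1⟩, ⟨e2, e3⟩, e4, e5⟩ := h1
        have e1' : v = v' := Fin.ext e1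
        have e2' : s1 = s1' := Fin.ext e2
        have e3' : s2 = s2' := Fin.ext e3
        subst e1' e2' e3' e4 e5
        rfl

end SDich
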