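import Pool.Agent.Lib.MP_e7d961_lc.Stm

/-!
Piece `dcov`: regular bipartite graphs cover the dipole.
-/

namespace SDich

open Finset

private theorem dcov_dipole (H : Gr) (k : ℕ) (hD : H.Dipole) (hR : H.Regular k) :
    ∃ x y : H.V, x ≠ y ∧ (∀ e, H.ends e = {x, y}) ∧ Nonempty (Fin k ≃ H.E) := by
  obtain ⟨hc, he⟩ := hD
  obtain ⟨x, y, hxy, huniv⟩ := Finset.card_eq_two.1 (by simpa using hc : (univ : Finset H.V).card = 2)
  have hends : ∀ e, H.ends e = {x, y} := by
    intro e
    obtain ⟨h1, h2⟩ := he e
    obtain ⟨a, b, hab⟩ := Multiset.card_eq_two.1 h1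
    have hne : a ≠ b := by
      intro h
      subst h
      rw [hab] at h2
      simp at h2
    have ha : a ∈ ({x, y} : Finset H.V) := huniv ▸ mem_univ a
    have hb : b ∈ ({x, y} : Finset H.V) := huniv ▸ mem_univ b
    simp only [mem_insert, mem_singleton] at ha hb
    rcases ha with rfl | rfl
    · rcases hb with rfl | rfl
      · exact absurd rfl hne
      · exact hab
    · rcases hb with rfl | rfl
      · rw [hab]; exact Multiset.pair_comm _ _
      · exact absurd rfl hne
  refine ⟨x, y, hxy, hends, ?_⟩
  have hdeg := hR x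
  unfold Gr.deg at hdeg
  have : ∀ e ∈ (univ : Finset H.E), (H.ends e).count x = 1 := by
    intro e _
    rw [hends e]
    simp [hxy]
  rw [Finset.sum_congr rfl this] at hdeg
  simp only [sum_const, smul_eq_mul, mul_one] at hdeg
  exact ⟨(Fintype.equivFinOfCardEq (by simpa using hdeg)).symm⟩

theorem p_dcov : S_dcov := by
  classical
  intro hmatch hkonig G H k hk hne hD hR hB
  obtain ⟨x, y, hxy, hends, ⟨ψ⟩⟩ := dcov_dipole H k hD hR
  obtain ⟨⟨side, hside⟩, hreg⟩ := hB
  choose a b ha hb hab using hside
  let l : G.E → {v : G.V // side v = true} := fun e => ⟨a e, ha e⟩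
  let r : G.E → {v : G.V // side v = false} := fun e => ⟨b e, hb e⟩
  have hcount1 : ∀ (v : {v : G.V // side v = true}) (e : G.E),
      (G.ends e).count v.1 = if l e = v then 1 else 0 := by
    intro v e
    rw [hab e]
    have h2 : v.1 ≠ b e := by
      intro h
      have := v.2
      rw [h, hb e] at this
      exact absurd this (by simp)
    have h3 : (l e = v) ↔ (v.1 = a e) := by
      constructor
      · intro h; rw [← h]
      · intro h; exact Subtype.ext h.symm
    by_cases h4 : v.1 = a e
    · rw [if_pos (h3.2 h4)]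
      rw [show ({a e, b e} : Multiset G.V) = a e ::ₘ {b e} from rfl, Multiset.count_cons,
        Multiset.count_singleton, if_neg h2, if_pos h4]
    · rw [if_neg (fun h => h4 (h3.1 h))]
      rw [show ({a e, b e} : Multiset G.V) = a e ::ₘ {b e} from rfl, Multiset.count_cons,
        Multiset.count_singleton, if_neg h2, if_neg h4]
  have hcount2 : ∀ (v : {v : G.V // side v = false}) (e : G.E),
      (G.ends e).count v.1 = if r e = v then 1 else 0 := by
    intro v e
    rw [hab e]
    have h2 : v.1 ≠ a e := by
      intro h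
      have := v.2
      rw [h, ha e] at this
      exact absurd this (by simp)
    have h3 : (r e = v) ↔ (v.1 = b e) := by
      constructor
      · intro h; rw [← h]
      · intro h; exact Subtype.ext h.symm
    by_cases h4 : v.1 = b e
    · rw [if_pos (h3.2 h4)]
      rw [show ({a e, b e} : Multiset G.V) = a e ::ₘ {b e} from rfl, Multiset.count_cons,
        Multiset.count_singleton, if_neg h2, if_pos h4]
    · rw [if_neg (fun h => h4 (h3.1 h))]
      rw [show ({a e, b e} : Multiset G.V) = a e ::ₘ {b e} from rfl, Multiset.count_cons,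
        Multiset.count_singleton, if_neg h2, if_neg h4]
  obtain ⟨c, hc1, hc2⟩ := hkonig hmatch {v : G.V // side v = true} {v : G.V // side v = false} G.E
    l r k (by
      intro v
      have h := hreg v.1
      unfold Gr.deg at h
      rw [Finset.sum_congr rfl (fun e _ => hcount1 v e)] at h
      rw [← h, Finset.card_filter])
    (by
      intro v
      have h := hreg v.1
      unfold Gr.deg at h
      rw [Finset.sum_congr rfl (fun e _ => hcount2 v e)] at h
      rw [← h, Finset.card_filter])
  have edge1 : ∀ (v : G.V), side v = true → ∀ i, ∃ e, a e = v ∧ c e = i := by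
    intro v hv i
    have h := hc1 ⟨v, hv⟩ i
    obtain ⟨e, he⟩ := Finset.card_pos.1 (by rw [h]; exact one_pos)
    simp only [mem_filter, mem_univ, true_and] at he
    exact ⟨e, congrArg Subtype.val he.1, he.2⟩
  have edge2 : ∀ (v : G.V), side v = false → ∀ i, ∃ e, b e = v ∧ c e = i := by
    intro v hv i
    have h := hc2 ⟨v, hv⟩ i
    obtain ⟨e, he⟩ := Finset.card_pos.1 (by rw [h]; exact one_pos)
    simp only [mem_filter, mem_univ, true_and] at he
    exact ⟨e, congrArg Subtype.val he.1, he.2⟩
  obtain ⟨v0⟩ := hne
  have edge : ∀ i, ∃ e, c e = i := by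
    intro i
    cases hv : side v0
    · obtain ⟨e, _, he⟩ := edge2 v0 hv i; exact ⟨e, he⟩
    · obtain ⟨e, _, he⟩ := edge1 v0 hv i; exact ⟨e, he⟩
  refine ⟨fun v => if side v = true then x else y, fun e => ψ (c e), ?_, ?_, ?_, ?_⟩
  · intro z
    obtain ⟨e, _⟩ := edge ⟨0, hk⟩
    have hz : z = x ∨ z = y := by
      have h2 : Fintype.card H.V = 2 := hD.1
      by_contra hcon
      push Not at hcon
      have h3 : ({x, y, z} : Finset H.V).card = 3 := by
        rw [Finset.card_insert_of_notMem, Finset.card_insert_of_notMem, Finset.card_singleton]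
        · simp only [mem_singleton]; exact fun h => hcon.2 h.symm
        · simp only [mem_insert, mem_singleton, not_or]
          exact ⟨hxy, fun h => hcon.1 h.symm⟩
      have h4 := Finset.card_le_univ ({x, y, z} : Finset H.V)
      omega
    rcases hz with rfl | rfl
    · exact ⟨a e, by simp [ha e]⟩
    · exact ⟨b e, by simp [hb e]⟩
  · intro h
    obtain ⟨e, he⟩ := edge (ψ.symm h)
    exact ⟨e, by simp [he]⟩
  · intro e
    left
    rw [hab e, hends]
    simp [ha e, hb e]
  · intro v h
    have hrhs : (H.ends h).count (if side v = true then x else y) = 1 := by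
      rw [hends h]
      split_ifs
      · simp [hxy]
      · rw [show ({x, y} : Multiset H.V) = x ::ₘ {y} from rfl, Multiset.count_cons,
          Multiset.count_singleton, if_pos rfl, if_neg (fun h => hxy h.symm)]
    show _ = (H.ends h).count (if side v = true then x else y)
    rw [hrhs]
    cases hv : side v
    · have h1 := hc2 ⟨v, hv⟩ (ψ.symm h)
      rw [← h1, Finset.card_filter, Finset.sum_filter]
      refine Finset.sum_congr rfl fun e _ => ?_
      rw [hcount2 ⟨v, hv⟩ e]
      by_cases h5 : ψ (c e) = h
      · have h6 : c e = ψ.symm h := by rw [← h5]; simp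
        simp [h5, h6]
      · have h6 : ¬ c e = ψ.symm h := fun h7 => h5 (by rw [h7]; simp)
        simp [h5, h6]
    · have h1 := hc1 ⟨v, hv⟩ (ψ.symm h)
      rw [← h1, Finset.card_filter, Finset.sum_filter]
      refine Finset.sum_congr rfl fun e _ => ?_
      rw [hcount1 ⟨v, hv⟩ e]
      by_cases h5 : ψ (c e) = h
      · have h6 : c e = ψ.symm h := by rw [← h5]; simp
        simp [h5, h6]
      · have h6 : ¬ c e = ψ.symm h := fun h7 => h5 (by rw [h7]; simp)
        simp [h5, h6]

end SDich
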