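import Pool.Agent.Lib.MP_e7d961_lc.Stm

/-!
# piece [fpcol]: the graph of a formula is computed in polynomial time
-/

namespace SDich

open Finset HerCo CookLevin

section

variable {α : Type} [Enc α] {md : Mode}

@[fun_prop]
theorem fpcol_cnv {φ : α → Cnf} (hφ : FP md φ) : FP md (fun a => cnv (φ a)) := by
  unfold cnv
  fun_prop

@[fun_prop]
theorem fpcol_cwd {φ : α → Cnf} (hφ : FP md φ) : FP md (fun a => cwd (φ a)) := by
  unfold cwd
  fun_prop

@[fun_prop]
theorem fpcol_lv {l : α → ℕ × Bool} (hl : FP md l) : FP md (fun a => lv (l a)) := by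
  unfold lv
  fun_prop

@[fun_prop]
theorem fpcol_gv {φ : α → Cnf} {c t r : α → ℕ} (hφ : FP md φ) (hc : FP md c) (ht : FP md t)
    (hr : FP md r) : FP md (fun a => gv (φ a) (c a) (t a) (r a)) := by
  unfold gv
  fun_prop

@[fun_prop]
theorem fpcol_ov {φ : α → Cnf} {c t : α → ℕ} (hφ : FP md φ) (hc : FP md c) (ht : FP md t) :
    FP md (fun a => ov (φ a) (c a) (t a)) := by
  unfold ov
  fun_prop

end

theorem p_fpcol : S_fpcol := by
  intro α _ φ hφ
  constructor
  · unfold colE
    fun_prop
  · unfold colN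
    fun_prop

end SDich
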