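import Pool.Agent.Lib.MP_e7d961_lc.Stm

/-!
Piece `[SD lsol]`: the two notions of solutions agree.
-/

namespace SDich

open Finset

theorem p_lsol : S_lsol := by
  intro n k nv H cls hv hg
  obtain ⟨_, hlen, hlt⟩ := hg
  constructor
  · rintro ⟨val, h1, h2⟩
    refine ⟨fun v => val v, fun v => h1 v v.isLt, ?_⟩
    intro c
    have hc : cls.getD c [] ∈ cls := by
      rw [List.getD_eq_getElem _ _ c.isLt]
      exact List.getElem_mem _
    obtain ⟨x, hx1, hx2⟩ := h2 _ hc
    have hm : ∀ i : Fin k, ((cls.getD c []).getD i (0, true)).1 % nv =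
        ((cls.getD c []).getD i (0, true)).1 := by
      intro i
      apply Nat.mod_eq_of_lt
      apply hlt _ hc
      have hi : (i : ℕ) < (cls.getD c []).length := by
        rw [hlen _ hc]
        exact i.isLt
      rw [List.getD_eq_getElem _ _ hi]
      exact List.getElem_mem _
    refine ⟨x, ?_, ?_⟩
    · intro i
      have := hx1 i
      simp only [instOf]
      rw [hm i]
      exact this
    · intro y
      rw [← hx2 y]
      congr 1
      apply Finset.filter_congr
      intro i _
      simp only [instOf]
      rw [hm i]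
  · rintro ⟨val, h1, h2⟩
    refine ⟨fun v => val ⟨v % nv, Nat.mod_lt _ hv⟩, fun v _ => h1 _, ?_⟩
    intro cl hcl
    obtain ⟨c, hc, rfl⟩ := List.getElem_of_mem hcl
    have := h2 ⟨c, hc⟩
    simp only [instOf, List.getD_eq_getElem _ _ hc] at this
    exact this

end SDich
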