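import Pool.Agent.Lib.MP_e7d961_lc.Stm

/-!
Exactly-one assignments give 3-colourings.
-/

set_option autoImplicit false

namespace SDich

/-- the colour of a vertex -/
private def tri2c (t : ℕ → Bool) (v : ℕ) : Fin 3 :=
  if t (3 * v) = true then 0 else if t (3 * v + 1) = true then 1 else 2

private theorem tri2_spec (t : ℕ → Bool) (v : ℕ)
    (h : One (t (3 * v)) (t (3 * v + 1)) (t (3 * v + 2))) :
    t (3 * v + (tri2c t v : ℕ)) = true := by
  unfold tri2c
  rcases h with ⟨h0, _, _⟩ | ⟨h0, h1, _⟩ | ⟨h0, h1, h2⟩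
  · rw [if_pos h0]
    exact h0
  · rw [if_neg (by rw [h0]; decide), if_pos h1]
    exact h1
  · rw [if_neg (by rw [h0]; decide), if_neg (by rw [h1]; decide)]
    exact h2

private theorem tri2_not_both {a b c : Bool} (h : One a b c) : ¬ (a = true ∧ b = true) := by
  rcases h with ⟨_, h, _⟩ | ⟨h, _, _⟩ | ⟨h, _, _⟩ <;> rintro ⟨h1, h2⟩ <;> simp_all

theorem p_tri2 : S_tri2 := by
  intro m E hE ht
  obtain ⟨t, ht⟩ := ht
  refine ⟨tri2c t, ?_⟩
  have hv : ∀ v, v < m → t (3 * v + (tri2c t v : ℕ)) = true := by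
    intro v hvm
    apply tri2_spec
    have hmem : (3 * v, 3 * v + 1, 3 * v + 2) ∈ tri m E := by
      unfold tri
      exact List.mem_append_left _ (List.mem_map.2 ⟨v, List.mem_range.2 hvm, rfl⟩)
    exact ht _ hmem
  intro e he heq
  obtain ⟨i, hi, rfl⟩ := List.getElem_of_mem he
  have hd : E.getD i (0, 0) = E[i] := by
    rw [List.getD_eq_getElem?_getD, List.getElem?_eq_getElem hi, Option.getD_some]
  set c : ℕ := (tri2c t (E[i]).1 : ℕ) with hc
  have hmem : (3 * (E[i]).1 + c, 3 * (E[i]).2 + c, 3 * m + 3 * i + c) ∈ tri m E := by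
    unfold tri
    refine List.mem_append_right _ (List.mem_flatMap.2 ⟨i, List.mem_range.2 hi, ?_⟩)
    refine List.mem_map.2 ⟨c, List.mem_range.2 (Fin.isLt _), ?_⟩
    rw [hd]
  have h1 := hv _ (hE _ he).1
  have h2 := hv _ (hE _ he).2
  rw [← heq] at h2
  exact tri2_not_both (ht _ hmem) ⟨h1, h2⟩

end SDich
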